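import Pool.Agent.Lib.MP_6ec7bd_co.LT.FIN

/-!
# LT, module APOS: the set in the definition of `A_v(0,d)` is not empty
-/

namespace Pool.Agent.Lib.MP_6ec7bd_co.LT

theorem A_pos (hOCC : SpecOCC) (hWIN : SpecWIN) (hSYS : SpecSYS) (hSUM : SpecSUM)
    (hBND : SpecBND) (v : List Bool) (hv : v ∈ V) (d : ℕ) (hd : 1 ≤ d) : 1 ≤ A v d := by
  have hex : ∃ l, 1 ≤ l ∧ Odd (e v (l * d)) := by
    obtain ⟨M, hL⟩ : ∃ M, v.length = M + 1 := ⟨v.length - 1, by have := hv.1; omega⟩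
    obtain ⟨S, hE1, hE2, hJ⟩ := FINM.sys' hSYS v hv M hL
    have hVlt : val v < 2 ^ (M + 1) := hL ▸ hOCC.2.1 v
    obtain ⟨xm, ym, hleast⟩ := FINM.exists_least S (hSUM M S (val v) hVlt hJ)
    obtain ⟨htr, hle, o, ho, hvo⟩ := hOCC.2.2.2.2.2.1 v hv
    obtain ⟨a, d', hd', hdd⟩ := Nat.exists_eq_two_pow_mul_odd (n := d) (by omega)
    have hodd : ∀ n, Odd (e v n) ↔ ((win (M + 1) (val v) n : ℕ) : ZMod 2) = 1 := by
      intro n
      rw [hWIN v hv n, hL, ZMod.natCast_eq_one_iff_odd]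
    rcases Nat.lt_or_ge a (trail v) with haj | haj
    · obtain ⟨u, hu1, hu2, hu3⟩ :=
        FINM.small (M + 1) (val v) a (trail v) o d' haj (by omega) hd' hvo ho hVlt
      refine ⟨u, hu1, ?_⟩
      rw [hodd, ZMod.natCast_eq_one_iff_odd, hdd]
      exact hu3
    · obtain ⟨l, hl1, hl2, hl3⟩ := hBND M S _ _ hleast d' hd'
      refine ⟨l, hl1, ?_⟩
      rw [hodd, hdd]
      have h1 : l * (2 ^ a * d') = 2 ^ a * (l * d') := by ring
      rw [h1, ← hE2 a (l * d') haj]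
      exact hl3
  exact (Nat.sInf_mem hex).1

end Pool.Agent.Lib.MP_6ec7bd_co.LT
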