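import Pool.Agent.Lib.MP_6ec7bd_co.LT.Spec

/-!
# LT, module BAS: basic facts of a digit system
-/

namespace Pool.Agent.Lib.MP_6ec7bd_co.LT

open Finset

namespace BASM

variable {M : ℕ} (S : Sys M)

lemma zz (a : ZMod 2) : a + a = 0 := CharTwo.add_self_eq_zero a

lemma J_right (y : ℕ) (hy : y < 2 ^ M) : S.J y 0 = 0 := by
  have h := S.split 0 y 0 (by norm_num)
  simp only [pow_zero, one_mul, add_zero, S.E_zero, Nat.mod_eq_of_lt hy, mul_zero,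
    Nat.zero_div] at h
  exact (left_eq_add.mp h)

lemma J_left (x : ℕ) (hx : x < 2 ^ M) : S.J 0 x = 0 := by
  have h := S.split M 0 x hx
  rw [mul_zero, zero_add, S.E_zero, Nat.zero_mod, Nat.mul_div_cancel_left x (by positivity),
    zero_add] at h
  exact (left_eq_add.mp h)

lemma E_pow (k n : ℕ) : S.E (2 ^ k * n) = S.E n := by
  have h := S.split k n 0 (by positivity)
  rw [add_zero, S.E_zero, mul_zero, Nat.zero_div, add_zero,
    J_right S _ (Nat.mod_lt _ (by positivity)), add_zero] at h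
  exact h

lemma E_odd (y : ℕ) : S.E (2 * y + 1) = S.E y + S.E 1 + S.J (y % 2 ^ M) (2 ^ (M - 1)) := by
  have h := S.split 1 y 1 (by norm_num)
  have hM := S.hM
  have h2 : 2 ^ M * 1 / 2 ^ 1 = 2 ^ (M - 1) := by
    obtain ⟨K, rfl⟩ : ∃ K, M = K + 1 := ⟨M - 1, by omega⟩
    rw [mul_one, pow_one, pow_succ, Nat.mul_div_cancel _ (by norm_num)]
    simp
  rw [h2, pow_one] at h
  exact h

lemma E_pred (s y : ℕ) : S.E (2 ^ s * (2 * y + 1) - 1) =
    S.E y + S.E (2 ^ s - 1) + S.J (y % 2 ^ M) (2 ^ M * (2 ^ s - 1) / 2 ^ (s + 1)) := by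
  have hp : 1 ≤ 2 ^ s := Nat.one_le_two_pow
  have h := S.split (s + 1) y (2 ^ s - 1) (by rw [pow_succ]; omega)
  have h1 : 2 ^ s * (2 * y + 1) - 1 = 2 ^ (s + 1) * y + (2 ^ s - 1) := by
    rw [pow_succ]
    have : 2 ^ s * (2 * y + 1) = 2 ^ s * 2 * y + 2 ^ s := by ring
    omega
  rw [h1, h]

lemma psi_eq (s y : ℕ) : S.psi (2 ^ s * (2 * y + 1)) =
    S.E 1 + S.J (y % 2 ^ M) (2 ^ (M - 1)) + S.E (2 ^ s - 1) +
      S.J (y % 2 ^ M) (2 ^ M * (2 ^ s - 1) / 2 ^ (s + 1)) := by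
  unfold Sys.psi
  rw [E_pow, E_odd, E_pred]
  have := zz (S.E y)
  linear_combination this

lemma quot (hM : 1 ≤ M) (N : ℕ) (hN : M ≤ N) :
    2 ^ M * (2 ^ N - 1) / 2 ^ (N + 1) = 2 ^ (M - 1) - 1 := by
  obtain ⟨K, rfl⟩ : ∃ K, M = K + 1 := ⟨M - 1, by omega⟩
  have hp : 1 ≤ 2 ^ N := Nat.one_le_two_pow
  have hK : 1 ≤ 2 ^ K := Nat.one_le_two_pow
  have hKN : 2 ^ (K + 1) ≤ 2 ^ N := Nat.pow_le_pow_right (by norm_num) hN
  rw [Nat.div_eq_iff (by positivity)]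
  simp only [Nat.add_sub_cancel]
  obtain ⟨a, ha⟩ : ∃ a, 2 ^ N = a + 1 := ⟨2 ^ N - 1, by omega⟩
  obtain ⟨b, hb⟩ : ∃ b, 2 ^ K = b + 1 := ⟨2 ^ K - 1, by omega⟩
  have e1 : 2 ^ (K + 1) = 2 * (b + 1) := by rw [pow_succ, hb]; ring
  have e2 : 2 ^ (N + 1) = 2 * (a + 1) := by rw [pow_succ, ha]; ring
  rw [e1, e2, ha, hb]
  rw [e1, ha] at hKN
  simp only [Nat.add_sub_cancel]
  constructor
  · nlinarith
  · apply Nat.le_sub_of_add_le
    nlinarith

lemma psi_big (N y : ℕ) (hN : M ≤ N) :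
    S.psi (2 ^ N * (2 * y + 1)) = S.beta y + S.E (2 ^ N - 1) := by
  rw [psi_eq, quot S.hM N hN]
  unfold Sys.beta
  ring

lemma psi_local (s m m' : ℕ) (h : m % 2 ^ (s + 1) = 2 ^ s)
    (h' : m % 2 ^ (s + 1 + M) = m' % 2 ^ (s + 1 + M)) : S.psi m = S.psi m' := by
  have key : ∀ n, n % 2 ^ (s + 1) = 2 ^ s → n = 2 ^ s * (2 * (n / 2 ^ (s + 1)) + 1) := by
    intro n hn
    have := Nat.div_add_mod n (2 ^ (s + 1))
    rw [hn] at this
    rw [← this]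
    have h0 : (2 ^ (s + 1) * (n / 2 ^ (s + 1)) + 2 ^ s) / 2 ^ (s + 1) = n / 2 ^ (s + 1) := by
      rw [this]
    rw [h0]
    ring
  have hm' : m' % 2 ^ (s + 1) = 2 ^ s := by
    rw [← h]
    have : 2 ^ (s + 1) ∣ 2 ^ (s + 1 + M) := pow_dvd_pow 2 (by omega)
    rw [← Nat.mod_mod_of_dvd m this, ← Nat.mod_mod_of_dvd m' this, h']
  have hy : (m / 2 ^ (s + 1)) % 2 ^ M = (m' / 2 ^ (s + 1)) % 2 ^ M := by
    rw [← Nat.mod_mul_right_div_self, ← Nat.mod_mul_right_div_self, ← pow_add, h']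
  rw [key m h, key m' hm', psi_eq, psi_eq, hy]

lemma tele (a b : ℕ) (h : a ≤ b) : S.E b + S.E a = ∑ m ∈ Ioc a b, S.psi m := by
  induction b, h using Nat.le_induction with
  | base => simp [zz]
  | succ n hn ih =>
    rw [Finset.sum_Ioc_succ_top (by omega), ← ih]
    unfold Sys.psi
    rw [Nat.add_sub_cancel]
    linear_combination -(zz (S.E n))

end BASM

theorem specBAS : SpecBAS := by
  intro M S
  refine ⟨BASM.J_right S, BASM.J_left S, BASM.E_pow S, fun N y h => BASM.psi_big S N y h,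
    fun s m m' h h' => BASM.psi_local S s m m' h h', fun a b h => BASM.tele S a b h, ?_⟩
  intro y
  unfold Sys.beta
  rw [Nat.mod_mod]

end Pool.Agent.Lib.MP_6ec7bd_co.LT
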