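import Pool.Agent.Lib.MP_6ec7bd_co.LT.Spec

/-!
# BLK: a block of crossings with the same data (MP_6ec7bd_co, folder LT)
-/

set_option autoImplicit false

namespace Pool.Agent.Lib.MP_6ec7bd_co.LT

open Finset

namespace BLKM

lemma dv {T n : ℕ} {a s : ℤ} (hT : 0 < T) (h : (n : ℤ) = T * a + s) (h0 : 0 ≤ s) (h1 : s < T) :
    ((n / T : ℕ) : ℤ) = a := by
  have hT' : (T : ℤ) ≠ 0 := by exact_mod_cast hT.ne'
  rw [Int.natCast_ediv, h, add_comm, Int.add_mul_ediv_left _ _ hT', Int.ediv_eq_zero_of_lt h0 h1, zero_add]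

/-- The crossings of a block. -/
lemma block (M d t N Δ : ℕ) (m ε : ℤ) (hMt : M ≤ t) (hd1 : 2 ^ (t + M + 2) ≤ d) (hd2 : d < 2 ^ (t + M + 3))
    (hΔ : Odd Δ) (heq : (Δ : ℤ) * 2 ^ (N + t) = m * d + ε) (hε : |ε| * 2 ^ (3 * M + 5) < d) :
    ∃ (b : ℕ) (l : ℕ → ℕ) (κ₁ κ₂ : ℤ), (b = 0 ∨ b = 2 ^ (M + 1)) ∧
      (∀ i, 1 ≤ i → i ≤ 2 ^ (M + 2) → Cross d t N (i * Δ) (l i)) ∧
      ∀ i, b < i → i ≤ b + 2 ^ (M + 1) →
        ((l i * d / 2 ^ (t - M) : ℕ) : ℤ) = ((2 ^ M * (2 ^ N * (i * Δ)) : ℕ) : ℤ) + κ₁ ∧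
        (((l i + 1) * d / 2 ^ (t - M) : ℕ) : ℤ) = ((2 ^ M * (2 ^ N * (i * Δ)) : ℕ) : ℤ) + κ₂ := by
  obtain ⟨T, hTe⟩ : ∃ T : ℕ, T = 2 ^ (t - M) := ⟨_, rfl⟩
  have hT : 0 < T := by rw [hTe]; positivity
  have hT2 : 2 ^ t = 2 ^ M * T := by
    rw [hTe, ← pow_add]
    congr 1
    omega
  rw [← hTe]
  have hΔ0 : 0 < Δ := hΔ.pos
  obtain ⟨W, hW⟩ : ∃ W : ℕ → ℕ, ∀ i, W i = 2 ^ M * (2 ^ N * (i * Δ)) := ⟨fun i => 2 ^ M * (2 ^ N * (i * Δ)), fun _ => rfl⟩
  simp only [← hW]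
  have hWT : ∀ i, 2 ^ t * (2 ^ N * (i * Δ)) = T * W i := by
    intro i
    rw [hW, hT2]
    ring
  have hmain : ∀ i : ℕ, (T : ℤ) * (W i : ℤ) = i * (m * d + ε) := by
    intro i
    rw [← heq, ← Nat.cast_mul, ← hWT]
    push_cast
    ring
  have hTd : T ≤ d := by
    refine le_trans ?_ hd1
    rw [hTe]
    exact Nat.pow_le_pow_right (by norm_num) (by omega)
  have hεT : |ε| * 2 ^ (M + 2) < T := by
    have h1 : (d : ℤ) < 2 ^ (2 * M + 3) * T := by
      have h2 : 2 ^ (t + M + 3) = 2 ^ (2 * M + 3) * T := by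
        rw [hTe, ← pow_add]
        congr 1
        omega
      rw [h2] at hd2
      exact_mod_cast hd2
    have h3 : |ε| * 2 ^ (3 * M + 5) = 2 ^ (2 * M + 3) * (|ε| * 2 ^ (M + 2)) := by
      have : (2 : ℤ) ^ (3 * M + 5) = 2 ^ (2 * M + 3) * 2 ^ (M + 2) := by
        rw [← pow_add]
        congr 1
        omega
      rw [this]
      ring
    rw [h3] at hε
    exact lt_of_mul_lt_mul_left (hε.trans h1) (by positivity)
  have hTdz : (T : ℤ) ≤ d := by exact_mod_cast hTd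
  have hT0 : (0 : ℤ) < T := by exact_mod_cast hT
  have hpos : (0 : ℤ) < m * d + ε := by
    rw [← heq]
    have : (0 : ℤ) < Δ := by exact_mod_cast hΔ0
    positivity
  have hpow : (1 : ℤ) ≤ 2 ^ (M + 2) := one_le_pow₀ (by norm_num)
  have hεd : |ε| < T := by
    have := abs_nonneg ε
    nlinarith
  -- bound for the multiples of the error
  have hiε : ∀ i : ℕ, i ≤ 2 ^ (M + 2) → (i : ℤ) * |ε| < T := by
    intro i hi
    have h1 : (i : ℤ) ≤ 2 ^ (M + 2) := by exact_mod_cast hi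
    have := mul_le_mul_of_nonneg_right h1 (abs_nonneg ε)
    linarith
  obtain ⟨D, hD⟩ : ∃ D : ℕ, D = d / T := ⟨_, rfl⟩
  obtain ⟨ρ, hρ⟩ : ∃ ρ : ℕ, ρ = d % T := ⟨_, rfl⟩
  have hρT : (ρ : ℤ) < T := by
    rw [hρ]
    exact_mod_cast Nat.mod_lt d hT
  have hdD : (d : ℤ) = T * D + ρ := by
    rw [hD, hρ]
    exact_mod_cast (Nat.div_add_mod d T).symm
  have hρ0 : (0 : ℤ) ≤ ρ := Int.natCast_nonneg _
  have hM1 : 2 ^ (M + 2) = 2 ^ (M + 1) + 2 ^ (M + 1) := by ring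
  rcases lt_or_ge 0 ε with hεp | hεn
  · -- positive error
    rw [abs_of_pos hεp] at hεT hεd hiε
    have hm : 0 ≤ m := by
      by_contra hc
      push Not at hc
      have : m * d ≤ (-1) * d := mul_le_mul_of_nonneg_right (by omega) (by positivity)
      linarith
    obtain ⟨μ, rfl⟩ := Int.eq_ofNat_of_zero_le hm
    have hld : ∀ i : ℕ, ((i * μ * d : ℕ) : ℤ) = T * W i - i * ε := by
      intro i
      rw [hmain]
      push_cast
      ring
    have hld' : ∀ i : ℕ, (((i * μ + 1) * d : ℕ) : ℤ) = T * W i - i * ε + d := by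
      intro i
      rw [hmain]
      push_cast
      ring
    have hcross : ∀ i, 1 ≤ i → i ≤ 2 ^ (M + 2) → Cross d t N (i * Δ) (i * μ) := by
      intro i hi1 hi2
      have h1 : (1 : ℤ) ≤ i := by exact_mod_cast hi1
      have h2 : 0 < (i : ℤ) * ε := by positivity
      have h3 := hiε i hi2
      unfold Cross
      rw [hWT]
      constructor
      · have : ((i * μ * d : ℕ) : ℤ) < ((T * W i : ℕ) : ℤ) := by
          rw [hld]
          push_cast
          linarith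
        exact_mod_cast this
      · have : ((T * W i : ℕ) : ℤ) ≤ (((i * μ + 1) * d : ℕ) : ℤ) := by
          rw [hld']
          push_cast
          linarith
        exact_mod_cast this
    have hlow : ∀ i, 1 ≤ i → i ≤ 2 ^ (M + 2) → ((i * μ * d / T : ℕ) : ℤ) = (W i : ℤ) + (-1) := by
      intro i hi1 hi2
      have h1 : (1 : ℤ) ≤ i := by exact_mod_cast hi1
      have h2 : 0 < (i : ℤ) * ε := by positivity
      have h3 := hiε i hi2
      refine dv (s := T - i * ε) hT ?_ (by linarith) (by linarith)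
      rw [hld]
      ring
    by_cases hc : (2 : ℤ) ^ (M + 1) * ε ≤ ρ
    · refine ⟨0, fun i => i * μ, -1, D, Or.inl rfl, hcross, fun i hi1 hi2 => ?_⟩
      have hi3 : i ≤ 2 ^ (M + 2) := by omega
      refine ⟨hlow i hi1 hi3, ?_⟩
      have h1 : (i : ℤ) ≤ 2 ^ (M + 1) := by
        have : i ≤ 2 ^ (M + 1) := by omega
        exact_mod_cast this
      have h2 : (i : ℤ) * ε ≤ ρ := (mul_le_mul_of_nonneg_right h1 hεp.le).trans hc
      have h4 : 0 ≤ (i : ℤ) * ε := by positivity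
      refine dv (s := ρ - i * ε) hT ?_ (by linarith) (by linarith)
      rw [hld', hdD]
      ring
    · push Not at hc
      refine ⟨2 ^ (M + 1), fun i => i * μ, -1, D - 1, Or.inr rfl, hcross, fun i hi1 hi2 => ?_⟩
      have hi3 : i ≤ 2 ^ (M + 2) := by omega
      have hi4 : 1 ≤ i := by omega
      refine ⟨hlow i hi4 hi3, ?_⟩
      have h1 : (2 : ℤ) ^ (M + 1) ≤ i := by exact_mod_cast hi1.le
      have h2 : (ρ : ℤ) < i * ε := hc.trans_le (mul_le_mul_of_nonneg_right h1 hεp.le)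
      have h3 := hiε i hi3
      refine dv (s := ρ - i * ε + T) hT ?_ (by linarith) (by linarith)
      rw [hld', hdD]
      ring
  · -- negative error
    obtain ⟨e, he⟩ : ∃ e : ℤ, e = -ε := ⟨_, rfl⟩
    have he0 : 0 ≤ e := by omega
    rw [abs_of_nonpos hεn, ← he] at hεT hεd hiε
    have hm : 0 < m := by
      by_contra hc
      push Not at hc
      have : m * d ≤ 0 * d := mul_le_mul_of_nonneg_right hc (by positivity)
      linarith
    obtain ⟨μ, rfl⟩ := Int.eq_ofNat_of_zero_le hm.le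
    have hμ : 0 < μ := by exact_mod_cast hm
    have hl1 : ∀ i : ℕ, 1 ≤ i → i * μ - 1 + 1 = i * μ := by
      intro i hi
      have : 0 < i * μ := Nat.mul_pos hi hμ
      omega
    have hld' : ∀ i : ℕ, 1 ≤ i → (((i * μ - 1 + 1) * d : ℕ) : ℤ) = T * W i + i * e := by
      intro i hi
      rw [hl1 i hi, hmain, he]
      push_cast
      ring
    have hld : ∀ i : ℕ, 1 ≤ i → (((i * μ - 1) * d : ℕ) : ℤ) = T * W i + i * e - d := by
      intro i hi
      have h1 := hld' i hi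
      rw [add_mul, one_mul] at h1
      push_cast at h1 ⊢
      linarith
    have hcross : ∀ i, 1 ≤ i → i ≤ 2 ^ (M + 2) → Cross d t N (i * Δ) (i * μ - 1) := by
      intro i hi1 hi2
      have h2 : 0 ≤ (i : ℤ) * e := by positivity
      have h3 := hiε i hi2
      unfold Cross
      rw [hWT]
      constructor
      · have : (((i * μ - 1) * d : ℕ) : ℤ) < ((T * W i : ℕ) : ℤ) := by
          rw [hld i hi1]
          push_cast
          linarith
        exact_mod_cast this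
      · have : ((T * W i : ℕ) : ℤ) ≤ (((i * μ - 1 + 1) * d : ℕ) : ℤ) := by
          rw [hld' i hi1]
          push_cast
          linarith
        exact_mod_cast this
    have hup : ∀ i, 1 ≤ i → i ≤ 2 ^ (M + 2) → (((i * μ - 1 + 1) * d / T : ℕ) : ℤ) = (W i : ℤ) + 0 := by
      intro i hi1 hi2
      have h2 : 0 ≤ (i : ℤ) * e := by positivity
      have h3 := hiε i hi2
      refine dv (s := i * e) hT ?_ (by linarith) (by linarith)
      rw [hld' i hi1]
      ring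
    by_cases hc : (2 : ℤ) ^ (M + 1) * e < ρ
    · refine ⟨0, fun i => i * μ - 1, -D - 1, 0, Or.inl rfl, hcross, fun i hi1 hi2 => ?_⟩
      have hi3 : i ≤ 2 ^ (M + 2) := by omega
      refine ⟨?_, hup i hi1 hi3⟩
      have h1 : (i : ℤ) ≤ 2 ^ (M + 1) := by
        have : i ≤ 2 ^ (M + 1) := by omega
        exact_mod_cast this
      have h2 : (i : ℤ) * e < ρ := (mul_le_mul_of_nonneg_right h1 he0).trans_lt hc
      have h4 : 0 ≤ (i : ℤ) * e := by positivity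
      refine dv (s := T + i * e - ρ) hT ?_ (by linarith) (by linarith)
      rw [hld i hi1, hdD]
      ring
    · push Not at hc
      refine ⟨2 ^ (M + 1), fun i => i * μ - 1, -D, 0, Or.inr rfl, hcross, fun i hi1 hi2 => ?_⟩
      have hi3 : i ≤ 2 ^ (M + 2) := by omega
      have hi4 : 1 ≤ i := by omega
      refine ⟨?_, hup i hi4 hi3⟩
      have h1 : (2 : ℤ) ^ (M + 1) ≤ i := by exact_mod_cast hi1.le
      have h2 : (ρ : ℤ) ≤ i * e := hc.trans (mul_le_mul_of_nonneg_right h1 he0)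
      have h3 := hiε i hi3
      refine dv (s := i * e - ρ) hT ?_ (by linarith) (by linarith)
      rw [hld i hi4, hdD]
      ring

/-- A complete system of odd residues in a block. -/
lemma resid (M Δ b : ℕ) (hΔ : Odd Δ) (hb : b = 0 ∨ b = 2 ^ (M + 1)) (y : ℕ) :
    ∃ i k k' : ℕ, b < i ∧ i ≤ b + 2 ^ (M + 1) ∧ Odd i ∧ i * Δ + 2 ^ (M + 1) * k = 2 * y + 1 + 2 ^ (M + 1) * k' := by
  have hcop : Nat.Coprime Δ (2 ^ (M + 1)) := (Nat.coprime_two_right.2 hΔ).pow_right _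
  have h1 : 1 < 2 ^ (M + 1) := Nat.one_lt_two_pow (by omega)
  obtain ⟨u, hu⟩ := Nat.exists_mul_mod_eq_one_of_coprime hcop h1
  obtain ⟨i₀, hi₀⟩ : ∃ i₀ : ℕ, i₀ = (2 * y + 1) * u % 2 ^ (M + 1) := ⟨_, rfl⟩
  have hi₀lt : i₀ < 2 ^ (M + 1) := by rw [hi₀]; exact Nat.mod_lt _ (by positivity)
  have hcong : (b + i₀) * Δ ≡ 2 * y + 1 [MOD 2 ^ (M + 1)] := by
    have hb0 : b ≡ 0 [MOD 2 ^ (M + 1)] := by
      rcases hb with rfl | rfl
      · rfl
      · exact (Nat.modEq_zero_iff_dvd.2 dvd_rfl)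
    have h2 : i₀ ≡ (2 * y + 1) * u [MOD 2 ^ (M + 1)] := by
      rw [hi₀]
      exact Nat.mod_modEq _ _
    have h3 : Δ * u ≡ 1 [MOD 2 ^ (M + 1)] := by
      rw [Nat.ModEq, hu.2, Nat.mod_eq_of_lt h1]
    calc (b + i₀) * Δ ≡ (0 + (2 * y + 1) * u) * Δ [MOD 2 ^ (M + 1)] := (hb0.add h2).mul_right Δ
      _ = (2 * y + 1) * (Δ * u) := by ring
      _ ≡ (2 * y + 1) * 1 [MOD 2 ^ (M + 1)] := h3.mul_left _
      _ = 2 * y + 1 := mul_one _
  have hodd : Odd ((b + i₀) * Δ) := by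
    have h2 : (b + i₀) * Δ ≡ 2 * y + 1 [MOD 2] := hcong.of_dvd (dvd_pow_self 2 (by omega))
    rw [Nat.odd_iff]
    have h3 := h2
    rw [Nat.ModEq] at h3
    omega
  have hiodd : Odd (b + i₀) := (Nat.odd_mul.1 hodd).1
  have hbe : Even b := by
    rcases hb with rfl | rfl
    · exact Even.zero
    · exact (even_two.pow_of_ne_zero (by omega))
  have hi₀pos : 0 < i₀ := by
    rcases Nat.eq_zero_or_pos i₀ with h | h
    · rw [h, add_zero] at hiodd
      exact absurd hbe (Nat.not_even_iff_odd.2 hiodd)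
    · exact h
  refine ⟨b + i₀, (2 * y + 1) / 2 ^ (M + 1), (b + i₀) * Δ / 2 ^ (M + 1), by omega, by omega, hiodd, ?_⟩
  have h4 := Nat.div_add_mod ((b + i₀) * Δ) (2 ^ (M + 1))
  have h5 := Nat.div_add_mod (2 * y + 1) (2 ^ (M + 1))
  have h6 : (b + i₀) * Δ % 2 ^ (M + 1) = (2 * y + 1) % 2 ^ (M + 1) := hcong
  rw [h6] at h4
  omega

end BLKM

open BLKM in
/-- BLK. -/
theorem specBLK (hBAS : SpecBAS) (hCST : SpecCST) : SpecBLK := by
  intro M S d t N Δ m ε hMt hd1 hd2 hN hz hΔ heq hε hdd hE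
  obtain ⟨b, l, κ₁, κ₂, hb, hcross, hval⟩ := block M d t N Δ m ε hMt hd1 hd2 hΔ heq hε
  have hd0 : 0 < d := lt_of_lt_of_le (by positivity) hd1
  have hM1 : 2 ^ (M + 2) = 2 ^ (M + 1) + 2 ^ (M + 1) := by ring
  have hb2 : b ≤ 2 ^ (M + 1) := by
    rcases hb with h | h
    · rw [h]
      exact Nat.zero_le _
    · rw [h]
  -- the multipliers are at most 2^t
  have hl : ∀ i, 1 ≤ i → i ≤ 2 ^ (M + 2) → l i + 1 ≤ 2 ^ t := by
    intro i hi1 hi2
    have h1 := (hcross i hi1 hi2).1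
    have h2 : 2 ^ N * (i * Δ) ≤ d := by
      refine le_trans ?_ hdd
      calc 2 ^ N * (i * Δ) ≤ 2 ^ N * (2 ^ (M + 2) * Δ) :=
            Nat.mul_le_mul_left _ (Nat.mul_le_mul_right _ hi2)
        _ = 2 ^ N * Δ * 2 ^ (M + 2) := by ring
    have h3 : l i * d < 2 ^ t * d := h1.trans_le (Nat.mul_le_mul_left _ h2)
    exact Nat.lt_of_mul_lt_mul_right h3
  have ht2 : 2 ^ (t + 1) = 2 ^ t + 2 ^ t := by ring
  have hmain : ∀ i j, b < i → i ≤ b + 2 ^ (M + 1) → Odd i → b < j → j ≤ b + 2 ^ (M + 1) → Odd j →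
      S.beta ((i * Δ - 1) / 2) = S.beta ((j * Δ - 1) / 2) := by
    intro i j hi1 hi2 hi hj1 hj2 hj
    have hi3 : 1 ≤ i := by omega
    have hi4 : i ≤ 2 ^ (M + 2) := by omega
    have hj3 : 1 ≤ j := by omega
    have hj4 : j ≤ 2 ^ (M + 2) := by omega
    refine hCST M S d t N (i * Δ) (j * Δ) (l i) (l j) hMt hd2 hN hz (hi.mul hΔ) (hj.mul hΔ)
      (hcross i hi3 hi4) (hcross j hj3 hj4) ?_ ?_ ?_
    · have h1 := (hval i hi1 hi2).1
      have h2 := (hval j hj1 hj2).1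
      have : ((l i * d / 2 ^ (t - M) + 2 ^ M * (2 ^ N * (j * Δ)) : ℕ) : ℤ) =
          ((l j * d / 2 ^ (t - M) + 2 ^ M * (2 ^ N * (i * Δ)) : ℕ) : ℤ) := by
        rw [Nat.cast_add, Nat.cast_add, h1, h2]
        ring
      exact_mod_cast this
    · have h1 := (hval i hi1 hi2).2
      have h2 := (hval j hj1 hj2).2
      have : (((l i + 1) * d / 2 ^ (t - M) + 2 ^ M * (2 ^ N * (j * Δ)) : ℕ) : ℤ) =
          (((l j + 1) * d / 2 ^ (t - M) + 2 ^ M * (2 ^ N * (i * Δ)) : ℕ) : ℤ) := by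
        rw [Nat.cast_add, Nat.cast_add, h1, h2]
        ring
      exact_mod_cast this
    · have a1 := hl i hi3 hi4
      have a2 := hl j hj3 hj4
      intro n hn
      simp only [mem_insert, mem_singleton] at hn
      have hn2 : n ≤ 2 ^ t := by
        rcases hn with rfl | rfl | rfl | rfl <;> omega
      exact ⟨hE n (by omega), hE (2 ^ t + n) (by omega)⟩
  obtain ⟨i₀, k₀, k₀', hi₀1, hi₀2, hi₀, -⟩ := resid M Δ b hΔ hb 0
  refine ⟨S.beta ((i₀ * Δ - 1) / 2), fun y hy => ?_⟩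
  obtain ⟨i, k, k', hi1, hi2, hi, hik⟩ := resid M Δ b hΔ hb y
  rw [← hmain i i₀ hi1 hi2 hi hi₀1 hi₀2 hi₀]
  have h7 := (hBAS M S).2.2.2.2.2.2
  rw [h7 y, h7 ((i * Δ - 1) / 2)]
  congr 1
  have hpow : 2 ^ (M + 1) = 2 * 2 ^ M := by ring
  rw [hpow, mul_assoc, mul_assoc] at hik
  have h8 : (i * Δ - 1) / 2 + 2 ^ M * k = y + 2 ^ M * k' := by
    have h9 : 1 ≤ i * Δ := Nat.mul_pos (by omega) hΔ.pos
    omega
  have h10 := congrArg (· % 2 ^ M) h8
  simp only [Nat.add_mul_mod_self_left] at h10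
  exact h10.symm

end Pool.Agent.Lib.MP_6ec7bd_co.LT
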