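import Pool.Agent.Lib.MP_6ec7bd_co.LT.Spec

namespace Pool.Agent.Lib.MP_6ec7bd_co.LT

open Finset

namespace BNDM

theorem zmod2_cases (x : ZMod 2) : x = 0 ∨ x = 1 := by
  revert x
  decide

theorem exists_inv {M d ym : ℕ} (hd : Odd d) (hy : ym < 2 ^ M) :
    ∃ l1, l1 < 2 ^ M ∧ l1 * d % 2 ^ M = ym := by
  have hc : Nat.Coprime d (2 ^ M) := (Nat.coprime_two_right.2 hd).pow_right M
  by_cases hM : M = 0
  · subst hM
    refine ⟨0, by norm_num, ?_⟩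
    simp only [pow_zero, Nat.lt_one_iff] at hy
    simp [hy]
  · have h1 : 1 < 2 ^ M := Nat.one_lt_two_pow hM
    obtain ⟨m, hm⟩ := Nat.exists_mul_mod_eq_one_of_coprime hc h1
    refine ⟨ym * m % 2 ^ M, Nat.mod_lt _ (by positivity), ?_⟩
    rw [Nat.mod_mul_mod]
    have e : ym * m * d = ym * (d * m) := by ring
    rw [e, Nat.mul_mod, hm.2, mul_one, Nat.mod_mod, Nat.mod_eq_of_lt hy]

end BNDM

open BNDM in
theorem specBND (hBAS : SpecBAS) : SpecBND := by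
  intro M S xm ym hL d hd
  obtain ⟨hxm, hym, hJ, -, -⟩ := hL
  obtain ⟨hB1, hB2, -⟩ := hBAS M S
  have hx1 : 1 ≤ xm := by
    rcases Nat.eq_zero_or_pos xm with h | h
    · rw [h, hB1 ym hym] at hJ
      exact absurd hJ (by decide)
    · exact h
  have hy1 : 1 ≤ ym := by
    rcases Nat.eq_zero_or_pos ym with h | h
    · rw [h, hB2 xm hxm] at hJ
      exact absurd hJ (by decide)
    · exact h
  have hd0 : 0 < d := hd.pos
  obtain ⟨b, hb1, hb2⟩ : ∃ b, d < 2 ^ b ∧ 2 ^ b ≤ 2 * d := by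
    refine ⟨Nat.log 2 d + 1, Nat.lt_pow_succ_log_self (by norm_num) d, ?_⟩
    rw [pow_succ, mul_comm]
    exact Nat.mul_le_mul_left 2 (Nat.pow_log_le_self 2 hd0.ne')
  obtain ⟨l1, hl1, hl1d⟩ := exists_inv (M := M) hd hym
  have hl11 : 1 ≤ l1 := by
    rcases Nat.eq_zero_or_pos l1 with h | h
    · rw [h, zero_mul, Nat.zero_mod] at hl1d
      omega
    · exact h
  -- the lower part
  obtain ⟨l2, h21, h22⟩ : ∃ l2, xm * 2 ^ b ≤ l2 * d ∧ l2 * d < xm * 2 ^ b + d := by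
    refine ⟨(xm * 2 ^ b + (d - 1)) / d, ?_, ?_⟩
    · have h := Nat.lt_div_mul_add (a := xm * 2 ^ b + (d - 1)) hd0
      omega
    · have h := Nat.div_mul_le_self (xm * 2 ^ b + (d - 1)) d
      omega
  have hp : 0 < 2 ^ b := by positivity
  have hxb : 1 ≤ xm * 2 ^ b := Nat.mul_pos hx1 hp
  have hl21 : 1 ≤ l2 := by
    rcases Nat.eq_zero_or_pos l2 with h | h
    · rw [h, zero_mul] at h21
      omega
    · exact h
  have hl2b : l2 ≤ xm * 2 ^ b := by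
    by_contra hcon
    push Not at hcon
    have h1 : (xm * 2 ^ b + 1) * d ≤ l2 * d := Nat.mul_le_mul_right d hcon
    have h2 : xm * 2 ^ b * 1 ≤ xm * 2 ^ b * d := Nat.mul_le_mul_left _ hd0
    rw [add_mul, one_mul] at h1
    omega
  have h23 : l2 * d < (xm + 1) * 2 ^ b := by
    rw [add_mul, one_mul]
    omega
  have hbM : (xm + 1) * 2 ^ b ≤ 2 ^ (b + M) := by
    rw [pow_add, mul_comm (2 ^ b)]
    exact Nat.mul_le_mul_right _ hxm
  have hsplit := S.split (b + M) (l1 * d) (l2 * d) (h23.trans_le hbM)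
  have hq : 2 ^ M * (l2 * d) / 2 ^ (b + M) = xm := by
    rw [add_comm b M, pow_add, Nat.mul_div_mul_left _ _ (by positivity : 0 < 2 ^ M)]
    exact (Nat.div_eq_iff hp).2 ⟨h21, by
      rw [add_mul, one_mul] at h23
      omega⟩
  rw [hl1d, hq, hJ] at hsplit
  have hbig : 2 ^ (b + M) * 2 ^ M ≤ 2 ^ (2 * M + 1) * d := by
    calc 2 ^ (b + M) * 2 ^ M = 2 ^ b * 2 ^ (2 * M) := by ring
      _ ≤ 2 * d * 2 ^ (2 * M) := Nat.mul_le_mul_right _ hb2
      _ = 2 ^ (2 * M + 1) * d := by ring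
  have h1big : 2 ^ M * 2 ^ b ≤ 2 ^ (b + M) * 2 ^ M := by
    rw [pow_add, mul_comm (2 ^ b)]
    exact Nat.le_mul_of_pos_right _ (by positivity)
  have h1M : 1 ≤ 2 ^ M := Nat.one_le_two_pow
  have hup : 2 ^ (2 * M + 2) * d = 2 ^ (2 * M + 1) * d + 2 ^ (2 * M + 1) * d := by ring
  have hl2up : l2 ≤ 2 ^ (2 * M + 1) * d := by
    calc l2 ≤ xm * 2 ^ b := hl2b
      _ ≤ 2 ^ M * 2 ^ b := Nat.mul_le_mul_right _ hxm.le
      _ ≤ _ := h1big.trans hbig
  have hl1up : l1 ≤ 2 ^ (2 * M + 1) * d := by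
    calc l1 ≤ 2 ^ M * 1 := by omega
      _ ≤ 2 ^ M * 2 ^ b := Nat.mul_le_mul_left _ hp
      _ ≤ _ := h1big.trans hbig
  rcases zmod2_cases (S.E (l1 * d)) with h1 | h1
  · rcases zmod2_cases (S.E (l2 * d)) with h2 | h2
    · refine ⟨2 ^ (b + M) * l1 + l2, by omega, ?_, ?_⟩
      · have h3 : 2 ^ (b + M) * l1 ≤ 2 ^ (b + M) * 2 ^ M := Nat.mul_le_mul_left _ hl1.le
        omega
      · have e : (2 ^ (b + M) * l1 + l2) * d = 2 ^ (b + M) * (l1 * d) + l2 * d := by ring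
        rw [e, hsplit, h1, h2]
        norm_num
    · exact ⟨l2, hl21, by omega, h2⟩
  · exact ⟨l1, hl11, by omega, h1⟩

end Pool.Agent.Lib.MP_6ec7bd_co.LT
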