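import Pool.Agent.Lib.MP_6ec7bd_co.LT.Spec

/-!
# LT/CMP: comparison of the multiples `l d` and `(2^t + l) d`
-/

namespace Pool.Agent.Lib.MP_6ec7bd_co.LT

namespace CMPM

theorem digits (M t n : ℕ) (h : M ≤ t) :
    n / 2 ^ (t - M) / 2 ^ M = n / 2 ^ t ∧
      n / 2 ^ (t - M) % 2 ^ M = 2 ^ M * (n % 2 ^ t) / 2 ^ t := by
  have ht : 2 ^ t = 2 ^ (t - M) * 2 ^ M := by
    rw [← pow_add, Nat.sub_add_cancel h]
  have h1 : n / 2 ^ (t - M) / 2 ^ M = n / 2 ^ t := by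
    rw [Nat.div_div_eq_div_mul, ht]
  refine ⟨h1, ?_⟩
  have hM : 0 < 2 ^ M := Nat.two_pow_pos M
  have h2 : 2 ^ M * (n % 2 ^ t) / 2 ^ t = n % 2 ^ t / 2 ^ (t - M) := by
    generalize n % 2 ^ t = r
    rw [ht, mul_comm (2 ^ (t - M)) (2 ^ M), Nat.mul_div_mul_left _ _ hM]
  rw [h2, ht, Nat.mod_mul_right_div_self]

end CMPM

theorem specCMP : SpecCMP := by
  intro M S d t l hMt h1 h2
  obtain ⟨hq, hx⟩ := CMPM.digits M t (l * d) hMt
  rw [hq, hx]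
  have ht : 0 < 2 ^ t := Nat.two_pow_pos t
  have hr : l * d % 2 ^ t < 2 ^ t := Nat.mod_lt _ ht
  have e1 : 2 ^ t * (l * d / 2 ^ t) + l * d % 2 ^ t = l * d := Nat.div_add_mod _ _
  have e2 : 2 ^ t * (d + l * d / 2 ^ t) + l * d % 2 ^ t = (2 ^ t + l) * d := by
    rw [mul_add, add_assoc, e1]
    ring
  have s1 := S.split t (l * d / 2 ^ t) (l * d % 2 ^ t) hr
  have s2 := S.split t (d + l * d / 2 ^ t) (l * d % 2 ^ t) hr
  rw [e1, h1] at s1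
  rw [e2, h2] at s2
  generalize S.E (l * d / 2 ^ t) = a at *
  generalize S.E (d + l * d / 2 ^ t) = b at *
  generalize S.E (l * d % 2 ^ t) = c at *
  generalize S.J (l * d / 2 ^ t % 2 ^ M) (2 ^ M * (l * d % 2 ^ t) / 2 ^ t) = x at *
  generalize S.J ((d + l * d / 2 ^ t) % 2 ^ M) (2 ^ M * (l * d % 2 ^ t) / 2 ^ t) = y at *
  clear e1 e2 hr ht hq hx h1 h2
  revert a b c x y
  decide

end Pool.Agent.Lib.MP_6ec7bd_co.LT
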