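import Pool.Agent.Lib.MP_6ec7bd_co.LT.Spec

/-!
# CST: two crossings with the same data have the same `beta`
-/

set_option autoImplicit false

namespace Pool.Agent.Lib.MP_6ec7bd_co.LT

open Finset

namespace CSTM

variable {M : ℕ} (S : Sys M)

theorem add_self (a : ZMod 2) : a + a = 0 := CharTwo.add_self_eq_zero a

theorem tele (a n : ℕ) : S.E (a + n) + S.E a = ∑ i ∈ range n, S.psi (a + 1 + i) := by
  induction n with
  | zero => simp [add_self]
  | succ n ih =>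
    rw [sum_range_succ, ← ih]
    have h1 : S.psi (a + 1 + n) = S.E (a + (n + 1)) + S.E (a + n) := by
      unfold Sys.psi
      have e1 : a + 1 + n = a + (n + 1) := by omega
      have e2 : a + (n + 1) - 1 = a + n := by omega
      rw [e1, e2]
    rw [h1]
    have h2 := add_self (S.E (a + n))
    linear_combination (-1 : ZMod 2) * h2

theorem psi_eq (hB : SpecBAS) {N m m' : ℕ} (h : m % 2 ^ N = m' % 2 ^ N)
    (hm : ¬ 2 ^ (N - M) ∣ m) : S.psi m = S.psi m' := by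
  have hm0 : m ≠ 0 := by
    rintro rfl
    exact hm (dvd_zero _)
  obtain ⟨s, o, ho, rfl⟩ := Nat.exists_eq_two_pow_mul_odd hm0
  have hs : s < N - M := by
    by_contra hcon
    push Not at hcon
    exact hm (Dvd.dvd.mul_right (pow_dvd_pow 2 hcon) o)
  apply (hB M S).2.2.2.2.1 s
  · rw [pow_succ, Nat.mul_mod_mul_left, Nat.odd_iff.1 ho, mul_one]
  · have hd : 2 ^ (s + 1 + M) ∣ 2 ^ N := pow_dvd_pow 2 (by omega)
    rw [← Nat.mod_mod_of_dvd (2 ^ s * o) hd, h, Nat.mod_mod_of_dvd _ hd]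

theorem mod_eq {N m m' Q Q' : ℕ} (hQ : 2 ^ N ∣ Q) (hQ' : 2 ^ N ∣ Q') (h : m + Q' = m' + Q) :
    m % 2 ^ N = m' % 2 ^ N := by
  obtain ⟨a, rfl⟩ := hQ
  obtain ⟨b, rfl⟩ := hQ'
  have := congrArg (· % 2 ^ N) h
  simpa [Nat.add_mul_mod_self_left] using this

/-- the core of the argument -/
theorem core (hB : SpecBAS) (d N Q Q' q q' qp qp' : ℕ) (r1 r2 : ZMod 2) (hN : 2 * M + 3 ≤ N)
    (hdiv : ∀ z : ℤ, |z| < 2 ^ (M + 3) → ¬ (2 : ℤ) ^ (N - M) ∣ (d : ℤ) + z)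
    (e1 : S.E (d + q) + S.E q = r1) (e2 : S.E (d + qp) + S.E qp = r2)
    (e1' : S.E (d + q') + S.E q' = r1) (e2' : S.E (d + qp') + S.E qp' = r2)
    (h1 : q + Q' = q' + Q) (h2 : qp + Q' = qp' + Q) (h3 : q < Q) (h4 : Q ≤ qp)
    (h5 : Q ≤ q + 2 ^ (M + 3)) (h6 : qp < Q + 2 ^ (M + 3)) (hQ : 2 ^ N ∣ Q) (hQ' : 2 ^ N ∣ Q') :
    S.psi Q = S.psi Q' := by
  obtain ⟨D, rfl⟩ : ∃ D, qp = q + D := ⟨qp - q, by omega⟩
  obtain rfl : qp' = q' + D := by omega
  have hpw : 2 ^ (M + 3) ≤ 2 ^ (N - M) := Nat.pow_le_pow_right (by norm_num) (by omega)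
  have hQM : 2 ^ (N - M) ∣ Q := (pow_dvd_pow 2 (Nat.sub_le N M)).trans hQ
  -- the terms
  have key : ∀ i < D, |((q + 1 + i : ℕ) : ℤ) - Q| < 2 ^ (M + 3) := by
    intro i hi
    have a1 : ((Q : ℕ) : ℤ) ≤ q + 2 ^ (M + 3) := by exact_mod_cast h5
    have a2 : ((q + D : ℕ) : ℤ) < Q + 2 ^ (M + 3) := by exact_mod_cast h6
    rw [abs_lt]
    push_cast at a2 ⊢
    constructor <;> omega
  have hB1 : ∀ i ∈ range D, S.psi (d + q + 1 + i) = S.psi (d + q' + 1 + i) := by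
    intro i hi
    rw [mem_range] at hi
    apply psi_eq S hB (N := N)
    · exact mod_eq hQ hQ' (by omega)
    · intro hdv
      have hz := key i hi
      apply hdiv _ hz
      have h7 : ((2 : ℤ) ^ (N - M)) ∣ ((d + q + 1 + i : ℕ) : ℤ) := by exact_mod_cast hdv
      have h8 : ((2 : ℤ) ^ (N - M)) ∣ ((Q : ℕ) : ℤ) := by exact_mod_cast hQM
      have h9 : (d : ℤ) + (((q + 1 + i : ℕ) : ℤ) - Q) = ((d + q + 1 + i : ℕ) : ℤ) - Q := by
        push_cast
        ring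
      rw [h9]
      exact dvd_sub h7 h8
  have hA1 : ∀ i ∈ (range D).erase (Q - q - 1), S.psi (q + 1 + i) = S.psi (q' + 1 + i) := by
    intro i hi
    rw [mem_erase, mem_range] at hi
    apply psi_eq S hB (N := N)
    · exact mod_eq hQ hQ' (by omega)
    · intro hdv
      have hz := key i hi.2
      have h7 : ((2 : ℤ) ^ (N - M)) ∣ ((q + 1 + i : ℕ) : ℤ) := by exact_mod_cast hdv
      have h8 : ((2 : ℤ) ^ (N - M)) ∣ ((Q : ℕ) : ℤ) := by exact_mod_cast hQM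
      have h9 := dvd_sub h7 h8
      have h10 : ((q + 1 + i : ℕ) : ℤ) - Q ≠ 0 := by
        intro h0
        apply hi.1
        push_cast at h0
        omega
      have h11 := Int.le_of_dvd (abs_pos.2 h10) ((dvd_abs _ _).2 h9)
      have h12 : (2 : ℤ) ^ (M + 3) ≤ 2 ^ (N - M) := by exact_mod_cast hpw
      linarith
  have hi0 : Q - q - 1 ∈ range D := by
    rw [mem_range]
    omega
  have t1 := tele S q D
  have t2 := tele S (d + q) D
  have t1' := tele S q' D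
  have t2' := tele S (d + q') D
  rw [sum_congr rfl hB1] at t2
  rw [← add_sum_erase _ _ hi0, sum_congr rfl hA1] at t1
  rw [← add_sum_erase _ _ hi0] at t1'
  have a1 : q + 1 + (Q - q - 1) = Q := by omega
  have a2 : q' + 1 + (Q - q - 1) = Q' := by omega
  rw [a1] at t1
  rw [a2] at t1'
  have b1 : d + (q + D) = d + q + D := by omega
  have b2 : d + (q' + D) = d + q' + D := by omega
  rw [b1] at e2
  rw [b2] at e2'
  linear_combination (-1 : ZMod 2) * t1 + t1' + (-1 : ZMod 2) * t2 + t2' + e1 + e2 - e1' - e2'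

end CSTM

open CSTM in
theorem specCST (hB : SpecBAS) (hC : SpecCMP) : SpecCST := by
  intro M S d t N q1 q1' l l' hMt hd hN hdiv hq1 hq1' hc hc' he1 he2 hz
  have hz1 := hz l (by simp)
  have hz2 := hz (l + 1) (by simp)
  have hz3 := hz l' (by simp)
  have hz4 := hz (l' + 1) (by simp)
  have c1 := hC M S d t l hMt hz1.1 hz1.2
  have c2 := hC M S d t (l + 1) hMt hz2.1 hz2.2
  have c1' := hC M S d t l' hMt hz3.1 hz3.2
  have c2' := hC M S d t (l' + 1) hMt hz4.1 hz4.2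
  -- quotients
  have hpp : 2 ^ (t - M) * 2 ^ M = 2 ^ t := by rw [← pow_add, Nat.sub_add_cancel hMt]
  have hq : ∀ i, i * d / 2 ^ (t - M) / 2 ^ M = i * d / 2 ^ t := by
    intro i
    rw [Nat.div_div_eq_div_mul, hpp]
  set w := l * d / 2 ^ (t - M) with hw
  set wp := (l + 1) * d / 2 ^ (t - M) with hwp
  set w' := l' * d / 2 ^ (t - M) with hw'
  set wp' := (l' + 1) * d / 2 ^ (t - M) with hwp'
  set Q := 2 ^ N * q1 with hQ
  set Q' := 2 ^ N * q1' with hQ'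
  have hM0 : 0 < 2 ^ M := by positivity
  have ht0 : 0 < 2 ^ t := by positivity
  have m1 : w % 2 ^ M = w' % 2 ^ M := by
    have := congrArg (· % 2 ^ M) he1
    simpa [Nat.add_mul_mod_self_left] using this
  have m2 : wp % 2 ^ M = wp' % 2 ^ M := by
    have := congrArg (· % 2 ^ M) he2
    simpa [Nat.add_mul_mod_self_left] using this
  have d1 : w / 2 ^ M + Q' = w' / 2 ^ M + Q := by
    have := congrArg (· / 2 ^ M) he1
    simpa [Nat.add_mul_div_left _ _ hM0] using this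
  have d2 : wp / 2 ^ M + Q' = wp' / 2 ^ M + Q := by
    have := congrArg (· / 2 ^ M) he2
    simpa [Nat.add_mul_div_left _ _ hM0] using this
  have hQM : 2 ^ M ∣ Q := (pow_dvd_pow 2 (by omega)).trans (Dvd.intro _ rfl)
  have hQM' : 2 ^ M ∣ Q' := (pow_dvd_pow 2 (by omega)).trans (Dvd.intro _ rfl)
  have r1 : w / 2 ^ M % 2 ^ M = w' / 2 ^ M % 2 ^ M := mod_eq hQM hQM' d1
  have r2 : wp / 2 ^ M % 2 ^ M = wp' / 2 ^ M % 2 ^ M := mod_eq hQM hQM' d2
  have r3 : (d + w / 2 ^ M) % 2 ^ M = (d + w' / 2 ^ M) % 2 ^ M :=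
    mod_eq hQM hQM' (by omega)
  have r4 : (d + wp / 2 ^ M) % 2 ^ M = (d + wp' / 2 ^ M) % 2 ^ M :=
    mod_eq hQM hQM' (by omega)
  rw [← m1, ← r1, ← r3] at c1'
  rw [← m2, ← r2, ← r4] at c2'
  -- bounds
  have k1 : w / 2 ^ M = l * d / 2 ^ t := hq l
  have k2 : wp / 2 ^ M = (l + 1) * d / 2 ^ t := hq (l + 1)
  have hc1 : l * d < 2 ^ t * Q := hc.1
  have hc2 : 2 ^ t * Q ≤ (l + 1) * d := hc.2
  have hld : (l + 1) * d = l * d + d := by ring
  have hdp : d < 2 ^ t * 2 ^ (M + 3) := by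
    rw [← pow_add]
    have : t + (M + 3) = t + M + 3 := by omega
    rw [this]
    exact hd
  have b1 : w / 2 ^ M < Q := by
    rw [k1]
    exact Nat.div_lt_of_lt_mul hc1
  have b2 : Q ≤ wp / 2 ^ M := by
    rw [k2, Nat.le_div_iff_mul_le ht0, mul_comm]
    exact hc2
  have b3 : Q ≤ w / 2 ^ M + 2 ^ (M + 3) := by
    by_contra hcon
    push Not at hcon
    have h7 : l * d < 2 ^ t * (w / 2 ^ M + 1) := by
      rw [k1]
      exact Nat.lt_mul_div_succ _ ht0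
    have h8 : 2 ^ t * (w / 2 ^ M + 2 ^ (M + 3) + 1) ≤ 2 ^ t * Q :=
      Nat.mul_le_mul_left _ hcon
    have h9 : 2 ^ t * (w / 2 ^ M + 2 ^ (M + 3) + 1) =
        2 ^ t * (w / 2 ^ M + 1) + 2 ^ t * 2 ^ (M + 3) := by ring
    linarith
  have b4 : wp / 2 ^ M < Q + 2 ^ (M + 3) := by
    rw [k2]
    apply Nat.div_lt_of_lt_mul
    have h7 : 2 ^ t * (Q + 2 ^ (M + 3)) = 2 ^ t * Q + 2 ^ t * 2 ^ (M + 3) := by ring
    linarith
  have hmain := core S hB d N Q Q' (w / 2 ^ M) (w' / 2 ^ M) (wp / 2 ^ M) (wp' / 2 ^ M) _ _ hN hdiv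
    c1 c2 c1' c2' d1 d2 b1 b2 b3 b4 (Dvd.intro _ rfl) (Dvd.intro _ rfl)
  obtain ⟨y, hy⟩ := hq1
  obtain ⟨y', hy'⟩ := hq1'
  have f1 := (hB M S).2.2.2.1 N y (by omega)
  have f2 := (hB M S).2.2.2.1 N y' (by omega)
  rw [← hy] at f1
  rw [← hy'] at f2
  rw [← hQ] at f1
  rw [← hQ'] at f2
  have g1 : (q1 - 1) / 2 = y := by omega
  have g2 : (q1' - 1) / 2 = y' := by omega
  rw [g1, g2]
  rw [f1, f2] at hmain
  exact add_right_cancel hmain

end Pool.Agent.Lib.MP_6ec7bd_co.LT
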