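import Pool.Agent.Lib.MP_6ec7bd_co.LT.Spec

/-!
# LT/DIR: Dirichlet approximation with the power of two split off
-/

namespace Pool.Agent.Lib.MP_6ec7bd_co.LT

theorem specDIR : SpecDIR := by
  intro a d K hd hK
  obtain ⟨j, k, hk0, hkK, hjk⟩ := Real.exists_int_int_abs_mul_sub_le ((a : ℝ) / d) hK
  lift k to ℕ using hk0.le
  have hk0' : k ≠ 0 := by
    intro h
    simp [h] at hk0
  obtain ⟨c, Δ, hΔ, hkc⟩ := Nat.exists_eq_two_pow_mul_odd hk0'
  refine ⟨c, Δ, j, hΔ, ?_, ?_⟩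
  · rw [← hkc]
    exact_mod_cast hkK
  · rw [← hkc]
    have hd' : (0 : ℝ) < d := by exact_mod_cast hd
    have hK' : (0 : ℝ) < K := by exact_mod_cast hK
    have h1 : |((k : ℝ)) * a - j * d| ≤ 1 / ((K : ℝ) + 1) * d := by
      have h2 : (k : ℝ) * a - j * d = ((k : ℝ) * (a / d) - j) * d := by
        field_simp
      rw [h2, abs_mul, abs_of_pos hd']
      refine mul_le_mul_of_nonneg_right ?_ hd'.le
      exact_mod_cast hjk
    have h3 : |((k : ℝ)) * a - j * d| * K < d := by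
      have h4 : 1 / ((K : ℝ) + 1) * d * K < d := by
        rw [div_mul_eq_mul_div, div_mul_eq_mul_div, div_lt_iff₀ (by positivity)]
        nlinarith
      exact lt_of_le_of_lt (mul_le_mul_of_nonneg_right h1 hK'.le) h4
    have h5 : ((|((k : ℕ) : ℤ) * a - j * d| * K : ℤ) : ℝ) < ((d : ℤ) : ℝ) := by
      push_cast
      exact h3
    exact_mod_cast h5

end Pool.Agent.Lib.MP_6ec7bd_co.LT
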