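import Pool.Agent.Lib.MP_6ec7bd_co.LT.Spec

/-!
Module EQU: the multiples of `2^k + 1`.
-/

namespace Pool.Agent.Lib.MP_6ec7bd_co.LT

open Finset

namespace EQUM

/-- the value at `l (2^k + 1)` for `l < 2^k` -/
lemma E_mul {M : ℕ} (S : Sys M) {k l : ℕ} (hk : M ≤ k) (hl : l < 2 ^ k) :
    S.E (l * (2 ^ k + 1)) = S.J (l % 2 ^ M) (l / 2 ^ (k - M)) := by
  have h1 : l * (2 ^ k + 1) = 2 ^ k * l + l := by ring
  rw [h1, S.split k l l hl]
  have h2 : 2 ^ M * l / 2 ^ k = l / 2 ^ (k - M) := by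
    have h3 : (2 : ℕ) ^ k = 2 ^ M * 2 ^ (k - M) := by
      rw [← pow_add, Nat.add_sub_cancel' hk]
    rw [h3, Nat.mul_div_mul_left _ _ (by positivity)]
  have h4 : S.E l + S.E l = 0 := CharTwo.add_self_eq_zero _
  rw [h2, h4, zero_add]

/-- quotient and residue of `x 2^m + r` -/
lemma quot_res {m M x r : ℕ} (hM : M ≤ m) (hr : r < 2 ^ M) :
    (x * 2 ^ m + r) / 2 ^ m = x ∧ (x * 2 ^ m + r) % 2 ^ M = r := by
  have hle : (2 : ℕ) ^ M ≤ 2 ^ m := Nat.pow_le_pow_right (by norm_num) hM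
  constructor
  · rw [add_comm, Nat.add_mul_div_right _ _ (by positivity), Nat.div_eq_of_lt (by omega), zero_add]
  · have h1 : (2 : ℕ) ^ m = 2 ^ M * 2 ^ (m - M) := by
      rw [← pow_add, Nat.add_sub_cancel' hM]
    have h2 : x * 2 ^ m + r = r + 2 ^ M * (x * 2 ^ (m - M)) := by
      rw [h1]; ring
    rw [h2, Nat.add_mul_mod_self_left, Nat.mod_eq_of_lt hr]

end EQUM

theorem specEQU (_hBAS : SpecBAS) : SpecEQU := by
  intro M S xm ym hL k hk
  obtain ⟨hx, hy, h1, h2, h3⟩ := hL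
  have hMk : M ≤ k := by omega
  have hkM : M ≤ k - M := by omega
  have hle : (2 : ℕ) ^ M ≤ 2 ^ (k - M) := Nat.pow_le_pow_right (by norm_num) hkM
  have hpow : (2 : ℕ) ^ k = 2 ^ M * 2 ^ (k - M) := by
    rw [← pow_add, Nat.add_sub_cancel' hMk]
  have hbig : (xm + 1) * 2 ^ (k - M) ≤ 2 ^ k := by
    rw [hpow]
    exact Nat.mul_le_mul_right _ hx
  have hexp : (xm + 1) * 2 ^ (k - M) = xm * 2 ^ (k - M) + 2 ^ (k - M) := by ring
  constructor
  · intro l hl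
    have hl1 : l < xm * 2 ^ (k - M) + ym := by
      have e : xm * 2 ^ k + ym * 2 ^ M = 2 ^ M * (xm * 2 ^ (k - M) + ym) := by
        rw [hpow]; ring
      rw [e] at hl
      exact Nat.lt_of_mul_lt_mul_left hl
    have hlk : l < 2 ^ k := by omega
    rw [EQUM.E_mul S hMk hlk]
    have hmod : l % 2 ^ M < 2 ^ M := Nat.mod_lt _ (by positivity)
    rcases Nat.lt_or_ge (l / 2 ^ (k - M)) xm with hq | hq
    · exact h2 _ hq _ hmod
    · have hlow : xm * 2 ^ (k - M) ≤ l :=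
        (Nat.le_div_iff_mul_le (Nat.two_pow_pos (k - M))).mp hq
      obtain ⟨r, rfl⟩ := Nat.exists_eq_add_of_le hlow
      have hr : r < ym := by omega
      obtain ⟨e1, e2⟩ := EQUM.quot_res (x := xm) hkM (lt_trans hr hy)
      rw [e1, e2]
      exact h3 r hr
  · have hlk : xm * 2 ^ (k - M) + ym < 2 ^ k := by omega
    obtain ⟨e1, e2⟩ := EQUM.quot_res (x := xm) hkM hy
    rw [EQUM.E_mul S hMk hlk, e1, e2]
    exact h1

end Pool.Agent.Lib.MP_6ec7bd_co.LT
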