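import Pool.Agent.Lib.MP_6ec7bd_co.LT.Spec
import Pool.Agent.Lib.MP_6ec7bd_co.LT.BAS

/-!
# LT, module FIN: final assembly
-/

namespace Pool.Agent.Lib.MP_6ec7bd_co.LT

open Finset

namespace FINM

lemma z2 (a : ZMod 2) : a = 0 ∨ a = 1 := by
  revert a; decide

/-- The inequality in the natural numbers. -/
lemma key (v x y : List Bool) (d M j : ℕ) (hL : v.length = M + 1) (hj : trail v = j) :
    C v x * d + B v x y =
      ((val x : ℚ) * d + val y * 2 ^ (M + j) - 2 ^ j * val x) / 2 ^ (M + j) := by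
  unfold B C
  rw [hL, hj, Nat.add_sub_cancel]
  field_simp
  ring

lemma bound_le (v x y : List Bool) (d M j A0 : ℕ) (hL : v.length = M + 1) (hj : trail v = j) :
    ((A0 : ℚ) ≤ C v x * d + B v x y ↔
      2 ^ (M + j) * A0 + val x * 2 ^ j ≤ val x * d + val y * 2 ^ (M + j)) := by
  rw [key v x y d M j hL hj, le_div_iff₀ (by positivity)]
  constructor
  · intro h
    have : ((2 ^ (M + j) * A0 + val x * 2 ^ j : ℕ) : ℚ) ≤
        ((val x * d + val y * 2 ^ (M + j) : ℕ) : ℚ) := by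
      push_cast
      linarith
    exact_mod_cast this
  · intro h
    have : ((2 ^ (M + j) * A0 + val x * 2 ^ j : ℕ) : ℚ) ≤
        ((val x * d + val y * 2 ^ (M + j) : ℕ) : ℚ) := by
      exact_mod_cast h
    push_cast at this
    linarith

lemma bound_eq (v x y : List Bool) (d M j A0 : ℕ) (hL : v.length = M + 1) (hj : trail v = j) :
    ((A0 : ℚ) = C v x * d + B v x y ↔
      2 ^ (M + j) * A0 + val x * 2 ^ j = val x * d + val y * 2 ^ (M + j)) := by
  rw [key v x y d M j hL hj, eq_div_iff (by positivity)]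
  constructor
  · intro h
    have : ((2 ^ (M + j) * A0 + val x * 2 ^ j : ℕ) : ℚ) =
        ((val x * d + val y * 2 ^ (M + j) : ℕ) : ℚ) := by
      push_cast
      linarith
    exact_mod_cast this
  · intro h
    have : ((2 ^ (M + j) * A0 + val x * 2 ^ j : ℕ) : ℚ) =
        ((val x * d + val y * 2 ^ (M + j) : ℕ) : ℚ) := by
      exact_mod_cast h
    push_cast at this
    linarith

lemma A_le (v : List Bool) (d l : ℕ) (h1 : 1 ≤ l) (h : Odd (e v (l * d))) : A v d ≤ l :=
  Nat.sInf_le ⟨h1, h⟩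

lemma A_eq (v : List Bool) (d l : ℕ) (h1 : 1 ≤ l) (h : Odd (e v (l * d)))
    (hm : ∀ l', l' < l → ¬ Odd (e v (l' * d))) : A v d = l := by
  apply le_antisymm (A_le v d l h1 h)
  unfold A
  refine le_csInf ⟨l, h1, h⟩ ?_
  rintro b ⟨_, hb⟩
  by_contra hlt
  exact hm b (not_le.1 hlt) hb

lemma win_two (L V n : ℕ) (hV : 0 < V) (hn : 0 < n) :
    win L V (2 * n) = win L V n + if 2 * n % 2 ^ L = V then 1 else 0 := by
  unfold win
  rw [Finset.card_filter, Finset.card_filter]
  obtain ⟨m, hm⟩ : ∃ m, 2 * n = m + 1 := ⟨2 * n - 1, by omega⟩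
  have h0 : ∀ i, 2 * n / 2 ^ (i + 1) = n / 2 ^ i := by
    intro i
    rw [pow_succ, mul_comm (2 ^ i) 2, Nat.mul_div_mul_left _ _ (by norm_num)]
  have h1 : ∑ i ∈ range (2 * n), (if 2 * n / 2 ^ i % 2 ^ L = V then 1 else 0) =
      ∑ i ∈ range m, (if n / 2 ^ i % 2 ^ L = V then 1 else 0) +
        if 2 * n % 2 ^ L = V then 1 else 0 := by
    have h2 : range (2 * n) = range (m + 1) := by rw [hm]
    rw [h2, Finset.sum_range_succ']
    simp only [h0, pow_zero, Nat.div_one]
  rw [h1]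
  congr 1
  symm
  apply Finset.sum_subset
  · intro i hi
    rw [mem_range] at hi ⊢
    omega
  · intro i _ hi
    rw [mem_range, not_lt] at hi
    have : n < 2 ^ i := lt_of_le_of_lt hi Nat.lt_two_pow_self
    rw [Nat.div_eq_of_lt this, Nat.zero_mod, if_neg (by omega)]

lemma solve (m t c : ℕ) (hm : Odd m) : ∃ u, 1 ≤ u ∧ u ≤ 2 ^ t ∧ u * m ≡ c [MOD 2 ^ t] := by
  have hc : Nat.Coprime m (2 ^ t) := (Nat.coprime_two_right.2 hm).pow_right t
  have : NeZero (2 ^ t) := ⟨by positivity⟩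
  set u0 : ZMod (2 ^ t) := c * (m : ZMod (2 ^ t))⁻¹ with hu0
  have hu : u0 * m = c := by
    rw [hu0, mul_assoc, mul_comm _ (m : ZMod (2 ^ t)), ZMod.coe_mul_inv_eq_one m hc, mul_one]
  have hlt := ZMod.val_lt u0
  by_cases h : u0.val = 0
  · refine ⟨2 ^ t, Nat.one_le_two_pow, le_rfl, ?_⟩
    rw [← ZMod.natCast_eq_natCast_iff]
    rw [ZMod.val_eq_zero] at h
    rw [h, zero_mul] at hu
    push_cast
    rw [← hu]
    have : ((2 ^ t : ℕ) : ZMod (2 ^ t)) = 0 := ZMod.natCast_self _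
    push_cast at this
    rw [this, zero_mul]
  · refine ⟨u0.val, Nat.one_le_iff_ne_zero.2 h, hlt.le, ?_⟩
    rw [← ZMod.natCast_eq_natCast_iff]
    push_cast
    rw [ZMod.natCast_zmod_val, hu]

/-- `v` is not a problem if `d` is divisible by a smaller power of two than `val v`. -/
lemma small (L V a j o d' : ℕ) (haj : a < j) (hjL : j < L) (hd : Odd d')
    (hV : V = 2 ^ j * o) (ho : Odd o) (hVL : V < 2 ^ L) :
    ∃ u, 1 ≤ u ∧ u ≤ 2 ^ L ∧ Odd (win L V (u * (2 ^ a * d'))) := by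
  obtain ⟨t, rfl⟩ : ∃ t, L = a + 1 + t := ⟨L - (a + 1), by omega⟩
  obtain ⟨c, rfl⟩ : ∃ c, j = a + 1 + c := ⟨j - (a + 1), by omega⟩
  obtain ⟨u, hu1, hu2, hu3⟩ := solve d' t (2 ^ c * o) hd
  have ho1 : 0 < o := ho.pos
  have hd1 : 0 < d' := hd.pos
  have hVpos : 0 < V := by rw [hV]; positivity
  have hmod : 2 * (u * (2 ^ a * d')) % 2 ^ (a + 1 + t) = V := by
    have h1 : 2 ^ (a + 1) * (u * d') ≡ 2 ^ (a + 1) * (2 ^ c * o) [MOD 2 ^ (a + 1) * 2 ^ t] :=
      Nat.ModEq.mul_left' _ hu3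
    rw [← pow_add] at h1
    have h2 : 2 * (u * (2 ^ a * d')) = 2 ^ (a + 1) * (u * d') := by ring
    have h3 : V = 2 ^ (a + 1) * (2 ^ c * o) := by rw [hV]; ring
    rw [h2]
    have h4 := h1
    unfold Nat.ModEq at h4
    rw [h4, ← h3, Nat.mod_eq_of_lt hVL]
  have hw := win_two (a + 1 + t) V (u * (2 ^ a * d')) hVpos (by positivity)
  rw [if_pos hmod] at hw
  have hpow : 2 ^ (t + 1) ≤ 2 ^ (a + 1 + t) := Nat.pow_le_pow_right (by norm_num) (by omega)
  rw [pow_succ] at hpow
  by_cases h : Odd (win (a + 1 + t) V (u * (2 ^ a * d')))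
  · exact ⟨u, hu1, by omega, h⟩
  · refine ⟨2 * u, by omega, by omega, ?_⟩
    rw [mul_assoc, hw]
    rw [Nat.not_odd_iff_even] at h
    exact h.add_one

variable {M : ℕ} (S : Sys M)

/-- Existence of the least pair of a system with SumOne. -/
lemma exists_least (h1 : S.SumOne) : ∃ xm ym, S.Least xm ym := by
  classical
  have hex : ∃ x, x < 2 ^ M ∧ ∃ y, y < 2 ^ M ∧ S.J y x = 1 := by
    by_contra hno
    push Not at hno
    have hJ : ∀ x < 2 ^ M, ∀ y < 2 ^ M, S.J y x = 0 := by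
      intro x hx y hy
      rcases z2 (S.J y x) with h | h
      · exact h
      · exact absurd h (hno x hx y hy)
    have hM := S.hM
    have hp : 2 ^ (M - 1) < 2 ^ M := Nat.pow_lt_pow_right (by norm_num) (by omega)
    have hb : ∀ y, S.beta y = S.E 1 := by
      intro y
      unfold Sys.beta
      rw [hJ _ hp _ (Nat.mod_lt _ (by positivity)),
        hJ _ ((Nat.sub_le _ _).trans_lt hp) _ (Nat.mod_lt _ (by positivity))]
      simp
    unfold Sys.SumOne at h1
    rw [Finset.sum_congr rfl (fun y _ => hb y), Finset.sum_const, card_range] at h1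
    have h2 : (2 : ℕ) ^ M = 2 * 2 ^ (M - 1) := by
      rw [← pow_succ']
      congr 1
      omega
    rw [h2, mul_smul, two_nsmul, BASM.zz] at h1
    exact zero_ne_one h1
  have hx := Nat.find_spec hex
  have hy := hx.2
  refine ⟨Nat.find hex, Nat.find hy, hx.1, (Nat.find_spec hy).1, (Nat.find_spec hy).2, ?_, ?_⟩
  · intro x hlt y hy'
    rcases z2 (S.J y x) with h | h
    · exact h
    · exact absurd ⟨hlt.trans hx.1, y, hy', h⟩ (Nat.find_min hex hlt)
  · intro y hlt
    rcases z2 (S.J y (Nat.find hex)) with h | h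
    · exact h
    · exact absurd ⟨hlt.trans (Nat.find_spec hy).1, h⟩ (Nat.find_min hy hlt)

lemma least_pos {xm ym : ℕ} (h : S.Least xm ym) : 1 ≤ xm ∧ 1 ≤ ym := by
  obtain ⟨hx, hy, hJ, -, -⟩ := h
  constructor
  · rcases Nat.eq_zero_or_pos xm with h0 | h0
    · rw [h0, BASM.J_right S _ hy] at hJ
      exact absurd hJ zero_ne_one
    · exact h0
  · rcases Nat.eq_zero_or_pos ym with h0 | h0
    · rw [h0, BASM.J_left S _ hx] at hJ
      exact absurd hJ zero_ne_one
    · exact h0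

/-- The system of a pattern, with `|v| = M + 1` inserted. -/
lemma sys' (hSYS : SpecSYS) (v : List Bool) (hv : v ∈ V) (M : ℕ) (hL : v.length = M + 1) :
    ∃ S : Sys M, (∀ n, S.E n = (win (M + 1) (val v) (2 ^ trail v * n) : ℕ)) ∧
      (∀ i n, trail v ≤ i → S.E n = (win (M + 1) (val v) (2 ^ i * n) : ℕ)) ∧
      (∀ y x, y < 2 ^ M → x < 2 ^ M → S.J y x =
        ((cr M (M + 1) (val v) (2 ^ M * y + x) + cr M (M + 1) (val v) (2 ^ M * y) +
          cr M (M + 1) (val v) x : ℕ) : ZMod 2)) := by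
  have h := hSYS v hv
  rw [hL] at h
  exact h

lemma val_inj (hOCC : SpecOCC) (x y : List Bool) (h : x.length = y.length)
    (hv : val x = val y) : x = y := by
  rcases lt_trichotomy x y with h1 | h1 | h1
  · have := (hOCC.2.2.1 x y h).1 h1
    omega
  · exact h1
  · have := (hOCC.2.2.1 y x h.symm).1 h1
    omega

section pairs

variable (hOCC : SpecOCC) (hPAR : SpecPAR) (v : List Bool) (hv : v ∈ V) (hL : v.length = M + 1)
  (hJ : ∀ y x, y < 2 ^ M → x < 2 ^ M → S.J y x =
        ((cr M (M + 1) (val v) (2 ^ M * y + x) + cr M (M + 1) (val v) (2 ^ M * y) +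
          cr M (M + 1) (val v) x : ℕ) : ZMod 2))

include hOCC hPAR hv hL hJ

lemma adm (x y : List Bool) : Admissible v x y ↔
    x.length = M ∧ y.length = M ∧ S.J (val y) (val x) = 1 := by
  rw [hPAR v hv, hL, Nat.add_sub_cancel]
  constructor
  · rintro ⟨h1, h2, h3⟩
    have hx := hOCC.2.1 x
    have hy := hOCC.2.1 y
    rw [h1] at hx
    rw [h2] at hy
    exact ⟨h1, h2, by rw [hJ _ _ hy hx]; exact h3⟩
  · rintro ⟨h1, h2, h3⟩
    have hx := hOCC.2.1 x
    have hy := hOCC.2.1 y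
    rw [h1] at hx
    rw [h2] at hy
    exact ⟨h1, h2, by rw [hJ _ _ hy hx] at h3; exact h3⟩

lemma pair_to_least (x y : List Bool) (h : IsLeastPair v x y) : S.Least (val x) (val y) := by
  obtain ⟨h1, h2⟩ := h
  rw [adm S hOCC hPAR v hv hL hJ] at h1
  obtain ⟨hx, hy, hJ1⟩ := h1
  have hx' := hOCC.2.1 x
  have hy' := hOCC.2.1 y
  rw [hx] at hx'
  rw [hy] at hy'
  refine ⟨hx', hy', hJ1, ?_, ?_⟩
  · intro a ha b hb
    rcases z2 (S.J b a) with h | h
    · exact h
    · exfalso
      obtain ⟨wa, hwa1, hwa2⟩ := hOCC.2.2.2.1 M a (ha.trans hx')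
      obtain ⟨wb, hwb1, hwb2⟩ := hOCC.2.2.2.1 M b hb
      have h3 := h2 wa wb ((adm S hOCC hPAR v hv hL hJ wa wb).2
        ⟨hwa1, hwb1, by rw [hwa2, hwb2]; exact h⟩)
      rcases h3 with h3 | ⟨h3, -⟩
      · have := (hOCC.2.2.1 x wa (by rw [hx, hwa1])).1 h3
        omega
      · rw [h3] at ha
        omega
  · intro b hb
    rcases z2 (S.J b (val x)) with h | h
    · exact h
    · exfalso
      obtain ⟨wb, hwb1, hwb2⟩ := hOCC.2.2.2.1 M b (hb.trans hy')
      have h3 := h2 x wb ((adm S hOCC hPAR v hv hL hJ x wb).2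
        ⟨hx, hwb1, by rw [hwb2]; exact h⟩)
      rcases h3 with h3 | ⟨-, h3⟩
      · have := (hOCC.2.2.1 x x rfl).1 h3
        omega
      · rcases h3 with h3 | h3
        · have := (hOCC.2.2.1 y wb (by rw [hy, hwb1])).1 h3
          omega
        · rw [h3] at hb
          omega

lemma least_to_pair {xm ym : ℕ} (h : S.Least xm ym) : ∃ x y, IsLeastPair v x y := by
  obtain ⟨hx, hy, hJ1, hX, hY⟩ := h
  obtain ⟨x, hx1, hx2⟩ := hOCC.2.2.2.1 M xm hx
  obtain ⟨y, hy1, hy2⟩ := hOCC.2.2.2.1 M ym hy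
  refine ⟨x, y, (adm S hOCC hPAR v hv hL hJ x y).2 ⟨hx1, hy1, by rw [hx2, hy2]; exact hJ1⟩, ?_⟩
  intro x' y' h'
  rw [adm S hOCC hPAR v hv hL hJ] at h'
  obtain ⟨hx', hy', hJ'⟩ := h'
  have hx'' := hOCC.2.1 x'
  have hy'' := hOCC.2.1 y'
  rw [hx'] at hx''
  rw [hy'] at hy''
  rcases lt_trichotomy (val x') xm with h1 | h1 | h1
  · rw [hX _ h1 _ hy''] at hJ'
    exact absurd hJ' zero_ne_one
  · right
    refine ⟨val_inj hOCC x x' (by rw [hx1, hx']) (by rw [hx2, h1]), ?_⟩
    rcases lt_trichotomy (val y') ym with h2 | h2 | h2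
    · rw [h1, hY _ h2] at hJ'
      exact absurd hJ' zero_ne_one
    · right
      exact val_inj hOCC y y' (by rw [hy1, hy']) (by rw [hy2, h2])
    · left
      exact (hOCC.2.2.1 y y' (by rw [hy1, hy'])).2 (by rw [hy2]; exact h2)
  · left
    exact (hOCC.2.2.1 x x' (by rw [hx1, hx'])).2 (by rw [hx2]; exact h1)

end pairs

/-- For `M = 1` the pattern is `01` or `10`. -/
lemma E_one (v : List Bool) (hv : v ∈ V) (hne : v ≠ [true, true]) (S : Sys 1)
    (hL : v.length = 2)
    (hE : ∀ n, S.E n = (win 2 (val v) (2 ^ trail v * n) : ℕ)) : S.E 1 = 1 := by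
  rw [hE 1]
  obtain ⟨a, b, rfl⟩ : ∃ a b, v = [a, b] := by
    match v, hL with
    | [a, b], _ => exact ⟨a, b, rfl⟩
  cases a <;> cases b
  · exact absurd hv.2 (by simp)
  · decide
  · decide
  · exact absurd rfl hne

lemma two_adic_aux (a b m n : ℕ) (hm : Odd m) (hab : a < b) (h : 2 ^ a * m = 2 ^ b * n) :
    False := by
  obtain ⟨c, rfl⟩ : ∃ c, b = a + c + 1 := ⟨b - a - 1, by omega⟩
  have h1 : m = 2 * (2 ^ c * n) := by
    apply Nat.eq_of_mul_eq_mul_left (show 0 < 2 ^ a by positivity)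
    rw [h]
    ring
  rw [h1] at hm
  exact (Nat.not_odd_iff_even.2 (even_two_mul _)) hm

lemma two_adic (a b m n : ℕ) (hm : Odd m) (hn : Odd n) (h : 2 ^ a * m = 2 ^ b * n) :
    a = b ∧ m = n := by
  rcases lt_trichotomy a b with h1 | h1 | h1
  · exact (two_adic_aux a b m n hm h1 h).elim
  · subst h1
    exact ⟨rfl, Nat.eq_of_mul_eq_mul_left (by positivity) h⟩
  · exact (two_adic_aux b a n m hn h1 h.symm).elim

lemma form_unique (a j d' k : ℕ) (hd : Odd d') (hk : 1 ≤ k)
    (h : 2 ^ a * d' = 2 ^ j * (2 ^ k + 1)) : a = j ∧ d' = 2 ^ k + 1 := by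
  apply two_adic a j d' (2 ^ k + 1) hd _ h
  apply Even.add_one
  exact (Nat.even_pow.2 ⟨even_two, by omega⟩)

end FINM

theorem specFIN (hOCC : SpecOCC) (hWIN : SpecWIN) (hSYS : SpecSYS) (hSUM : SpecSUM)
    (hPAR : SpecPAR) (hODD : SpecODD) (hEQU : SpecEQU) (hBND : SpecBND) : SpecFIN := by
  intro v hv hne
  obtain ⟨M, hL⟩ : ∃ M, v.length = M + 1 := ⟨v.length - 1, by have := hv.1; omega⟩
  obtain ⟨S, hE1, hE2, hJ⟩ := FINM.sys' hSYS v hv M hL
  have hVlt : val v < 2 ^ (M + 1) := hL ▸ hOCC.2.1 v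
  have hsum : S.SumOne := hSUM M S (val v) hVlt hJ
  have hM : 1 ≤ M := S.hM
  obtain ⟨xm0, ym0, h0⟩ := FINM.exists_least S hsum
  refine ⟨FINM.least_to_pair S hOCC hPAR v hv hL hJ h0, ?_⟩
  intro x y hxy d hd
  have hleast := FINM.pair_to_least S hOCC hPAR v hv hL hJ x y hxy
  obtain ⟨hx1, hy1⟩ := FINM.least_pos S hleast
  have hone : M = 1 → S.E 1 = 1 := by
    intro h
    subst h
    exact FINM.E_one v hv hne S hL hE1
  obtain ⟨htr, hle, o, ho, hvo⟩ := hOCC.2.2.2.2.2.1 v hv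
  generalize hj : trail v = j at *
  have hjM : j ≤ M := by omega
  have hd2 : 2 ^ (24 * (M + 1)) ≤ d := by
    have h := hd
    simp only [hL] at h
    exact h
  obtain ⟨a, d', hd', hdd⟩ := Nat.exists_eq_two_pow_mul_odd
    (n := d) (by have : 0 < 2 ^ (24 * (M + 1)) := by positivity
                 omega)
  have hd'1 : 1 ≤ d' := hd'.pos
  have hodd : ∀ n, Odd (e v n) ↔ ((win (M + 1) (val v) n : ℕ) : ZMod 2) = 1 := by
    intro n
    rw [hWIN v hv n, hL, ZMod.natCast_eq_one_iff_odd]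
  have hstrict : ∀ A0, A v d ≤ A0 →
      2 ^ (M + j) * A0 + val x * 2 ^ j < val x * d + val y * 2 ^ (M + j) →
      (¬ ∃ k, 2 * v.length - 2 ≤ k ∧ d = 2 ^ j * (2 ^ k + 1)) →
      ((A v d : ℚ) ≤ C v x * d + B v x y ∧ ((A v d : ℚ) = C v x * d + B v x y ↔
        ∃ k, 2 * v.length - 2 ≤ k ∧ d = 2 ^ j * (2 ^ k + 1))) := by
    intro A0 hA h hno
    have hA' : 2 ^ (M + j) * A v d ≤ 2 ^ (M + j) * A0 := Nat.mul_le_mul_left _ hA
    refine ⟨(FINM.bound_le v x y d M j (A v d) hL hj).2 (by omega), ?_⟩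
    rw [FINM.bound_eq v x y d M j (A v d) hL hj]
    constructor
    · intro h2
      omega
    · intro h2
      exact absurd h2 hno
  have hp1 : 1 ≤ 2 ^ j := Nat.one_le_two_pow
  have hyp : 1 ≤ val y * 2 ^ (M + j) := Nat.mul_pos hy1 (by positivity)
  rcases Nat.lt_or_ge a j with haj | haj
  · -- few factors two
    obtain ⟨u, hu1, hu2, hu3⟩ := FINM.small (M + 1) (val v) a j o d' haj (by omega) hd' hvo ho hVlt
    apply hstrict (2 ^ (M + 1))
    · refine (FINM.A_le v d u hu1 ?_).trans hu2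
      rw [hodd, ZMod.natCast_eq_one_iff_odd, hdd]
      exact hu3
    · have h1 : 2 ^ (M + j) * 2 ^ (M + 1) + 2 ^ j ≤ d := by
        refine le_trans ?_ hd2
        have h2 : 2 ^ (M + j) * 2 ^ (M + 1) ≤ 2 ^ (3 * M + 1) := by
          rw [← pow_add]
          exact Nat.pow_le_pow_right (by norm_num) (by omega)
        have h3 : 2 ^ j ≤ 2 ^ (3 * M + 1) := Nat.pow_le_pow_right (by norm_num) (by omega)
        have h4 : 2 ^ (3 * M + 1) + 2 ^ (3 * M + 1) = 2 ^ (3 * M + 2) := by ring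
        have h5 : 2 ^ (3 * M + 2) ≤ 2 ^ (24 * (M + 1)) :=
          Nat.pow_le_pow_right (by norm_num) (by omega)
        omega
      have h2 : val x * (2 ^ (M + j) * 2 ^ (M + 1) + 2 ^ j) ≤ val x * d :=
        Nat.mul_le_mul_left _ h1
      have h3 : 1 * (2 ^ (M + j) * 2 ^ (M + 1)) ≤ val x * (2 ^ (M + j) * 2 ^ (M + 1)) :=
        Nat.mul_le_mul_right _ hx1
      rw [mul_add] at h2
      omega
    · rintro ⟨k, hk, hdk⟩
      have := FINM.form_unique a j d' k hd' (by omega) (by rw [← hdd, hdk])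
      omega
  · have hodd' : ∀ l, Odd (e v (l * d)) ↔ S.E (l * d') = 1 := by
      intro l
      rw [hodd, hdd, hE2 a (l * d') haj]
      have : l * (2 ^ a * d') = 2 ^ a * (l * d') := by ring
      rw [this]
    rcases Nat.lt_or_ge (a - j) (3 * M + 3) with hb | hb
    · have hbig : 2 ^ (15 * M + 25) ≤ d' := by
        by_contra hlt
        push Not at hlt
        have h1 : 2 ^ a * d' < 2 ^ a * 2 ^ (15 * M + 25) :=
          Nat.mul_lt_mul_of_pos_left hlt (by positivity)
        rw [← hdd, ← pow_add] at h1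
        have h2 : 2 ^ (a + (15 * M + 25)) ≤ 2 ^ (24 * (M + 1)) :=
          Nat.pow_le_pow_right (by norm_num) (by omega)
        omega
      have haa : 2 ^ j ≤ 2 ^ a := Nat.pow_le_pow_right (by norm_num) haj
      rcases hODD M S _ _ hsum hone hleast d' hd' hbig with ⟨l, hl1, hl2, hl3⟩ | ⟨k, hk, hdk⟩
      · apply hstrict l
        · exact FINM.A_le v d l hl1 ((hodd' l).2 hl3)
        · obtain ⟨D, rfl⟩ : ∃ D, d' = D + 1 := ⟨d' - 1, by omega⟩
          rw [Nat.add_sub_cancel] at hl2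
          have h1 : 2 ^ j * (2 ^ M * l) < 2 ^ j * (val x * D + val y * 2 ^ M) :=
            Nat.mul_lt_mul_of_pos_left hl2 (by positivity)
          have h2 : val x * (2 ^ j * (D + 1)) ≤ val x * (2 ^ a * (D + 1)) :=
            Nat.mul_le_mul_left _ (Nat.mul_le_mul_right _ haa)
          rw [← hdd] at h2
          have h3 : 2 ^ (M + j) * l + val x * 2 ^ j = 2 ^ j * (2 ^ M * l) + val x * 2 ^ j := by
            ring
          have h4 : 2 ^ j * (val x * D + val y * 2 ^ M) + val x * 2 ^ j =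
            val x * (2 ^ j * (D + 1)) + val y * 2 ^ (M + j) := by ring
          omega
        · rintro ⟨k, hk, hdk⟩
          obtain ⟨-, h2⟩ := FINM.form_unique a j d' k hd' (by omega) (by rw [← hdd, hdk])
          have h3 := (hEQU M S _ _ hleast k (by omega)).1 l
            (by rw [h2, Nat.add_sub_cancel] at hl2; exact hl2)
          rw [h2, h3] at hl3
          exact absurd hl3 zero_ne_one
      · obtain ⟨he1, he2⟩ := hEQU M S _ _ hleast k hk
        have hkk : 2 ^ M * (val x * 2 ^ (k - M) + val y) = val x * 2 ^ k + val y * 2 ^ M := by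
          have : 2 ^ k = 2 ^ M * 2 ^ (k - M) := by
            rw [← pow_add]
            congr 1
            omega
          rw [this]
          ring
        have hA : A v d = val x * 2 ^ (k - M) + val y := by
          apply FINM.A_eq
          · omega
          · rw [hodd', hdk]
            exact he2
          · intro l' hl' h
            rw [hodd', hdk, he1 l'] at h
            · exact absurd h zero_ne_one
            · rw [← hkk]
              exact Nat.mul_lt_mul_of_pos_left hl' (by positivity)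
        have hval : 2 ^ (M + j) * A v d + val x * 2 ^ j =
            val x * (2 ^ j * d') + val y * 2 ^ (M + j) := by
          have h1 : 2 ^ (M + j) * A v d = 2 ^ j * (2 ^ M * (val x * 2 ^ (k - M) + val y)) := by
            rw [hA]
            ring
          rw [h1, hkk, hdk]
          ring
        have h2 : val x * (2 ^ j * d') ≤ val x * d := by
          rw [hdd]
          exact Nat.mul_le_mul_left _ (Nat.mul_le_mul_right _ haa)
        refine ⟨(FINM.bound_le v x y d M j (A v d) hL hj).2 (by omega), ?_⟩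
        rw [FINM.bound_eq v x y d M j (A v d) hL hj]
        constructor
        · intro h
          refine ⟨k, by omega, ?_⟩
          have h3 : val x * (2 ^ j * d') = val x * d := by omega
          have h4 := Nat.eq_of_mul_eq_mul_left hx1 h3
          rw [← h4, hdk]
        · rintro ⟨k', hk', hdk'⟩
          obtain ⟨h3, -⟩ := FINM.form_unique a j d' k' hd' (by omega) (by rw [← hdd, hdk'])
          rw [hval, hdd, h3]
    · obtain ⟨l, hl1, hl2, hl3⟩ := hBND M S _ _ hleast d' hd'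
      apply hstrict l
      · exact FINM.A_le v d l hl1 ((hodd' l).2 hl3)
      · obtain ⟨c, rfl⟩ : ∃ c, a = j + (3 * M + 3) + c := ⟨a - j - (3 * M + 3), by omega⟩
        have h1 : 2 ^ (M + j) * l ≤ 2 ^ (M + j) * (2 ^ (2 * M + 2) * d') :=
          Nat.mul_le_mul_left _ hl2
        set W := 2 ^ (M + j) * (2 ^ (2 * M + 2) * d') with hW
        have h2 : 2 * W ≤ d := by
          have e1 : 2 ^ (j + (3 * M + 3) + c) * d' = 2 * W * 2 ^ c := by
            rw [hW]
            ring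
          rw [hdd, e1]
          exact Nat.le_mul_of_pos_right _ (by positivity)
        have h3 : 2 ^ j ≤ W := by
          have e1 : W = 2 ^ j * (2 ^ M * 2 ^ (2 * M + 2) * d') := by
            rw [hW]
            ring
          rw [e1]
          exact Nat.le_mul_of_pos_right _ (by positivity)
        have h4 : val x * (W + 2 ^ j) ≤ val x * d := Nat.mul_le_mul_left _ (by omega)
        have h5 : 1 * W ≤ val x * W := Nat.mul_le_mul_right _ hx1
        rw [mul_add] at h4
        omega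
      · rintro ⟨k, hk, hdk⟩
        have := FINM.form_unique a j d' k hd' (by omega) (by rw [← hdd, hdk])
        omega

end Pool.Agent.Lib.MP_6ec7bd_co.LT
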