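import Mathlib
import Pool.Agent.Lib.MP_6ec7bd_co.Defs

/-!
# LT: the corrected conjecture for `A_v(0,d)` is true (captain helper42)

GOAL. For every `v` in `V` other than `11` and every `d ≥ 2^(24|v|)`:
`A_v(0,d) ≤ C_v d + B_v`, with equality iff `d = 2^j (2^k + 1)` with `k ≥ 2|v| - 2`.
(The hand-in Threshold shows that no threshold below `2^(3|v|-4)` is possible.)

All modules live in `Pool/Agent/Lib/MP_6ec7bd_co/LT/XXX.lean`, namespace
`Pool.Agent.Lib.MP_6ec7bd_co.LT`, and prove `theorem specXXX (hYYY : SpecYYY) ... : SpecXXX`.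
`M = |v| - 1` everywhere.
-/

namespace Pool.Agent.Lib.MP_6ec7bd_co.LT

open Finset

/-- A digit system: `E` = a parity attached to natural numbers, `J y x` = interaction of the last
`M` digits `y` of the upper part with the first `M` digits `x` of the lower part. -/
structure Sys (M : ℕ) where
  E : ℕ → ZMod 2
  J : ℕ → ℕ → ZMod 2
  hM : 1 ≤ M
  E_zero : E 0 = 0
  split : ∀ k p q, q < 2 ^ k →
    E (2 ^ k * p + q) = E p + E q + J (p % 2 ^ M) (2 ^ M * q / 2 ^ k)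

namespace Sys

variable {M : ℕ} (S : Sys M)

/-- The step from `m - 1` to `m`. -/
def psi (m : ℕ) : ZMod 2 := S.E m + S.E (m - 1)

/-- The discontinuity of the step at highly divisible numbers. -/
def beta (y : ℕ) : ZMod 2 :=
  S.E 1 + S.J (y % 2 ^ M) (2 ^ (M - 1)) + S.J (y % 2 ^ M) (2 ^ (M - 1) - 1)

/-- `(xm, ym)` is the least pair with `J ym xm = 1`. -/
def Least (xm ym : ℕ) : Prop :=
  xm < 2 ^ M ∧ ym < 2 ^ M ∧ S.J ym xm = 1 ∧
    (∀ x < xm, ∀ y < 2 ^ M, S.J y x = 0) ∧ (∀ y < ym, S.J y xm = 0)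

/-- `beta` sums to one. This holds for the systems of ALL patterns (module SUM). -/
def SumOne : Prop := ∑ y ∈ range (2 ^ M), S.beta y = 1

end Sys

/-- BAS. Basic facts.
(1) `k = 0`, `q = 0` in split. (2) `p = 0`, `k = M` in split.
(3) split with `q = 0` and (1). (4) `E (2y+1) = E y + E 1 + J y 2^(M-1)` (split, `k = 1`), and
`2^N (2y+1) - 1 = 2^(N+1) y + (2^N - 1)`, split with `k = N+1`, where
`2^M (2^N - 1) / 2^(N+1) = 2^(M-1) - 1` as `N ≥ M`; `E y` cancels.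
(5) `m % 2^(s+1) = 2^s` means `m = 2^s (2y+1)`; as in (4) (any `s`)
`psi m = E 1 + J y 2^(M-1) + E (2^s - 1) + J y (2^M (2^s - 1) / 2^(s+1))`, which depends only on
`s` and `y % 2^M`, i.e. on `m % 2^(s+1+M)`.
(6) telescoping (induction on `b`), characteristic 2.
(7) both sides are `beta`, which depends on `y % 2^M` only. -/
def SpecBAS : Prop := ∀ (M : ℕ) (S : Sys M),
  (∀ y < 2 ^ M, S.J y 0 = 0) ∧
  (∀ x < 2 ^ M, S.J 0 x = 0) ∧
  (∀ k n, S.E (2 ^ k * n) = S.E n) ∧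
  (∀ N y, M ≤ N → S.psi (2 ^ N * (2 * y + 1)) = S.beta y + S.E (2 ^ N - 1)) ∧
  (∀ s m m', m % 2 ^ (s + 1) = 2 ^ s → m % 2 ^ (s + 1 + M) = m' % 2 ^ (s + 1 + M) →
    S.psi m = S.psi m') ∧
  (∀ a b, a ≤ b → S.E b + S.E a = ∑ m ∈ Ioc a b, S.psi m) ∧
  (∀ y, S.beta y = S.beta (y % 2 ^ M))

/-- CMP. Comparison of the multiples `l d` and `(2^t + l) d`.
Let `l d = 2^t q + r`, `r < 2^t`, so `(2^t + l) d = 2^t (d + q) + r`. Split both with `k = t`: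
`0 = E q + E r + J q x`, `0 = E (d+q) + E r + J (d+q) x`, `x = 2^M r / 2^t`. With `M ≤ t`:
`w := l d / 2^(t-M) = 2^M q + x`, that is `q = w / 2^M`, `x = w % 2^M` (prove this). Add. -/
def SpecCMP : Prop := ∀ (M : ℕ) (S : Sys M) (d t l : ℕ), M ≤ t →
  S.E (l * d) = 0 → S.E ((2 ^ t + l) * d) = 0 →
  S.E (d + l * d / 2 ^ (t - M) / 2 ^ M) + S.E (l * d / 2 ^ (t - M) / 2 ^ M) =
    S.J ((d + l * d / 2 ^ (t - M) / 2 ^ M) % 2 ^ M) (l * d / 2 ^ (t - M) % 2 ^ M) +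
    S.J (l * d / 2 ^ (t - M) / 2 ^ M % 2 ^ M) (l * d / 2 ^ (t - M) % 2 ^ M)

/-- The multiple `2^t * 2^N * q1` lies between `l d` and `(l+1) d`. -/
def Cross (d t N q1 l : ℕ) : Prop :=
  l * d < 2 ^ t * (2 ^ N * q1) ∧ 2 ^ t * (2 ^ N * q1) ≤ (l + 1) * d

/-- CST (from BAS, CMP). Two crossings with the same data have the same `beta`.
Put `w = l d / 2^(t-M)`, `q = w / 2^M`, `q⁺` the same for `l+1`, `Q = 2^N q1`; the same with
primes for the second crossing. The data equalities say `w - 2^M Q = w' - 2^M Q'` and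
`w⁺ - 2^M Q = w'⁺ - 2^M Q'`; so `q - Q = q' - Q'`, `q⁺ - Q = q'⁺ - Q'` and the residues `% 2^M` of
`w, w'` and of `w⁺, w'⁺` agree. CMP at `l` and `l+1`, added, and telescoping (BAS 6):
`∑_{m in Ioc q q⁺} (psi m + psi (m+d)) = R`, where `R` is a sum of four values of `J` which depend
only on `q, q⁺, d mod 2^M` and on `w, w⁺ mod 2^M`; as `Q, Q'` are divisible by `2^M`
(`N ≥ M`) the value `R` is the same for the second crossing.
Cross gives `q < Q ≤ q⁺` (`l d < 2^t Q`, so `l d / 2^t < Q`, and `l d / 2^t = q`), also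
`Q - q ≤ 2^(M+3)` and `q⁺ - Q < 2^(M+3)` because `d < 2^(t+M+3)`
(`q⁺ ≤ (l+1) d / 2^t`, `(l+1) d - 2^t Q < d`; `2^t Q - l d ≤ d`).
Write `m = Q + z` with an integer `z`, `|z| < 2^(M+3)` (`z > -(Q-q)` strictly). The second sum runs
over `m' = Q' + z` with the same `z`.
* `z = 0`: `psi Q = beta ((q1-1)/2) + E (2^N - 1)` (BAS 4).
* `z ≠ 0`: with `s = v_2(z) ≤ M+2`: `m = Q + z` has `m % 2^(s+1) = 2^s` (as `s + 1 ≤ N`) and
  `m ≡ m' mod 2^N`, `N ≥ 2M+3 ≥ s+1+M`: BAS 5.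
* `psi (m + d)`: `m + d = Q + (d + z)`, `d + z ≠ 0` not divisible by `2^(N-M)`, so
  `s = v_2 (d+z) < N - M`, `s+1+M ≤ N`: BAS 5 again.
Hence all terms but `psi Q`, `psi Q'` agree, and `E (2^N - 1)` cancels. -/
def SpecCST : Prop := ∀ (M : ℕ) (S : Sys M) (d t N q1 q1' l l' : ℕ),
  M ≤ t → d < 2 ^ (t + M + 3) → 2 * M + 3 ≤ N →
  (∀ z : ℤ, |z| < 2 ^ (M + 3) → ¬ (2 : ℤ) ^ (N - M) ∣ (d : ℤ) + z) →
  Odd q1 → Odd q1' → Cross d t N q1 l → Cross d t N q1' l' →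
  l * d / 2 ^ (t - M) + 2 ^ M * (2 ^ N * q1') = l' * d / 2 ^ (t - M) + 2 ^ M * (2 ^ N * q1) →
  (l + 1) * d / 2 ^ (t - M) + 2 ^ M * (2 ^ N * q1') =
    (l' + 1) * d / 2 ^ (t - M) + 2 ^ M * (2 ^ N * q1) →
  (∀ i ∈ ({l, l + 1, l', l' + 1} : Finset ℕ),
    S.E (i * d) = 0 ∧ S.E ((2 ^ t + i) * d) = 0) →
  S.beta ((q1 - 1) / 2) = S.beta ((q1' - 1) / 2)

/-- DIR. Dirichlet with an odd denominator after a power of two is split off.
Mathlib: `Real.exists_int_int_abs_mul_sub_le` or `exists_nat_abs_mul_sub_round_le` for `a / d`, then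
`Δ₀ = 2^c Δ` with `Δ` odd (`Nat.exists_eq_two_pow_mul_odd`). -/
def SpecDIR : Prop := ∀ (a d K : ℕ), 0 < d → 0 < K →
  ∃ (c Δ : ℕ) (m : ℤ), Odd Δ ∧ 2 ^ c * Δ ≤ K ∧
    |((2 ^ c * Δ : ℕ) : ℤ) * a - m * d| * K < d

/-- BLK (from BAS, CST). If `Δ 2^(N+t) = m d + ε` with `ε` tiny then `beta` is constant.
For `1 ≤ i ≤ 2^(M+2)` put `q1 = i Δ`, `2^t 2^N q1 = i m d + i ε`, `|i ε| < 2^(t-M) < d`
(as `|ε| 2^(3M+5) < d < 2^(t+M+3)`).
Case `ε > 0`: `l = i m` (natural, `m ≥ 0`), Cross holds. `l d = 2^t Q - i ε` gives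
`l d / 2^(t-M) = 2^M Q - 1` for all `i` (`0 < i ε < 2^(t-M)`), and `(l+1) d = 2^t Q + (d - i ε)`
gives `(l+1) d / 2^(t-M) = 2^M Q + (d - i ε) / 2^(t-M)`, and `(d - i ε) / 2^(t-M)` is `d / 2^(t-M)`
if `i ε ≤ d % 2^(t-M)` and one less otherwise. So on one of the two blocks `1 ≤ i ≤ 2^(M+1)`,
`2^(M+1) < i ≤ 2^(M+2)` it is constant.
Case `ε ≤ 0`: `e = -ε`, `l = i m - 1` (`m ≥ 1` as the left side is positive), Cross holds:
`(l+1) d = 2^t Q + i e`, so `(l+1) d / 2^(t-M) = 2^M Q` for all `i`, and `l d = 2^t Q - (d - i e)`,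
`l d / 2^(t-M) = 2^M Q - ⌈(d - i e)/2^(t-M)⌉`, which takes two values, monotone in `i`: again one
of the two blocks is constant.
In both cases CST applies to any two odd `i, i'` of the block (`q1 = i Δ` odd), so
`beta ((iΔ-1)/2)` is constant there; the odd `i` of a block of `2^(M+1)` consecutive integers run
through all odd residues mod `2^(M+1)`, hence so does `i Δ`, and `(iΔ-1)/2` runs through all
residues mod `2^M` (`Δ` is invertible mod `2^(M+1)`). All `l, l+1` used are `≤ 2^t`: if `l ≥ 2^t` then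
`2^t d ≤ l d < 2^t Q`, so `d < Q ≤ 2^N Δ 2^(M+2) ≤ d`. So the zero hypothesis applies. -/
def SpecBLK : Prop := ∀ (M : ℕ) (S : Sys M) (d t N Δ : ℕ) (m ε : ℤ),
  M ≤ t → 2 ^ (t + M + 2) ≤ d → d < 2 ^ (t + M + 3) → 2 * M + 3 ≤ N →
  (∀ z : ℤ, |z| < 2 ^ (M + 3) → ¬ (2 : ℤ) ^ (N - M) ∣ (d : ℤ) + z) →
  Odd Δ → (Δ : ℤ) * 2 ^ (N + t) = m * d + ε → |ε| * 2 ^ (3 * M + 5) < d →
  2 ^ N * Δ * 2 ^ (M + 2) ≤ d →
  (∀ l, l ≤ 2 ^ (t + 1) → S.E (l * d) = 0) →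
  ∃ c, ∀ y < 2 ^ M, S.beta y = c

/-- MLM (main lemma, from BLK, DIR). If `E (l d) = 0` for all `l ≤ d / 2^(M+1)` then `d` is within
`2^(M+3)` of a multiple of a huge power of two.
Suppose not. `t = n - M - 2` (so `2^(t+M+2) = 2^n ≤ d < 2^(n+1) = 2^(t+M+3)`), `N0 = n - 4M - 7`
(`≥ 2M+3`). DIR with `a = 2^(N0+t)`, `K = 2^(3M+5)` gives `c, Δ, m`; put `N = N0 + c`,
`ε = Δ 2^(N+t) - m d`. BLK applies: `2^(N0-M)` divides `2^(N-M)`, so there is no `z` with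
`2^(N-M) | d + z`; `2^N Δ 2^(M+2) = 2^N0 (2^c Δ) 2^(M+2) ≤ 2^(N0 + 3M+5 + M+2) = 2^n ≤ d`; `l ≤
2^(t+1)` gives `2^(M+1) l ≤ 2^(n)≤ d`. So `beta` is constant `= c` and `∑ beta = 2^M c = 0 ≠ 1`
(`M ≥ 1`). -/
def SpecMLM : Prop := ∀ (M : ℕ) (S : Sys M), S.SumOne → ∀ (d n : ℕ),
  2 ^ n ≤ d → d < 2 ^ (n + 1) → 6 * M + 10 ≤ n →
  (∀ l, 2 ^ (M + 1) * l ≤ d → S.E (l * d) = 0) →
  ∃ z : ℤ, |z| < 2 ^ (M + 3) ∧ (2 : ℤ) ^ (n - 5 * M - 7) ∣ (d : ℤ) + z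

/-- POS (from BAS). `d = 2^k p + q`, not `2^k + 1`.
Let `s = 7M + 9`. `l''` = the number in `[1, 2^M)` (note `ym ≥ 1` because `J 0 _ = 0`) with
`l'' p ≡ ym mod 2^M`. `l'` = least with `2^s l' q ≥ xm 2^(k-M)` (so `l' ≥ 1`), `l = 2^s l' + l''`.
* `q l ≥ xm 2^(k-M)` and `q l < xm 2^(k-M) + q 2^s + q 2^M ≤ (xm+1) 2^(k-M)` since
  `q (2^s + 2^M) ≤ 2^(M+3) 2^(s+1) ≤ 2^(k-M)`. So `2^M (l q) / 2^k = xm`.
* `E (l' d) = E (l' p) + E (l' q) + J .. x` with `x = 2^M l' q / 2^k < xm`, so `J = 0`; the same for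
  `l''` (`l'' q < 2^(k-M)`, even `x = 0`). If `E (l' d) = 1` or `E (l'' d) = 1` take this one.
* Otherwise `E (l' p) + E (l' q) = 0 = E (l'' p) + E (l'' q)`, and
  `E (l p) = E (2^s (l' p) + l'' p) = E (l' p) + E (l'' p)` as `2^M l'' p < 2^s` (J with second
  argument 0), the same for `q`. So `E (l d) = E (l p) + E (l q) + J (l p % 2^M) xm = 0 + J ym xm = 1`.
Size: `q l 2^M < xm 2^k + q 2^(s+1+M)`; if `q ≥ 3`: `3 · 2^M l ≤ ..`; if `q = 1`, `p ≥ 3`: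
`2^M l < xm 2^k + 2^(s+1+M) ≤ 3 xm 2^k`. Everything follows from `2^(s+2M+4) ≤ 2^k`. -/
def SpecPOS : Prop := ∀ (M : ℕ) (S : Sys M) (xm ym : ℕ), S.Least xm ym → ∀ (p q k : ℕ),
  Odd p → Odd q → p < 2 ^ (5 * M + 9) → q < 2 ^ (M + 3) → 9 * M + 13 ≤ k → ¬ (p = 1 ∧ q = 1) →
  ∃ l, 1 ≤ l ∧ 2 ^ M * l < xm * (p * 2 ^ k) ∧ S.E (l * (2 ^ k * p + q)) = 1

/-- NGF (from BAS). Formula for `d = 2^k p - q`: if `1 ≤ l` and `l q ≤ 2^(k-M)` then
`l d = 2^k (l p - 1) + (2^k - l q)` and `2^M (2^k - l q) / 2^k = 2^M - 1`. So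
`E (l d) = E (l p - 1) + E (2^k - l q) + J ((l p - 1) % 2^M) (2^M - 1)`. If this vanishes for `l` and
`l + 1` then, adding and telescoping,
`∑_{i < p} psi (l p + i) + ∑_{i < q} psi (2^k - l q - i) + J ((l p + p - 1) % 2^M) (2^M - 1)
 + J ((l p - 1) % 2^M) (2^M - 1) = 0`
(`E ((l+1) p - 1) + E (l p - 1) = ∑_{m in Ioc (lp-1) (lp+p-1)} psi m`,
`E (2^k - l q) + E (2^k - l q - q) = ∑_{m in Ioc (2^k - lq - q) (2^k - lq)} psi m`). -/
def SpecNGF : Prop := ∀ (M : ℕ) (S : Sys M) (p q k l : ℕ), 1 ≤ p → 1 ≤ q → 1 ≤ l → M ≤ k →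
  (l + 1) * q ≤ 2 ^ (k - M) →
  S.E (l * (2 ^ k * p - q)) = 0 → S.E ((l + 1) * (2 ^ k * p - q)) = 0 →
  (∑ i ∈ range p, S.psi (l * p + i)) + (∑ i ∈ range q, S.psi (2 ^ k - l * q - i)) +
    S.J ((l * p + p - 1) % 2 ^ M) (2 ^ M - 1) + S.J ((l * p - 1) % 2 ^ M) (2 ^ M - 1) = 0

/-- NGA (from BAS, NGF). Case `p` does not divide `q` (so `p ≥ 3`). Suppose no such `l`. Let
`N = 7M + 13`. For every `y < 2^M` there is (CRT, `p` odd) `i1 < 2^(M+1) p` with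
`i1 ≡ 2y+1 mod 2^(M+1)` and `2^N i1 ≡ 1 mod p`; put `l = (2^N i1 - 1)/p ≥ 1`,
`l + 1 ≤ 2^(N+M+1) = 2^(8M+14)`. So `l p + 1 = 2^N i1`. Apply NGF
(`(l+1) q ≤ 2^(8M+14+M+3) ≤ 2^(k-M)`).
* `i = 1`: `psi (2^N i1) = beta y + E (2^N - 1)` (BAS 4, `i1 = 2 y' + 1`, `y' ≡ y mod 2^M`, BAS 7).
* `i ≠ 1`, `i < p`: `l p + i = 2^N i1 + (i - 1)`, `v_2 (i-1) < 5M+9`, `N ≥ 5M+9+1+M`: by BAS 5 the
  value does not depend on `y` (compare with the `l` of `y = 0`).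
* `psi (2^k - l q - i)`, `i < q`: `p (l q + i) = 2^N i1 q + (p i - q)` with `p i ≠ q`, and
  `0 < |p i - q| < 2^(6M+12)`, so `s = v_2 (l q + i) = v_2 (p i - q) < 6M+12` is the same for all `y`, and
  `l q + i` mod `2^N` is determined by `p (l q + i) ≡ p i - q mod 2^N`, the same for all `y`;
  `2^k - l q - i` has the same `v_2` (`k > N`), BAS 5 with `s + 1 + M ≤ N`.
* the `J` terms: `l p ≡ -1 mod 2^N`.
So `beta y` is the same for all `y`: contradiction to SumOne. -/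
def SpecNGA : Prop := ∀ (M : ℕ) (S : Sys M), S.SumOne → ∀ (p q k : ℕ),
  Odd p → Odd q → p < 2 ^ (5 * M + 9) → q < 2 ^ (M + 3) → 10 * M + 18 ≤ k → ¬ p ∣ q →
  ∃ l, 1 ≤ l ∧ l ≤ 2 ^ (8 * M + 14) ∧ S.E (l * (2 ^ k * p - q)) = 1

/-- NGB (from BAS, NGF). Case `q` does not divide `p` (so `q ≥ 3`); mirror image of NGA: `N = 7M + 13`,
`l q + 1 = 2^N i1` with `i1 < 2^(M+1) q`, `i1 ≡ 2y+1 mod 2^(M+1)`.
* the term `i = 1` of the second sum: `2^k - l q - 1 = 2^k - 2^N i1 = 2^N (2^(k-N) - i1)` and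
  `2^(k-N) - i1 = 2 (2^(k-N-1) - 1 - y') + 1` if `i1 = 2 y' + 1`; so it is
  `beta (2^(k-N-1) - 1 - y') + E (2^N - 1)`, and `2^(k-N-1) - 1 - y' ≡ 2^M - 1 - y mod 2^M`: all
  residues occur.
* second sum, `i ≠ 1`: `l q + i = 2^N i1 + (i-1)`; first sum: `q (l p + i) = 2^N i1 p + (q i - p)`,
  `q i ≠ p`. `J` terms: `q (l p) ≡ -p mod 2^N`. All independent of `y` as in NGA.
So `beta (2^M - 1 - y)` is the same for all `y < 2^M`: contradiction. -/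
def SpecNGB : Prop := ∀ (M : ℕ) (S : Sys M), S.SumOne → ∀ (p q k : ℕ),
  Odd p → Odd q → p < 2 ^ (5 * M + 9) → q < 2 ^ (M + 3) → 10 * M + 18 ≤ k → ¬ q ∣ p →
  ∃ l, 1 ≤ l ∧ l ≤ 2 ^ (8 * M + 14) ∧ S.E (l * (2 ^ k * p - q)) = 1

/-- NGC (from BAS, NGF). Case `p = q < 2^(M+3)`, `M ≥ 2`. Suppose no such `l`. `N = 2M + 3`,
`l = 2^N i1` with `1 ≤ i1 < 2^(M+1)`, `i1 p ≡ 2y+1 mod 2^(M+1)` (`p` is invertible). NGF:
* first sum `i = 0`: `psi (2^N (i1 p)) = beta y + E (2^N - 1)` (BAS 4, 7);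
* second sum `i = 0`: `2^k - 2^N (i1 p) = 2^N (2 (2^(k-N-1) - 1 - y') + 1)`, `i1 p = 2 y' + 1`:
  `beta (2^M - 1 - y) + E (2^N - 1)` (BAS 7);
* `0 < i < p`: `v_2 (i) ≤ M+2`, independent of `y` (BAS 5); `J` terms independent of `y`.
Hence `beta y + beta (2^M - 1 - y)` is a constant `κ` for `y < 2^M`. Summing over `y < 2^(M-1)`:
`1 = ∑_{y < 2^M} beta y = 2^(M-1) κ = 0` as `M ≥ 2`. Contradiction. -/
def SpecNGC : Prop := ∀ (M : ℕ) (S : Sys M), S.SumOne → 2 ≤ M → ∀ (p k : ℕ),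
  Odd p → p < 2 ^ (M + 3) → 10 * M + 18 ≤ k →
  ∃ l, 1 ≤ l ∧ l ≤ 2 ^ (8 * M + 14) ∧ S.E (l * (2 ^ k * p - p)) = 1

/-- NGD (from BAS). Case `p = q`, `M = 1`, `E 1 = 1`: `l = 1` works.
`SumOne` for `M = 1`: `beta 0 = E 1`, `beta 1 = E 1 + J 1 1` so `J 1 1 = 1`, hence
`E (2n+1) = E n + 1 + (n % 2)` (split `k = 1`). By induction on `k ≥ 1`, for `m < 2^k`:
`E m + E (2^k - 1 - m) = 1 + (m / 2^(k-1)) + (m % 2)` in `ZMod 2`
(step: `m = 2m' + b`, `2^k - 1 - m = 2 (2^(k-1) - 1 - m') + (1 - b)`). For `m = p - 1` (even, less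
than `2^(k-1)`): `E (p-1) + E (2^k - p) = 1`, and `2^k p - p = 2^k (p-1) + (2^k - p)`, split, with
`J ((p-1) % 2) _ = J 0 _ = 0`. -/
def SpecNGD : Prop := ∀ (S : Sys 1), S.SumOne → S.E 1 = 1 → ∀ (p k : ℕ),
  Odd p → p < 2 ^ 14 → 28 ≤ k → S.E (2 ^ k * p - p) = 1

/-- EQU (from BAS). `d = 2^k + 1`, `k ≥ 2M`: for `l < 2^k` split gives
`E (l d) = E l + E l + J (l % 2^M) (2^M l / 2^k) = J (l % 2^M) (l / 2^(k-M))`. If
`2^M l < xm 2^k + ym 2^M` then `l < xm 2^(k-M) + ym`: either `l / 2^(k-M) < xm`, or `= xm` and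
`l % 2^(k-M) < ym < 2^M`, so `l % 2^M = l % 2^(k-M) < ym` (as `2^M` divides `2^(k-M)`). -/
def SpecEQU : Prop := ∀ (M : ℕ) (S : Sys M) (xm ym : ℕ), S.Least xm ym → ∀ k, 2 * M ≤ k →
  (∀ l, 2 ^ M * l < xm * 2 ^ k + ym * 2 ^ M → S.E (l * (2 ^ k + 1)) = 0) ∧
  S.E ((xm * 2 ^ (k - M) + ym) * (2 ^ k + 1)) = 1

/-- BND (from BAS). Crude bound for every odd `d`. `b` = least with `2^b ≥ d` (`2^b < 2 d`, or
`b = 0` for `d = 1`), `l2` = least with `l2 d ≥ xm 2^b`, so `l2 d < (xm+1) 2^b`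
(`xm ≥ 1` as `J _ 0 = 0`, so `l2 ≥ 1`), `l2 ≤ xm 2^b ≤ 2^M 2^b`; `l1 < 2^M`,
`l1 d ≡ ym mod 2^M`, `l1 ≥ 1` (`ym ≥ 1`). `l = 2^(b+M) l1 + l2`,
`l d = 2^(b+M) (l1 d) + l2 d`, `2^M (l2 d) / 2^(b+M) = xm`:
`E (l d) = E (l1 d) + E (l2 d) + 1`, so one of the three is 1; `l ≤ 2^(b+2M) ≤ 2^(2M+2) d`. -/
def SpecBND : Prop := ∀ (M : ℕ) (S : Sys M) (xm ym : ℕ), S.Least xm ym → ∀ d, Odd d →
  ∃ l, 1 ≤ l ∧ l ≤ 2 ^ (2 * M + 2) * d ∧ S.E (l * d) = 1

/-- ODD (from BAS, MLM, POS, NGA, NGB, NGC, NGD). Assembly for odd `d`.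
Suppose the first alternative fails, so `E (l d) = 0` for all `l` with
`2^M l < xm (d-1) + ym 2^M` (`l = 0` is trivial; values in `ZMod 2` are 0 or 1). As `xm, ym ≥ 1`,
this contains all `l` with `2^(M+1) l ≤ d`. Let `2^n ≤ d < 2^(n+1)`, `n ≥ 15M + 25`. MLM gives `z`,
`d + z = 2^(k0) p0`, `k0 = n - 5M - 7`, `p0 = 2^a p`, `p` odd, `k = k0 + a ≥ 10M+18`,
`p ≤ p0 < 2^(5M+9)`; `z` is odd as `d` is. If `z < 0`: `d = 2^k p + |z|`, POS contradicts unless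
`p = |z| = 1`, second alternative. If `z > 0`: `d = 2^k p - z`; if `p ∤ z` NGA, if `z ∤ p` NGB, else
`p = z` and NGC (`M ≥ 2`) or NGD (`M = 1`) give `l ≤ 2^(8M+14)` with `E (l d) = 1`, and
`2^M l < d - 1`. -/
def SpecODD : Prop := ∀ (M : ℕ) (S : Sys M) (xm ym : ℕ), S.SumOne → (M = 1 → S.E 1 = 1) →
  S.Least xm ym → ∀ d, Odd d → 2 ^ (15 * M + 25) ≤ d →
  (∃ l, 1 ≤ l ∧ 2 ^ M * l < xm * (d - 1) + ym * 2 ^ M ∧ S.E (l * d) = 1) ∨
  (∃ k, 2 * M ≤ k ∧ d = 2 ^ k + 1)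

/-! ### Patterns -/

/-- Number of windows: positions `s` with `(n / 2^s) % 2^L = V` (for `s ≥ n` the quotient is 0). -/
def win (L V n : ℕ) : ℕ := ((range n).filter (fun s => n / 2 ^ s % 2 ^ L = V)).card

/-- Windows at the positions `s < M`. -/
def cr (M L V n : ℕ) : ℕ := ((range M).filter (fun s => n / 2 ^ s % 2 ^ L = V)).card

/-- OCC. For all words `v, w` with `v ≠ []`:
`occ v w = #{s < |w| : s + |v| ≤ |w|, (val w / 2^s) % 2^|v| = val v}`.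
Induction on `w` from the right (`List.reverseRecOn`; occ_snoc, occ_nil are in
`Pool.Agent.Lib.MP_6ec7bd_co.Proof`), with `val (w ++ [b]) = 2 val w + b` and
`v <:+ w ↔ |v| ≤ |w| ∧ val w % 2^|v| = val v` (induction on `v` from the right; `val v < 2^|v|`).
Second part: `val v < 2^|v|`, third part: `val` is strictly monotone for the lexicographic order on
words of equal length (this also gives injectivity), fourth part: every number below `2^n` is `val` of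
a word of length `n`, fifth: `val (y ++ x) = 2^|x| val y + val x`; sixth and seventh: for `v ∈ V`,
`val v = 2^(trail v) · odd` and `2^(|v| - lead v - 1) ≤ val v < 2^(|v| - lead v)`. -/
def SpecOCC : Prop :=
  (∀ v w : List Bool, v ≠ [] → occ v w = ((range w.length).filter
    (fun s => s + v.length ≤ w.length ∧ val w / 2 ^ s % 2 ^ v.length = val v)).card) ∧
  (∀ v : List Bool, val v < 2 ^ v.length) ∧
  (∀ v w : List Bool, v.length = w.length → (v < w ↔ val v < val w)) ∧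
  (∀ n m : ℕ, m < 2 ^ n → ∃ v : List Bool, v.length = n ∧ val v = m) ∧
  (∀ y x : List Bool, val (y ++ x) = 2 ^ x.length * val y + val x) ∧
  (∀ v ∈ V, trail v < v.length ∧ lead v < v.length ∧
    (∃ o, Odd o ∧ val v = 2 ^ trail v * o)) ∧
  (∀ v ∈ V, 2 ^ (v.length - lead v - 1) ≤ val v ∧ val v < 2 ^ (v.length - lead v))

/-- WIN (from OCC). `e_v(n)` is the number of windows.
`e v n = occ v (zeros i ++ bin n)`, `i = lead v`; `val (zeros i ++ bin n) = n`, length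
`i + size n`. A position `s` with `s + L > i + size n` has `n / 2^s < 2^(L-i-1) ≤ val v`, so it does not
count; so the count is over all `s < n` (and `n < 2^n`). -/
def SpecWIN : Prop := ∀ v ∈ V, ∀ n, e v n = win v.length (val v) n

/-- SYS (from OCC). The digit system of a pattern, `M = |v| - 1`, `L = |v| = M + 1`, `j = trail v ≤ M`.
`E n = win (2^j n)` mod 2, `J y x = cr (2^M y + x) + cr (2^M y) + cr x` mod 2. First: for `i ≥ j`:
`win (2^i n) = win (2^j n)` (a window of `2^i n` at `s < i - j` is divisible by `2^(j+1)` and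
`< 2^L`, `val v` is not divisible by `2^(j+1)`). So `E n = win (2^M n)`. Split: the windows of
`n = 2^M (2^k p + q)` at `s ≥ k + M` are those of `p`; at `s = k + i`, `i < M`, they are those of
`2^M (p % 2^M) + x`, `x = 2^M q / 2^k`; at `s < k` those of `2^M q`. Also
`win (2^M p) = win p + cr (2^M (p % 2^M))`, `win (2^M q) = #{s < k} + cr x`. -/
def SpecSYS : Prop := ∀ v ∈ V, ∃ S : Sys (v.length - 1),
  (∀ n, S.E n = (win v.length (val v) (2 ^ trail v * n) : ℕ)) ∧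
  (∀ i n, trail v ≤ i → S.E n = (win v.length (val v) (2 ^ i * n) : ℕ)) ∧
  (∀ y x, y < 2 ^ (v.length - 1) → x < 2 ^ (v.length - 1) → S.J y x =
    ((cr (v.length - 1) v.length (val v) (2 ^ (v.length - 1) * y + x) +
      cr (v.length - 1) v.length (val v) (2 ^ (v.length - 1) * y) +
      cr (v.length - 1) v.length (val v) x : ℕ) : ZMod 2))

/-- SUM (independent). For a system with `J` given by windows, for ANY `V < 2^(M+1)`, `beta` sums to 1.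
`∑_y beta y = ∑_y (cr (2^M y + 2^(M-1)) + cr (2^M y + 2^(M-1) - 1))` (the other terms do not depend on
`y` or occur twice, and `2^M` is even). For fixed `i < M` and `x < 2^M`:
`(2^M y + x) / 2^i % 2^(M+1) = 2^(M-i) (y % 2^(i+1)) + x / 2^i`, so the number of `y < 2^M` with value `V` is
`2^(M-i-1)` if `x / 2^i = V % 2^(M-i)` and 0 otherwise; odd only for `i = M - 1` and
`x / 2^(M-1) = V % 2`. Exactly one of `x = 2^(M-1)` (quotient 1), `x = 2^(M-1) - 1` (quotient 0)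
qualifies. -/
def SpecSUM : Prop := ∀ (M : ℕ) (S : Sys M) (V : ℕ), V < 2 ^ (M + 1) →
  (∀ y x, y < 2 ^ M → x < 2 ^ M → S.J y x =
    ((cr M (M + 1) V (2 ^ M * y + x) + cr M (M + 1) V (2 ^ M * y) + cr M (M + 1) V x : ℕ) : ZMod 2)) →
  S.SumOne

/-- PAR (from OCC). Admissible pairs in terms of windows, and the least pair.
For `|x| = |y| = M`: `occ v (y ++ x) = cr (2^M val y + val x)` (OCC: `s + L ≤ 2M` iff `s < M`),
`occ v (zeros i ++ x) = cr (val x)` (`s + L ≤ i + M` iff `s < i`; for `i ≤ s < M` the window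
is `< 2^(M-s) ≤ 2^(L-i-1) ≤ val v`), `occ v (y ++ zeros j) = cr (2^M val y)` (the word has value
`2^j val y`; `cr`: positions `s < M - j` give multiples of `2^(j+1)`, positions `s = M - j + s'` give the
window of `2^j val y` at `s'`). -/
def SpecPAR : Prop := ∀ v ∈ V, ∀ x y : List Bool,
  Admissible v x y ↔ x.length = v.length - 1 ∧ y.length = v.length - 1 ∧
    ((cr (v.length - 1) v.length (val v) (2 ^ (v.length - 1) * val y + val x) +
      cr (v.length - 1) v.length (val v) (2 ^ (v.length - 1) * val y) +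
      cr (v.length - 1) v.length (val v) (val x) : ℕ) : ZMod 2) = 1

/-- The statement of Q1 with an arbitrary threshold `T(|v|)` in place of `2^(2|v|+1)`, together with the
existence of the pair `(x_min, y_min)`. -/
def Q1With (T : ℕ → ℕ) : Prop :=
  ∀ v ∈ V, v ≠ [true, true] → (∃ x y, IsLeastPair v x y) ∧ ∀ x y, IsLeastPair v x y →
    ∀ d, T v.length ≤ d → (A v d : ℚ) ≤ C v x * d + B v x y ∧
      ((A v d : ℚ) = C v x * d + B v x y ↔
        ∃ k, 2 * v.length - 2 ≤ k ∧ d = 2 ^ trail v * (2 ^ k + 1))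

/-- FIN (from OCC, WIN, SYS, SUM, PAR, ODD, EQU, BND). Final assembly. `L = |v|`, `M = L - 1`, `j = trail v`,
`X = xm / 2^M` with `xm = val x`, `ym = val y`; `Least xm ym` for the system of `v` from
IsLeastPair (PAR, OCC 3, 4). Existence of the pair: SumOne shows that `J` is not identically 0
(otherwise `beta` is constant and sums to 0), take the least `x`, then the least `y`.
`C d + B = (xm d / 2^(M+j)) + ym - xm / 2^M`. `M = 1` and `v ≠ 11`: `v = 01` or `10`, `E 1 = 1` by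
computation. Write `d = 2^a d'`, `d'` odd.
* `a < j`: the congruence `2 l d ≡ val v mod 2^L` has a solution `1 ≤ l ≤ 2^M` and
  `win (2 l d) = win (l d) + 1`; so `A v d ≤ 2^L < C d + B`, no equality, and `d ≠ 2^j (2^k + 1)`.
* `a ≥ j`: `win (l d) = win (2^a (l d'))`, parity `E (l d')`. So `A v d = A' (d') :=` least `l ≥ 1`
  with `E (l d') = 1`. If `a - j ≥ 3M + 3`: BND: `A v d ≤ 2^(2M+2) d' < xm 2^(a-j) d' / 2^M - xm / 2^M + ym`,
  strict. Otherwise `d' ≥ 2^(24L) / 2^(4M+3) ≥ 2^(15M+25)`: ODD. In the first alternative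
  `A' < xm (d'-1) / 2^M + ym ≤ C d + B`; in the second `d' = 2^k + 1`, `2M ≤ k`, and EQU gives
  `A' = xm 2^(k-M) + ym = xm (d'-1) / 2^M + ym`, equal to `C d + B` iff `a = j`. For the iff use that
  `d = 2^j (2^k + 1)` with `k ≥ 1` forces `a = j`, `d' = 2^k + 1`. -/
def SpecFIN : Prop := Q1With (fun m => 2 ^ (24 * m))

end Pool.Agent.Lib.MP_6ec7bd_co.LT
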