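import Mathlib
import Pool.Agent.Lib.MP_6ec7bd_co.LT.Spec

/-!
# Module MLM (main lemma): `d` is near a multiple of a huge power of two
-/

namespace Pool.Agent.Lib.MP_6ec7bd_co.LT

open Finset

/-- MLM, from BLK and DIR. -/
theorem specMLM (hBLK : SpecBLK) (hDIR : SpecDIR) : SpecMLM := by
  intro M S hsum d n hnd hdn hMn hE
  by_contra hcon
  push Not at hcon
  have hM := S.hM
  obtain ⟨t, ht⟩ : ∃ t, n = t + M + 2 := ⟨n - M - 2, by omega⟩
  obtain ⟨N0, hN0⟩ : ∃ N0, n = N0 + 4 * M + 7 := ⟨n - 4 * M - 7, by omega⟩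
  have hd0 : 0 < d := lt_of_lt_of_le (by positivity) hnd
  obtain ⟨c, Δ, m, hΔ, hcΔ, habs⟩ := hDIR (2 ^ (N0 + t)) d (2 ^ (3 * M + 5)) hd0 (by positivity)
  have key := hBLK M S d t (N0 + c) Δ m ((Δ : ℤ) * 2 ^ (N0 + c + t) - m * d)
    (by omega)
    (by rw [← ht]; exact hnd)
    (by
      have e : t + M + 3 = n + 1 := by omega
      rw [e]; exact hdn)
    (by omega)
    (by
      intro z hz hdvd
      refine hcon z hz (dvd_trans ?_ hdvd)
      exact pow_dvd_pow 2 (by omega))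
    hΔ
    (by ring)
    (by
      have e1 : (Δ : ℤ) * 2 ^ (N0 + c + t) - m * d =
          ((2 ^ c * Δ : ℕ) : ℤ) * ((2 ^ (N0 + t) : ℕ) : ℤ) - m * d := by
        push_cast
        ring
      have e2 : ((2 ^ (3 * M + 5) : ℕ) : ℤ) = 2 ^ (3 * M + 5) := by push_cast; ring
      rw [e1, ← e2]
      exact habs)
    (by
      have e1 : 2 ^ (N0 + c) * Δ * 2 ^ (M + 2) = 2 ^ N0 * (2 ^ c * Δ) * 2 ^ (M + 2) := by ring
      have e2 : 2 ^ N0 * 2 ^ (3 * M + 5) * 2 ^ (M + 2) = 2 ^ n := by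
        rw [hN0, ← pow_add, ← pow_add]
        congr 1
        omega
      calc 2 ^ (N0 + c) * Δ * 2 ^ (M + 2) = 2 ^ N0 * (2 ^ c * Δ) * 2 ^ (M + 2) := e1
        _ ≤ 2 ^ N0 * 2 ^ (3 * M + 5) * 2 ^ (M + 2) := by gcongr
        _ = 2 ^ n := e2
        _ ≤ d := hnd)
    (by
      intro l hl
      apply hE
      calc 2 ^ (M + 1) * l ≤ 2 ^ (M + 1) * 2 ^ (t + 1) := by gcongr
        _ = 2 ^ n := by
          rw [ht, ← pow_add]
          congr 1
          omega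
        _ ≤ d := hnd)
  obtain ⟨b, hb⟩ := key
  have h1 : ∑ y ∈ range (2 ^ M), S.beta y = 1 := hsum
  have h2 : ∑ y ∈ range (2 ^ M), S.beta y = ∑ _y ∈ range (2 ^ M), b :=
    Finset.sum_congr rfl fun y hy => hb y (Finset.mem_range.mp hy)
  rw [h2, Finset.sum_const, Finset.card_range, nsmul_eq_mul] at h1
  obtain ⟨M', rfl⟩ : ∃ M', M = M' + 1 := ⟨M - 1, by omega⟩
  have h3 : ((2 ^ (M' + 1) : ℕ) : ZMod 2) = 0 := by
    rw [ZMod.natCast_eq_zero_iff]
    exact dvd_pow_self 2 (Nat.succ_ne_zero M')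
  rw [h3, zero_mul] at h1
  exact zero_ne_one h1

end Pool.Agent.Lib.MP_6ec7bd_co.LT
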