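import Pool.Agent.Lib.MP_6ec7bd_co.LT.NGX

set_option autoImplicit false

namespace Pool.Agent.Lib.MP_6ec7bd_co.LT

open Finset NGXM

namespace NGAM

variable {M : ℕ}

theorem abs_first (i p B : ℕ) (hi : i < p) (hp : p < B) (h1 : 1 < p) :
    |(i : ℤ) - 1| < B := by
  rw [abs_lt]
  constructor <;> omega

theorem abs_second (i p q B : ℕ) (hi : i < q) (hp : 1 ≤ p) (h : p * q < B) :
    |(q : ℤ) - p * i| < B := by
  have h1 : (p : ℤ) * i ≤ p * q := by
    have : p * i ≤ p * q := Nat.mul_le_mul_left p hi.le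
    exact_mod_cast this
  have h2 : (p : ℤ) * q < B := by exact_mod_cast h
  have h3 : (q : ℤ) ≤ p * q := by
    have : q ≤ p * q := Nat.le_mul_of_pos_left q hp
    exact_mod_cast this
  have h4 : (0 : ℤ) ≤ (p : ℤ) * i := by positivity
  have h5 : (0 : ℤ) ≤ (q : ℤ) := by positivity
  rw [abs_lt]
  constructor <;> linarith

/-- The value of `beta` is the same at `y` and `0`. -/
theorem compare (hB : SpecBAS) (hF : SpecNGF) (S : Sys M) (p q k : ℕ) (hp : Odd p) (hq : Odd q)
    (hp2 : p < 2 ^ (5 * M + 9)) (hq2 : q < 2 ^ (M + 3)) (hk : 10 * M + 18 ≤ k) (hpq : ¬ p ∣ q)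
    (h0 : ∀ l, 1 ≤ l → l ≤ 2 ^ (8 * M + 14) → S.E (l * (2 ^ k * p - q)) = 0) (y : ℕ) :
    S.beta y = S.beta 0 := by
  have hp1 : 1 < p := by
    obtain ⟨t, ht⟩ := hp
    rcases Nat.eq_zero_or_pos t with h | h
    · exact absurd (by rw [ht, h]; exact one_dvd q) hpq
    · omega
  have hq1 : 1 ≤ q := hq.pos
  set N : ℕ := 7 * M + 13 with hN
  have hMN : M ≤ N := by omega
  obtain ⟨i, l, hl, hi, hl1, hl2, -⟩ := crt M N p hp hp1 (by omega) y
  obtain ⟨i', l', hl', hi', hl1', hl2', -⟩ := crt M N p hp hp1 (by omega) 0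
  have hexp : N + M + 1 = 8 * M + 14 := by omega
  rw [hexp] at hl2 hl2'
  -- sizes
  have hsize : ∀ l : ℕ, l + 1 ≤ 2 ^ (8 * M + 14) → (l + 1) * q ≤ 2 ^ (k - M) := by
    intro l hl
    calc (l + 1) * q ≤ 2 ^ (8 * M + 14) * 2 ^ (M + 3) := Nat.mul_le_mul hl hq2.le
      _ = 2 ^ (9 * M + 17) := by rw [← pow_add]; congr 1; ring
      _ ≤ 2 ^ (k - M) := Nat.pow_le_pow_right (by norm_num) (by omega)
  have hkM : 2 ^ (k - M) ≤ 2 ^ k := Nat.pow_le_pow_right (by norm_num) (by omega)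
  have hform : ∀ l : ℕ, 1 ≤ l → l + 1 ≤ 2 ^ (8 * M + 14) →
      (∑ i ∈ range p, S.psi (l * p + i)) + (∑ i ∈ range q, S.psi (2 ^ k - l * q - i)) +
        S.J ((l * p + p - 1) % 2 ^ M) (2 ^ M - 1) + S.J ((l * p - 1) % 2 ^ M) (2 ^ M - 1) = 0 :=
    fun l hl hl2 => hF M S p q k l (by omega) hq1 hl (by omega) (hsize l hl2)
      (h0 l hl (by omega)) (h0 (l + 1) (by omega) hl2)
  have e1 := hform l hl1 hl2
  have e2 := hform l' hl1' hl2'
  -- the second sums agree
  have hsecond : ∑ j ∈ range q, S.psi (2 ^ k - l * q - j) =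
      ∑ j ∈ range q, S.psi (2 ^ k - l' * q - j) := by
    refine sum_congr rfl fun j hj => ?_
    rw [mem_range] at hj
    have hcast : ∀ l : ℕ, l + 1 ≤ 2 ^ (8 * M + 14) →
        ((2 ^ k - l * q - j : ℕ) : ℤ) = 2 ^ k - l * q - j := by
      intro l hl
      have h1 := hsize l hl
      have h2 : l * q + q ≤ 2 ^ k := by
        calc l * q + q = (l + 1) * q := by ring
          _ ≤ 2 ^ k := h1.trans hkM
      have h3 : j ≤ 2 ^ k - l * q := by omega
      have h4 : l * q ≤ 2 ^ k := by omega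
      rw [Nat.cast_sub h3, Nat.cast_sub h4]
      push_cast
      ring
    refine psi_eq hB S N hMN _ _ p (q - p * j) (2 ^ (k - N) * p - i * q)
      (2 ^ (k - N) * p - i' * q) ?_ ?_ ?_ ?_ ?_
    · exact_mod_cast hp
    · rw [hcast l hl2]
      have h1 : ((l : ℤ) * p + 1) = 2 ^ N * i := by exact_mod_cast hl
      have h2 : (2 : ℤ) ^ k = 2 ^ N * 2 ^ (k - N) := by
        rw [← pow_add]
        congr 1
        omega
      rw [h2]
      linear_combination (-(q : ℤ)) * h1
    · rw [hcast l' hl2']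
      have h1 : ((l' : ℤ) * p + 1) = 2 ^ N * i' := by exact_mod_cast hl'
      have h2 : (2 : ℤ) ^ k = 2 ^ N * 2 ^ (k - N) := by
        rw [← pow_add]
        congr 1
        omega
      rw [h2]
      linear_combination (-(q : ℤ)) * h1
    · intro h
      apply hpq
      have h1 : (p : ℤ) ∣ q := ⟨j, by linarith⟩
      exact_mod_cast h1
    · have h1 : p * q < 2 ^ (N - M) := by
        calc p * q < 2 ^ (5 * M + 9) * 2 ^ (M + 3) := Nat.mul_lt_mul'' hp2 hq2
          _ = 2 ^ (6 * M + 12) := by rw [← pow_add]; congr 1; ring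
          _ ≤ 2 ^ (N - M) := Nat.pow_le_pow_right (by norm_num) (by omega)
      have h2 := abs_second j p q _ hj (by omega) h1
      push_cast at h2
      exact h2
  -- the first sums
  have hfirst : ∀ l : ℕ, ∑ j ∈ range p, S.psi (l * p + j) =
      S.psi (l * p + 1) + ∑ j ∈ (range p).erase 1, S.psi (l * p + j) := fun l =>
    (add_sum_erase (range p) (fun j => S.psi (l * p + j)) (mem_range.2 hp1)).symm
  have hrest : ∑ j ∈ (range p).erase 1, S.psi (l * p + j) =
      ∑ j ∈ (range p).erase 1, S.psi (l' * p + j) := by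
    refine sum_congr rfl fun j hj => ?_
    rw [mem_erase, mem_range] at hj
    refine psi_eq hB S N hMN _ _ 1 (j - 1) i i' odd_one ?_ ?_ ?_ ?_
    · have h1 : ((l : ℤ) * p + 1) = 2 ^ N * i := by exact_mod_cast hl
      push_cast
      linear_combination h1
    · have h1 : ((l' : ℤ) * p + 1) = 2 ^ N * i' := by exact_mod_cast hl'
      push_cast
      linear_combination h1
    · intro h
      apply hj.1
      have h1 : (j : ℤ) = 1 := by linarith
      exact_mod_cast h1
    · have h1 : p < 2 ^ (N - M) :=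
        hp2.trans_le (Nat.pow_le_pow_right (by norm_num) (by omega))
      have h2 := abs_first j p _ hj.2 h1 hp1
      push_cast at h2
      exact h2
  -- the `J` terms
  have hmod : l * p ≡ l' * p [MOD 2 ^ N] := by
    apply Nat.ModEq.add_right_cancel' 1
    rw [hl, hl']
    exact (Nat.modEq_zero_iff_dvd.2 (dvd_mul_right _ _)).trans
      (Nat.modEq_zero_iff_dvd.2 (dvd_mul_right _ _)).symm
  obtain ⟨j1, j2⟩ := J_eq S N p (l * p) (l' * p) hMN (Nat.mul_pos hl1 (by omega))
    (Nat.mul_pos hl1' (by omega)) (by omega) hmod (2 ^ M - 1)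
  have m1 := psi_main hB S N hMN i y hi
  have m2 := psi_main hB S N hMN i' 0 hi'
  rw [hfirst, hl, m1] at e1
  rw [hfirst, hl', m2] at e2
  rw [hsecond, hrest, j1, j2] at e1
  linear_combination e1 - e2

end NGAM

theorem specNGA (hB : SpecBAS) (hF : SpecNGF) : SpecNGA := by
  intro M S hS p q k hp hq hp2 hq2 hk hpq
  by_contra hcon
  push Not at hcon
  have h0 : ∀ l, 1 ≤ l → l ≤ 2 ^ (8 * M + 14) → S.E (l * (2 ^ k * p - q)) = 0 :=
    fun l h1 h2 => zero_of_ne (hcon l h1 h2)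
  exact not_const S hS (S.beta 0) fun y _ =>
    NGAM.compare hB hF S p q k hp hq hp2 hq2 hk hpq h0 y

end Pool.Agent.Lib.MP_6ec7bd_co.LT
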