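import Pool.Agent.Lib.MP_6ec7bd_co.LT.NGX

set_option autoImplicit false

namespace Pool.Agent.Lib.MP_6ec7bd_co.LT

open Finset NGXM

namespace NGBM

variable {M : ℕ}

theorem abs_first (i p B : ℕ) (hi : i < p) (hp : p < B) (h1 : 1 < p) :
    |1 - (i : ℤ)| < B := by
  rw [abs_lt]
  constructor <;> omega

theorem abs_second (i p q B : ℕ) (hi : i < p) (hq : 1 ≤ q) (h : p * q < B) :
    |(q : ℤ) * i - p| < B := by
  have h1 : (q : ℤ) * i ≤ p * q := by
    have : q * i ≤ p * q := by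
      rw [mul_comm p q]
      exact Nat.mul_le_mul_left q hi.le
    exact_mod_cast this
  have h2 : (p : ℤ) * q < B := by exact_mod_cast h
  have h3 : (p : ℤ) ≤ p * q := by
    have : p ≤ p * q := Nat.le_mul_of_pos_right p hq
    exact_mod_cast this
  have h4 : (0 : ℤ) ≤ (q : ℤ) * i := by positivity
  have h5 : (0 : ℤ) ≤ (p : ℤ) := by positivity
  rw [abs_lt]
  constructor <;> linarith

/-- The value of `beta` is the same at `2^M - 1 - y` and at `2^M - 1`. -/
theorem compare (hB : SpecBAS) (hF : SpecNGF) (S : Sys M) (p q k : ℕ) (hp : Odd p) (hq : Odd q)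
    (hp2 : p < 2 ^ (5 * M + 9)) (hq2 : q < 2 ^ (M + 3)) (hk : 10 * M + 18 ≤ k) (hpq : ¬ q ∣ p)
    (h0 : ∀ l, 1 ≤ l → l ≤ 2 ^ (8 * M + 14) → S.E (l * (2 ^ k * p - q)) = 0) (y : ℕ)
    (hy : y < 2 ^ M) :
    S.beta (2 ^ M - 1 - y) = S.beta (2 ^ M - 1 - 0) := by
  have hq1 : 1 < q := by
    obtain ⟨t, ht⟩ := hq
    rcases Nat.eq_zero_or_pos t with h | h
    · exact absurd (by rw [ht, h]; exact one_dvd p) hpq
    · omega
  have hp1 : 1 ≤ p := hp.pos
  set N : ℕ := 7 * M + 13 with hN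
  have hMN : M ≤ N := by omega
  obtain ⟨i, l, hl, hi, hl1, hl2, hib⟩ := crt M N q hq hq1 (by omega) y
  obtain ⟨i', l', hl', hi', hl1', hl2', hib'⟩ := crt M N q hq hq1 (by omega) 0
  have hexp : N + M + 1 = 8 * M + 14 := by omega
  rw [hexp] at hl2 hl2'
  -- sizes
  have hsize : ∀ l : ℕ, l + 1 ≤ 2 ^ (8 * M + 14) → (l + 1) * q ≤ 2 ^ (k - M) := by
    intro l hl
    calc (l + 1) * q ≤ 2 ^ (8 * M + 14) * 2 ^ (M + 3) := Nat.mul_le_mul hl hq2.le
      _ = 2 ^ (9 * M + 17) := by rw [← pow_add]; congr 1; ring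
      _ ≤ 2 ^ (k - M) := Nat.pow_le_pow_right (by norm_num) (by omega)
  have hkM : 2 ^ (k - M) ≤ 2 ^ k := Nat.pow_le_pow_right (by norm_num) (by omega)
  have hform : ∀ l : ℕ, 1 ≤ l → l + 1 ≤ 2 ^ (8 * M + 14) →
      (∑ i ∈ range p, S.psi (l * p + i)) + (∑ i ∈ range q, S.psi (2 ^ k - l * q - i)) +
        S.J ((l * p + p - 1) % 2 ^ M) (2 ^ M - 1) + S.J ((l * p - 1) % 2 ^ M) (2 ^ M - 1) = 0 :=
    fun l hl hl2 => hF M S p q k l (by omega) (by omega) hl (by omega) (hsize l hl2)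
      (h0 l hl (by omega)) (h0 (l + 1) (by omega) hl2)
  have e1 := hform l hl1 hl2
  have e2 := hform l' hl1' hl2'
  -- the first sums agree
  have hfirst : ∑ j ∈ range p, S.psi (l * p + j) = ∑ j ∈ range p, S.psi (l' * p + j) := by
    refine sum_congr rfl fun j hj => ?_
    rw [mem_range] at hj
    refine psi_eq hB S N hMN _ _ q (q * j - p) (i * p) (i' * p) ?_ ?_ ?_ ?_ ?_
    · exact_mod_cast hq
    · have h1 : ((l : ℤ) * q + 1) = 2 ^ N * i := by exact_mod_cast hl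
      push_cast
      linear_combination (p : ℤ) * h1
    · have h1 : ((l' : ℤ) * q + 1) = 2 ^ N * i' := by exact_mod_cast hl'
      push_cast
      linear_combination (p : ℤ) * h1
    · intro h
      apply hpq
      have h1 : (q : ℤ) ∣ p := ⟨j, by linarith⟩
      exact_mod_cast h1
    · have h1 : p * q < 2 ^ (N - M) := by
        calc p * q < 2 ^ (5 * M + 9) * 2 ^ (M + 3) := Nat.mul_lt_mul'' hp2 hq2
          _ = 2 ^ (6 * M + 12) := by rw [← pow_add]; congr 1; ring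
          _ ≤ 2 ^ (N - M) := Nat.pow_le_pow_right (by norm_num) (by omega)
      have h2 := abs_second j p q _ hj (by omega) h1
      push_cast at h2
      exact h2
  -- the second sums
  have hsecond : ∀ l : ℕ, ∑ j ∈ range q, S.psi (2 ^ k - l * q - j) =
      S.psi (2 ^ k - l * q - 1) + ∑ j ∈ (range q).erase 1, S.psi (2 ^ k - l * q - j) := fun l =>
    (add_sum_erase (range q) (fun j => S.psi (2 ^ k - l * q - j)) (mem_range.2 hq1)).symm
  have hrest : ∑ j ∈ (range q).erase 1, S.psi (2 ^ k - l * q - j) =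
      ∑ j ∈ (range q).erase 1, S.psi (2 ^ k - l' * q - j) := by
    refine sum_congr rfl fun j hj => ?_
    rw [mem_erase, mem_range] at hj
    have hcast : ∀ l : ℕ, l + 1 ≤ 2 ^ (8 * M + 14) →
        ((2 ^ k - l * q - j : ℕ) : ℤ) = 2 ^ k - l * q - j := by
      intro l hl
      have h1 := hsize l hl
      have h2 : l * q + q ≤ 2 ^ k := by
        calc l * q + q = (l + 1) * q := by ring
          _ ≤ 2 ^ k := h1.trans hkM
      have h3 : j ≤ 2 ^ k - l * q := by omega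
      have h4 : l * q ≤ 2 ^ k := by omega
      rw [Nat.cast_sub h3, Nat.cast_sub h4]
      push_cast
      ring
    refine psi_eq hB S N hMN _ _ 1 (1 - j) (2 ^ (k - N) - i) (2 ^ (k - N) - i') odd_one
      ?_ ?_ ?_ ?_
    · rw [hcast l hl2]
      have h1 : ((l : ℤ) * q + 1) = 2 ^ N * i := by exact_mod_cast hl
      have h2 : (2 : ℤ) ^ k = 2 ^ N * 2 ^ (k - N) := by
        rw [← pow_add]
        congr 1
        omega
      rw [h2]
      linear_combination (-1 : ℤ) * h1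
    · rw [hcast l' hl2']
      have h1 : ((l' : ℤ) * q + 1) = 2 ^ N * i' := by exact_mod_cast hl'
      have h2 : (2 : ℤ) ^ k = 2 ^ N * 2 ^ (k - N) := by
        rw [← pow_add]
        congr 1
        omega
      rw [h2]
      linear_combination (-1 : ℤ) * h1
    · intro h
      apply hj.1
      have h1 : (j : ℤ) = 1 := by linarith
      exact_mod_cast h1
    · have h1 : q < 2 ^ (N - M) :=
        hq2.trans_le (Nat.pow_le_pow_right (by norm_num) (by omega))
      have h2 := abs_first j q _ hj.2 h1 hq1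
      push_cast at h2
      exact h2
  -- the main term
  have hmain : ∀ (y i l : ℕ), y < 2 ^ M → l * q + 1 = 2 ^ N * i →
      i ≡ 2 * y + 1 [MOD 2 ^ (M + 1)] → i < 2 ^ (M + 1) * q →
      S.psi (2 ^ k - l * q - 1) = S.beta (2 ^ M - 1 - y) + S.E (2 ^ N - 1) := by
    intro y i l hy hl hi hib
    have h1 : i ≤ 2 ^ (k - N) := by
      calc i ≤ 2 ^ (M + 1) * q := hib.le
        _ ≤ 2 ^ (M + 1) * 2 ^ (M + 3) := Nat.mul_le_mul_left _ hq2.le
        _ = 2 ^ (2 * M + 4) := by rw [← pow_add]; congr 1; ring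
        _ ≤ 2 ^ (k - N) := Nat.pow_le_pow_right (by norm_num) (by omega)
    have h2 : 2 ^ k - l * q - 1 = 2 ^ N * (2 ^ (k - N) - i) := by
      rw [Nat.sub_sub, hl, Nat.mul_sub, ← pow_add, show N + (k - N) = k by omega]
    rw [h2]
    refine psi_main hB S N hMN _ _ ?_
    apply Nat.ModEq.add_right_cancel' i
    rw [Nat.sub_add_cancel h1]
    have h3 : (2 : ℕ) ^ (k - N) ≡ 0 [MOD 2 ^ (M + 1)] :=
      Nat.modEq_zero_iff_dvd.2 (pow_dvd_pow 2 (by omega))
    have h4 : 2 * (2 ^ M - 1 - y) + 1 + i ≡ 0 [MOD 2 ^ (M + 1)] := by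
      refine (Nat.ModEq.add_left _ hi).trans ?_
      have h5 : 2 * (2 ^ M - 1 - y) + 1 + (2 * y + 1) = 2 ^ (M + 1) := by
        rw [pow_succ]
        omega
      rw [h5]
      exact Nat.modEq_zero_iff_dvd.2 dvd_rfl
    exact h3.trans h4.symm
  -- the `J` terms
  have hmod : l * p ≡ l' * p [MOD 2 ^ N] := by
    have hcop : Nat.gcd (2 ^ N) q = 1 := Nat.Coprime.pow_left N (Nat.coprime_two_left.2 hq)
    apply Nat.ModEq.cancel_left_of_coprime hcop
    apply Nat.ModEq.add_right_cancel' p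
    have h1 : ∀ l i : ℕ, l * q + 1 = 2 ^ N * i → q * (l * p) + p = 2 ^ N * (i * p) := by
      intro l i h
      calc q * (l * p) + p = (l * q + 1) * p := by ring
        _ = 2 ^ N * (i * p) := by rw [h]; ring
    rw [h1 l i hl, h1 l' i' hl']
    exact (Nat.modEq_zero_iff_dvd.2 (dvd_mul_right _ _)).trans
      (Nat.modEq_zero_iff_dvd.2 (dvd_mul_right _ _)).symm
  obtain ⟨j1, j2⟩ := J_eq S N p (l * p) (l' * p) hMN (Nat.mul_pos hl1 hp1)
    (Nat.mul_pos hl1' hp1) hp1 hmod (2 ^ M - 1)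
  have m1 := hmain y i l hy hl hi hib
  have m2 := hmain 0 i' l' (Nat.two_pow_pos M) hl' hi' hib'
  rw [hfirst, hsecond, m1, hrest, j1, j2] at e1
  rw [hsecond, m2] at e2
  linear_combination e1 - e2

end NGBM

theorem specNGB (hB : SpecBAS) (hF : SpecNGF) : SpecNGB := by
  intro M S hS p q k hp hq hp2 hq2 hk hpq
  by_contra hcon
  push Not at hcon
  have h0 : ∀ l, 1 ≤ l → l ≤ 2 ^ (8 * M + 14) → S.E (l * (2 ^ k * p - q)) = 0 :=
    fun l h1 h2 => zero_of_ne (hcon l h1 h2)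
  refine not_const S hS (S.beta (2 ^ M - 1 - 0)) fun y hy => ?_
  have h1 := NGBM.compare hB hF S p q k hp hq hp2 hq2 hk hpq h0 (2 ^ M - 1 - y) (by omega)
  rwa [show 2 ^ M - 1 - (2 ^ M - 1 - y) = y by omega] at h1

end Pool.Agent.Lib.MP_6ec7bd_co.LT
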