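import Pool.Agent.Lib.MP_6ec7bd_co.LT.Spec

/-!
# Module NGD: `d = (2^k - 1) p` for patterns of length two (helper52)
-/

set_option autoImplicit false

namespace Pool.Agent.Lib.MP_6ec7bd_co.LT

open Finset

namespace NGDM

/-- In characteristic two. -/
theorem two_zero (a : ZMod 2) : a + a = 0 := CharTwo.add_self_eq_zero a

theorem sym (S : Sys 1) (hE2 : ∀ n, S.E (2 * n) = S.E n)
    (hE3 : ∀ n, S.E (2 * n + 1) = S.E n + 1 + (n : ZMod 2)) (h1 : S.E 1 = 1) :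
    ∀ k m : ℕ, m < 2 ^ (k + 1) →
      S.E m + S.E (2 ^ (k + 1) - 1 - m) = 1 + ((m / 2 ^ k : ℕ) : ZMod 2) + (m : ZMod 2) := by
  intro k
  induction k with
  | zero =>
    intro m hm
    have h0 := S.E_zero
    have : m = 0 ∨ m = 1 := by
      rw [zero_add, pow_one] at hm
      omega
    rcases this with rfl | rfl
    · simp [h0, h1]
    · simp only [zero_add, pow_one, pow_zero, Nat.div_one, Nat.cast_one]
      rw [show (2 - 1 - 1 : ℕ) = 0 from rfl, h0, h1]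
      decide
  | succ k ih =>
    intro m hm
    have hpos : 0 < 2 ^ k := by positivity
    have hp1 : 2 ^ (k + 1) = 2 * 2 ^ k := by rw [pow_succ]; ring
    have hp2 : 2 ^ (k + 1 + 1) = 2 * 2 ^ (k + 1) := by rw [pow_succ]; ring
    obtain ⟨n, b, hb, rfl⟩ : ∃ n b, b < 2 ∧ m = 2 * n + b :=
      ⟨m / 2, m % 2, Nat.mod_lt _ (by norm_num), by omega⟩
    have hn : n < 2 ^ (k + 1) := by omega
    have hi := ih n hn
    have hq : (2 * n + b) / 2 ^ (k + 1) = n / 2 ^ k := by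
      rw [hp1, ← Nat.div_div_eq_div_mul]
      congr 1
      omega
    rw [hq]
    have hcast : ((2 ^ (k + 1) - 1 - n : ℕ) : ZMod 2) = 1 + (n : ZMod 2) := by
      have h2 : ((2 ^ (k + 1) - 1 - n : ℕ) : ZMod 2) + ((1 + n : ℕ) : ZMod 2) = 0 := by
        rw [← Nat.cast_add]
        have h3 : 2 ^ (k + 1) - 1 - n + (1 + n) = 2 * 2 ^ k := by omega
        rw [h3, Nat.cast_mul]
        have : ((2 : ℕ) : ZMod 2) = 0 := by decide
        rw [this, zero_mul]
      have h4 := eq_neg_of_add_eq_zero_left h2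
      rw [h4, ZMod.neg_eq_self_mod_two]
      push_cast
      rfl
    have hb' : b = 0 ∨ b = 1 := by omega
    rcases hb' with rfl | rfl
    · have h5 : 2 ^ (k + 1 + 1) - 1 - (2 * n + 0) = 2 * (2 ^ (k + 1) - 1 - n) + 1 := by omega
      rw [h5, add_zero, hE2, hE3, hcast]
      have h6 : S.E n + (S.E (2 ^ (k + 1) - 1 - n) + 1 + (1 + (n : ZMod 2))) =
          (S.E n + S.E (2 ^ (k + 1) - 1 - n)) + (1 + 1) + (n : ZMod 2) := by ring
      rw [h6, hi, two_zero 1, add_zero, add_assoc, two_zero (n : ZMod 2), add_zero]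
      have h7 : ((2 * n : ℕ) : ZMod 2) = 0 := by
        push_cast
        rw [two_mul, two_zero]
      rw [h7, add_zero]
    · have h5 : 2 ^ (k + 1 + 1) - 1 - (2 * n + 1) = 2 * (2 ^ (k + 1) - 1 - n) := by omega
      rw [h5, hE2, hE3]
      have h6 : S.E n + 1 + (n : ZMod 2) + S.E (2 ^ (k + 1) - 1 - n) =
          (S.E n + S.E (2 ^ (k + 1) - 1 - n)) + 1 + (n : ZMod 2) := by ring
      rw [h6, hi]
      have h7 : ((2 * n + 1 : ℕ) : ZMod 2) = 1 := by
        push_cast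
        rw [two_mul, two_zero, zero_add]
      rw [h7]
      have h8 : 1 + ((n / 2 ^ k : ℕ) : ZMod 2) + (n : ZMod 2) + 1 + (n : ZMod 2) =
          1 + ((n / 2 ^ k : ℕ) : ZMod 2) + 1 + ((n : ZMod 2) + n) := by ring
      rw [h8, two_zero, add_zero]

end NGDM

theorem specNGD (hBAS : SpecBAS) : SpecNGD := by
  intro S hS h1 p k hp hplt hk
  obtain ⟨hJ0, h0J, hshift, -, -, -, -⟩ := hBAS 1 S
  have hJ10 : S.J 1 0 = 0 := hJ0 1 (by norm_num)
  have hJ00 : S.J 0 0 = 0 := hJ0 0 (by norm_num)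
  have hJ01 : S.J 0 1 = 0 := h0J 1 (by norm_num)
  have hJ11 : S.J 1 1 = 1 := by
    have h2 : ∑ y ∈ range (2 ^ 1), S.beta y = 1 := hS
    have hb0 : S.beta 0 = 1 := by
      show S.E 1 + S.J 0 1 + S.J 0 0 = 1
      rw [h1, hJ01, hJ00, add_zero, add_zero]
    have hb1 : S.beta 1 = 1 + S.J 1 1 := by
      show S.E 1 + S.J 1 1 + S.J 1 0 = 1 + S.J 1 1
      rw [h1, hJ10, add_zero]
    rw [pow_one, sum_range_succ, sum_range_one, hb0, hb1] at h2
    have h3 : (1 : ZMod 2) + (1 + S.J 1 1) = (1 + 1) + S.J 1 1 := by ring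
    rw [h3, NGDM.two_zero, zero_add] at h2
    exact h2
  have hE2 : ∀ n, S.E (2 * n) = S.E n := fun n => by
    have := hshift 1 n
    rwa [pow_one] at this
  have hE3 : ∀ n : ℕ, S.E (2 * n + 1) = S.E n + 1 + (n : ZMod 2) := by
    intro n
    have h2 := S.split 1 n 1 (by norm_num)
    simp only [pow_one] at h2
    rw [h2, h1]
    congr 1
    rcases Nat.mod_two_eq_zero_or_one n with h | h
    · have h3 : (n : ZMod 2) = 0 := (ZMod.natCast_eq_zero_iff n 2).mpr (Nat.dvd_of_mod_eq_zero h)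
      rw [h, h3]
      exact hJ01
    · have h3 : (n : ZMod 2) = 1 := by
        rw [← Nat.div_add_mod n 2, h]
        push_cast
        rw [show (2 : ZMod 2) = 0 from by decide, zero_mul, zero_add]
      rw [h, h3]
      exact hJ11
  have hpos : 1 ≤ p := hp.pos
  obtain ⟨j, rfl⟩ : ∃ j, k = j + 1 := ⟨k - 1, by omega⟩
  have hj : 2 ^ 14 ≤ 2 ^ j := Nat.pow_le_pow_right (by norm_num) (by omega)
  have hjj : 2 ^ (j + 1) = 2 * 2 ^ j := by rw [pow_succ]; ring
  have h4 := NGDM.sym S hE2 hE3 h1 j (p - 1) (by omega)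
  have h5 : (p - 1) / 2 ^ j = 0 := Nat.div_eq_of_lt (by omega)
  have h6 : ((p - 1 : ℕ) : ZMod 2) = 0 := by
    refine (ZMod.natCast_eq_zero_iff _ 2).mpr ?_
    obtain ⟨r, hr⟩ := hp
    exact ⟨r, by omega⟩
  rw [h5, h6, Nat.cast_zero, add_zero, add_zero] at h4
  have h7 : 2 ^ (j + 1) - 1 - (p - 1) = 2 ^ (j + 1) - p := by omega
  rw [h7] at h4
  have h8 : 2 ^ (j + 1) * p - p = 2 ^ (j + 1) * (p - 1) + (2 ^ (j + 1) - p) := by
    obtain ⟨r, hr⟩ : ∃ r, p = r + 1 := ⟨p - 1, by omega⟩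
    subst hr
    rw [Nat.add_sub_cancel, Nat.mul_add, Nat.mul_one]
    omega
  have h9 := S.split (j + 1) (p - 1) (2 ^ (j + 1) - p) (by omega)
  rw [h8, h9, h4]
  have h10 : (p - 1) % 2 ^ 1 = 0 := by
    rw [pow_one]
    obtain ⟨r, hr⟩ := hp
    omega
  have h11 : 2 ^ 1 * (2 ^ (j + 1) - p) / 2 ^ (j + 1) < 2 ^ 1 := by
    rw [Nat.div_lt_iff_lt_mul (by positivity)]
    apply Nat.mul_lt_mul_of_pos_left _ (by norm_num)
    omega
  rw [h10, h0J _ h11, add_zero]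

end Pool.Agent.Lib.MP_6ec7bd_co.LT
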