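import Pool.Agent.Lib.MP_6ec7bd_co.LT.Spec

/-!
# Module NGF: the formula for `d = 2^k p - q` (helper52)
-/

set_option autoImplicit false

namespace Pool.Agent.Lib.MP_6ec7bd_co.LT

open Finset

namespace NGFM

theorem quot (M k r : ℕ) (hM : M ≤ k) (hr : 1 ≤ r) (hr2 : r ≤ 2 ^ (k - M)) :
    2 ^ M * (2 ^ k - r) / 2 ^ k = 2 ^ M - 1 := by
  have h1 : 2 ^ M * r ≤ 2 ^ k := by
    calc 2 ^ M * r ≤ 2 ^ M * 2 ^ (k - M) := Nat.mul_le_mul_left _ hr2
      _ = 2 ^ k := by rw [← pow_add]; congr 1; omega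
  have h2 : 0 < 2 ^ M * r := by positivity
  have h3 : 0 < 2 ^ M := by positivity
  have h4 : 0 < 2 ^ k := by positivity
  have h5 : 2 ^ M * (2 ^ k - r) = 2 ^ M * 2 ^ k - 2 ^ M * r := Nat.mul_sub _ _ _
  have h6 : (2 ^ M - 1) * 2 ^ k = 2 ^ M * 2 ^ k - 2 ^ k := by
    rw [Nat.sub_mul, one_mul]
  have h7 : 2 ^ k ≤ 2 ^ M * 2 ^ k := Nat.le_mul_of_pos_left _ h3
  apply Nat.div_eq_of_lt_le
  · rw [h6, h5]
    omega
  · have h8 : (2 ^ M - 1 + 1) * 2 ^ k = 2 ^ M * 2 ^ k := by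
      rw [Nat.sub_add_cancel h3]
    rw [h8, h5]
    omega

theorem form {M : ℕ} (S : Sys M) (p q k l : ℕ) (hp : 1 ≤ p) (hq : 1 ≤ q) (hl : 1 ≤ l)
    (hMk : M ≤ k) (hlq : l * q ≤ 2 ^ (k - M)) :
    S.E (l * (2 ^ k * p - q)) =
      S.E (l * p - 1) + S.E (2 ^ k - l * q) + S.J ((l * p - 1) % 2 ^ M) (2 ^ M - 1) := by
  have h1 : 1 ≤ l * q := Nat.mul_pos hl hq
  have h2 : 1 ≤ l * p := Nat.mul_pos hl hp
  have h3 : 2 ^ (k - M) ≤ 2 ^ k := Nat.pow_le_pow_right (by norm_num) (by omega)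
  have h4 : l * (2 ^ k * p - q) = 2 ^ k * (l * p - 1) + (2 ^ k - l * q) := by
    obtain ⟨r, hr⟩ : ∃ r, l * p = r + 1 := ⟨l * p - 1, by omega⟩
    have h5 : l * (2 ^ k * p - q) = 2 ^ k * (l * p) - l * q := by
      rw [Nat.mul_sub]
      congr 1
      ring
    rw [h5, hr, Nat.add_sub_cancel, Nat.mul_add, Nat.mul_one]
    omega
  have h6 : 2 ^ k - l * q < 2 ^ k := by
    have : 0 < 2 ^ k := by positivity
    omega
  rw [h4, S.split k (l * p - 1) (2 ^ k - l * q) h6, quot M k (l * q) hMk h1 hlq]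

theorem ioc_shift (f : ℕ → ZMod 2) (a n : ℕ) (ha : 1 ≤ a) :
    ∑ m ∈ Ioc (a - 1) (a + n - 1), f m = ∑ i ∈ range n, f (a + i) := by
  have h : Ioc (a - 1) (a + n - 1) = Ico a (a + n) := by
    ext x
    simp only [mem_Ioc, mem_Ico]
    omega
  rw [h, Finset.sum_Ico_eq_sum_range]
  congr 1
  congr 1
  omega

theorem ioc_down (f : ℕ → ZMod 2) (b n : ℕ) (hn : n ≤ b) :
    ∑ m ∈ Ioc (b - n) b, f m = ∑ i ∈ range n, f (b - i) := by
  symm
  refine Finset.sum_bij (fun i _ => b - i) ?_ ?_ ?_ ?_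
  · intro i hi
    rw [mem_range] at hi
    rw [mem_Ioc]
    omega
  · intro i hi j hj h
    rw [mem_range] at hi hj
    omega
  · intro m hm
    rw [mem_Ioc] at hm
    exact ⟨b - m, by rw [mem_range]; omega, by omega⟩
  · intro i _
    rfl

end NGFM

theorem specNGF (hBAS : SpecBAS) : SpecNGF := by
  intro M S p q k l hp hq hl hMk hlq h0 h1
  obtain ⟨-, -, -, -, -, htel, -⟩ := hBAS M S
  have hlq' : l * q + q ≤ 2 ^ (k - M) := by
    have : (l + 1) * q = l * q + q := by ring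
    omega
  have hp1 : 1 ≤ l * p := Nat.mul_pos hl hp
  have e0 := NGFM.form S p q k l hp hq hl hMk (by omega)
  have e1 := NGFM.form S p q k (l + 1) hp hq (by omega) hMk hlq
  rw [h0] at e0
  rw [h1] at e1
  have h2 : (l + 1) * p - 1 = l * p + p - 1 := by
    have : (l + 1) * p = l * p + p := by ring
    omega
  have h3 : 2 ^ k - (l + 1) * q = 2 ^ k - l * q - q := by
    have : (l + 1) * q = l * q + q := by ring
    omega
  rw [h2, h3] at e1
  have h4 : 2 ^ (k - M) ≤ 2 ^ k := Nat.pow_le_pow_right (by norm_num) (by omega)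
  have t1 := htel (l * p - 1) (l * p + p - 1) (by omega)
  have t2 := htel (2 ^ k - l * q - q) (2 ^ k - l * q) (by omega)
  rw [NGFM.ioc_shift _ _ _ hp1] at t1
  rw [NGFM.ioc_down _ _ _ (by omega)] at t2
  rw [← t1, ← t2]
  have h5 : (0 : ZMod 2) + 0 = (S.E (l * p - 1) + S.E (2 ^ k - l * q) +
      S.J ((l * p - 1) % 2 ^ M) (2 ^ M - 1)) + (S.E (l * p + p - 1) + S.E (2 ^ k - l * q - q) +
      S.J ((l * p + p - 1) % 2 ^ M) (2 ^ M - 1)) := by
    rw [← e0, ← e1]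
  rw [add_zero] at h5
  rw [h5]
  ring

end Pool.Agent.Lib.MP_6ec7bd_co.LT
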