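import Pool.Agent.Lib.MP_6ec7bd_co.LT.Spec

/-!
# Module OCC (LT, MP_6ec7bd_co): words and numbers
-/

namespace Pool.Agent.Lib.MP_6ec7bd_co.LT

open Finset

namespace OCCM

theorem occ_snoc (v w : List Bool) (b : Bool) :
    occ v (w ++ [b]) = occ v w + if v <:+ (w ++ [b]) then 1 else 0 := by
  unfold occ
  rw [List.inits_append, List.countP_append]
  simp

theorem occ_nil (v : List Bool) (hv : v ≠ []) : occ v [] = 0 := by
  simp [occ, hv]

theorem snoc_suffix (a b : List Bool) (x y : Bool) :
    a ++ [x] <:+ b ++ [y] ↔ x = y ∧ a <:+ b := by
  rw [← List.reverse_prefix]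
  simp [List.cons_prefix_cons, List.reverse_prefix]

theorem val_nil : val [] = 0 := rfl

theorem val_snoc (w : List Bool) (b : Bool) : val (w ++ [b]) = 2 * val w + b.toNat := by
  simp [val, List.foldl_append]

theorem toNat_le (b : Bool) : b.toNat ≤ 1 := by cases b <;> simp

theorem val_lt (v : List Bool) : val v < 2 ^ v.length := by
  induction v using List.reverseRecOn with
  | nil => simp [val_nil]
  | append_singleton v b ih =>
    rw [val_snoc, List.length_append, List.length_singleton, pow_succ]
    have := toNat_le b
    omega

theorem val_append (y x : List Bool) : val (y ++ x) = 2 ^ x.length * val y + val x := by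
  induction x using List.reverseRecOn with
  | nil => simp [val_nil]
  | append_singleton x b ih =>
    rw [← List.append_assoc, val_snoc, val_snoc, ih, List.length_append, List.length_singleton,
      pow_succ]
    ring

theorem val_cons (a : Bool) (v : List Bool) : val (a :: v) = 2 ^ v.length * a.toNat + val v := by
  have h := val_append [a] v
  rw [List.singleton_append] at h
  rw [h]
  have : val [a] = a.toNat := by simp [val]
  rw [this]

theorem two_mul_add_mod (a c n : ℕ) (hc : c ≤ 1) :
    (2 * a + c) % 2 ^ (n + 1) = 2 * (a % 2 ^ n) + c := by
  have h1 : a = 2 ^ n * (a / 2 ^ n) + a % 2 ^ n := (Nat.div_add_mod a (2 ^ n)).symm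
  have h2 : a % 2 ^ n < 2 ^ n := Nat.mod_lt _ (by positivity)
  have h3 : 2 * a + c = 2 ^ (n + 1) * (a / 2 ^ n) + (2 * (a % 2 ^ n) + c) := by
    rw [pow_succ]
    nlinarith
  rw [h3, Nat.mul_add_mod]
  apply Nat.mod_eq_of_lt
  rw [pow_succ]
  omega

theorem suffix_iff (v : List Bool) : ∀ w : List Bool,
    v <:+ w ↔ v.length ≤ w.length ∧ val w % 2 ^ v.length = val v := by
  induction v using List.reverseRecOn with
  | nil => intro w; simp [val_nil, Nat.mod_one]
  | append_singleton v b ih =>
    intro w
    rcases List.eq_nil_or_concat w with rfl | ⟨w', c, rfl⟩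
    · simp
    · rw [List.concat_eq_append, snoc_suffix, ih, val_snoc, val_snoc, List.length_append,
        List.length_append, List.length_singleton, List.length_singleton,
        two_mul_add_mod _ _ _ (toNat_le c)]
      have h1 : c.toNat = b.toNat ↔ b = c := by cases b <;> cases c <;> simp
      have hb := toNat_le b
      have hc := toNat_le c
      constructor
      · rintro ⟨rfl, h2, h3⟩
        omega
      · rintro ⟨h2, h3⟩
        have h4 : c.toNat = b.toNat := by omega
        exact ⟨h1.1 h4, by omega, by omega⟩

theorem occ_count (v : List Bool) (hv : v ≠ []) (w : List Bool) :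
    occ v w = ((range w.length).filter
      (fun s => s + v.length ≤ w.length ∧ val w / 2 ^ s % 2 ^ v.length = val v)).card := by
  induction w using List.reverseRecOn with
  | nil => simp [occ_nil v hv]
  | append_singleton w b ih =>
    rw [occ_snoc, ih, card_filter, card_filter, List.length_append, List.length_singleton,
      sum_range_succ']
    congr 1
    · apply sum_congr rfl
      intro s _
      have h1 : val (w ++ [b]) / 2 ^ (s + 1) = val w / 2 ^ s := by
        rw [val_snoc, pow_succ', ← Nat.div_div_eq_div_mul]
        congr 1
        have := toNat_le b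
        omega
      rw [h1]
      have h2 : s + v.length ≤ w.length ↔ s + 1 + v.length ≤ w.length + 1 := by omega
      simp only [h2]
    · have h := suffix_iff v (w ++ [b])
      rw [List.length_append, List.length_singleton] at h
      have h2 : (0 + v.length ≤ w.length + 1 ∧
          val (w ++ [b]) / 2 ^ 0 % 2 ^ v.length = val v) ↔ v <:+ w ++ [b] := by
        rw [h, pow_zero, Nat.div_one, Nat.zero_add]
      simp only [h2]

theorem lt_iff : ∀ v w : List Bool, v.length = w.length → (v < w ↔ val v < val w) := by
  intro v
  induction v with
  | nil =>
    intro w hw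
    have : w = [] := List.length_eq_zero_iff.1 hw.symm
    subst this
    simp
  | cons a v ih =>
    intro w hw
    rcases w with _ | ⟨b, w⟩
    · simp at hw
    · have hl : v.length = w.length := by simpa using hw
      rw [List.cons_lt_cons_iff, val_cons, val_cons, ih w hl, hl]
      have h1 := val_lt v
      have h2 := val_lt w
      rw [hl] at h1
      rcases a with _ | _ <;> rcases b with _ | _
      · simp
      · simp only [Bool.toNat_false, Bool.toNat_true, mul_zero, mul_one, zero_add]
        constructor
        · intro _
          omega
        · intro _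
          exact Or.inl (by decide)
      · simp only [Bool.toNat_false, Bool.toNat_true, mul_zero, mul_one, zero_add]
        constructor
        · rintro (h | ⟨h, _⟩)
          · exact absurd h (by decide)
          · exact absurd h (by decide)
        · intro h
          omega
      · simp

theorem exists_word : ∀ n m : ℕ, m < 2 ^ n → ∃ v : List Bool, v.length = n ∧ val v = m := by
  intro n
  induction n with
  | zero =>
    intro m hm
    exact ⟨[], rfl, by rw [val_nil]; simp at hm; omega⟩
  | succ n ih =>
    intro m hm
    rw [pow_succ] at hm
    obtain ⟨v, h1, h2⟩ := ih (m / 2) (by omega)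
    refine ⟨v ++ [decide (m % 2 = 1)], by simp [h1], ?_⟩
    rw [val_snoc, h2]
    rcases Nat.mod_two_eq_zero_or_one m with h | h
    · simp [h]; omega
    · simp [h]; omega

theorem takeWhile_split (l : List Bool) (h : true ∈ l) :
    ∃ t, l = List.replicate (l.takeWhile (fun b => !b)).length false ++ true :: t := by
  induction l with
  | nil => simp at h
  | cons a l ih =>
    cases a with
    | true => exact ⟨l, by simp⟩
    | false =>
      obtain ⟨t, ht⟩ := ih (by simpa using h)
      refine ⟨t, ?_⟩
      simp only [List.takeWhile_cons, Bool.not_false, if_true, List.length_cons,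
        List.replicate_succ, List.cons_append]
      exact congrArg _ ht

theorem val_replicate (n : ℕ) : val (List.replicate n false) = 0 := by
  induction n with
  | zero => rfl
  | succ n ih => rw [List.replicate_succ', val_snoc, ih]; rfl

theorem trail_facts (v : List Bool) (hv : true ∈ v) :
    trail v < v.length ∧ ∃ o, Odd o ∧ val v = 2 ^ trail v * o := by
  obtain ⟨t, ht⟩ := takeWhile_split v.reverse (by simpa using hv)
  change v.reverse = List.replicate (trail v) false ++ true :: t at ht
  have h1 : v = (t.reverse ++ [true]) ++ List.replicate (trail v) false := by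
    have := congrArg List.reverse ht
    simpa using this
  constructor
  · have := congrArg List.length h1
    simp at this
    omega
  · refine ⟨2 * val t.reverse + 1, ⟨_, rfl⟩, ?_⟩
    conv_lhs => rw [h1]
    rw [val_append, val_replicate, val_snoc, List.length_replicate]
    simp

theorem lead_facts (v : List Bool) (hv : true ∈ v) :
    lead v < v.length ∧ 2 ^ (v.length - lead v - 1) ≤ val v ∧ val v < 2 ^ (v.length - lead v) := by
  obtain ⟨t, ht⟩ := takeWhile_split v hv
  change v = List.replicate (lead v) false ++ true :: t at ht
  have h1 : v.length = lead v + (t.length + 1) := by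
    have := congrArg List.length ht
    simpa using this
  have h2 : val v = 2 ^ t.length + val t := by
    conv_lhs => rw [ht]
    rw [val_append, val_replicate, val_cons]
    simp
  have h3 := val_lt t
  refine ⟨by omega, ?_, ?_⟩
  · rw [h2, show v.length - lead v - 1 = t.length by omega]
    omega
  · rw [h2, show v.length - lead v = t.length + 1 by omega, pow_succ]
    omega

end OCCM

theorem specOCC : SpecOCC :=
  ⟨fun v w hv => OCCM.occ_count v hv w, OCCM.val_lt, OCCM.lt_iff, OCCM.exists_word,
    OCCM.val_append,
    fun v hv => ⟨(OCCM.trail_facts v hv.2).1, (OCCM.lead_facts v hv.2).1,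
      (OCCM.trail_facts v hv.2).2⟩,
    fun v hv => (OCCM.lead_facts v hv.2).2⟩

end Pool.Agent.Lib.MP_6ec7bd_co.LT
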