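import Pool.Agent.Lib.MP_6ec7bd_co.LT.Spec

/-! # ODD: assembly for odd `d` -/

set_option autoImplicit false

namespace Pool.Agent.Lib.MP_6ec7bd_co.LT

open Finset

namespace ODDM

lemma eq_zero_of_ne_one : ∀ a : ZMod 2, a ≠ 1 → a = 0 := by decide

/-- The case of one subtracted small number. -/
lemma neg (hNGA : SpecNGA) (hNGB : SpecNGB) (hNGC : SpecNGC) (hNGD : SpecNGD)
    (M : ℕ) (S : Sys M) (hS : S.SumOne) (hM1 : M = 1 → S.E 1 = 1) (p q k : ℕ)
    (hp : Odd p) (hq : Odd q) (hp' : p < 2 ^ (5 * M + 9)) (hq' : q < 2 ^ (M + 3))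
    (hk : 10 * M + 18 ≤ k) :
    ∃ l, 1 ≤ l ∧ l ≤ 2 ^ (8 * M + 14) ∧ S.E (l * (2 ^ k * p - q)) = 1 := by
  by_cases h1 : p ∣ q
  · by_cases h2 : q ∣ p
    · have h3 : p = q := Nat.dvd_antisymm h1 h2
      subst h3
      by_cases h4 : 2 ≤ M
      · exact hNGC M S hS h4 p k hp hq' hk
      · have h5 : M = 1 := le_antisymm (by omega) S.hM
        subst h5
        refine ⟨1, le_refl 1, Nat.one_le_two_pow, ?_⟩
        rw [one_mul]
        exact hNGD S hS (hM1 rfl) p k hp (by simpa using hp') (by omega)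
    · exact hNGB M S hS p q k hp hq hp' hq' hk h2
  · exact hNGA M S hS p q k hp hq hp' hq' hk h1

end ODDM

theorem specODD (hBAS : SpecBAS) (hMLM : SpecMLM) (hPOS : SpecPOS) (hNGA : SpecNGA)
    (hNGB : SpecNGB) (hNGC : SpecNGC) (hNGD : SpecNGD) : SpecODD := by
  intro M S xm ym hS hM1 hL d hd hbig
  by_contra hcon
  push Not at hcon
  obtain ⟨hA, hB⟩ := hcon
  obtain ⟨hb1, hb2, -⟩ := hBAS M S
  obtain ⟨hxM, hyM, hJ, -, -⟩ := id hL
  have hx1 : 1 ≤ xm := by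
    rcases Nat.eq_zero_or_pos xm with h | h
    · rw [h, hb1 ym hyM] at hJ
      exact absurd hJ (by decide)
    · exact h
  have hy1 : 1 ≤ ym := by
    rcases Nat.eq_zero_or_pos ym with h | h
    · rw [h, hb2 xm hxM] at hJ
      exact absurd hJ (by decide)
    · exact h
  have hM := S.hM
  have h2M : 2 ≤ 2 ^ M := by
    calc 2 = 2 ^ 1 := (pow_one 2).symm
      _ ≤ 2 ^ M := Nat.pow_le_pow_right (by norm_num) hM
  have hd1 : 1 ≤ d := hd.pos
  have hxd : d - 1 ≤ xm * (d - 1) := Nat.le_mul_of_pos_left _ hx1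
  have hyd : 2 ^ M ≤ ym * 2 ^ M := Nat.le_mul_of_pos_left _ hy1
  -- the zero hypothesis
  have hzero : ∀ l, 2 ^ (M + 1) * l ≤ d → S.E (l * d) = 0 := by
    intro l hl
    rcases Nat.eq_zero_or_pos l with h | h
    · rw [h, zero_mul, S.E_zero]
    · apply ODDM.eq_zero_of_ne_one
      apply hA l h
      have h1 : 2 ^ (M + 1) * l = 2 ^ M * l + 2 ^ M * l := by rw [pow_succ]; ring
      omega
  obtain ⟨n, hn1, hn2⟩ : ∃ n, 2 ^ n ≤ d ∧ d < 2 ^ (n + 1) :=
    ⟨Nat.log 2 d, Nat.pow_log_le_self 2 (by omega), Nat.lt_pow_succ_log_self (by norm_num) d⟩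
  have hn : 15 * M + 25 ≤ n := by
    have h1 : 2 ^ (15 * M + 25) < 2 ^ (n + 1) := lt_of_le_of_lt hbig hn2
    have h2 := (Nat.pow_lt_pow_iff_right (by norm_num : 1 < 2)).1 h1
    omega
  obtain ⟨z, hz, c, hc⟩ := hMLM M S hS d n hn1 hn2 (by omega) hzero
  have hzb := abs_lt.1 hz
  -- sizes
  have hMd : 2 ^ (M + 3) ≤ 2 ^ n := Nat.pow_le_pow_right (by norm_num) (by omega)
  have hMd' : 2 ^ (M + 3) < 2 ^ (n + 1) := Nat.pow_lt_pow_right (by norm_num) (by omega)
  have hzcast : ((2 ^ (M + 3) : ℕ) : ℤ) = 2 ^ (M + 3) := by push_cast; rfl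
  have hdz_pos : 0 < (d : ℤ) + z := by
    have : ((2 ^ (M + 3) : ℕ) : ℤ) ≤ d := by exact_mod_cast hMd.trans hn1
    rw [hzcast] at this
    linarith [hzb.1]
  have hc_pos : 0 < c := by
    have h1 : (0 : ℤ) < 2 ^ (n - 5 * M - 7) * c := by rw [← hc]; exact hdz_pos
    exact pos_of_mul_pos_right h1 (by positivity) |>.trans_le le_rfl
  have hc_lt : c < 2 ^ (5 * M + 9) := by
    have h1 : (d : ℤ) + z < 2 ^ (n + 2) := by
      have h2 : (d : ℤ) < 2 ^ (n + 1) := by exact_mod_cast hn2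
      have h3 : (2 : ℤ) ^ (M + 3) < 2 ^ (n + 1) := by exact_mod_cast hMd'
      have h4 : (2 : ℤ) ^ (n + 2) = 2 ^ (n + 1) + 2 ^ (n + 1) := by rw [pow_succ]; ring
      linarith [hzb.2]
    have h2 : (2 : ℤ) ^ (n + 2) = 2 ^ (n - 5 * M - 7) * 2 ^ (5 * M + 9) := by
      rw [← pow_add]
      congr 1
      omega
    rw [hc, h2] at h1
    exact lt_of_mul_lt_mul_left h1 (by positivity)
  obtain ⟨P, rfl⟩ : ∃ P : ℕ, c = P := ⟨c.toNat, (Int.toNat_of_nonneg hc_pos.le).symm⟩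
  have hP0 : P ≠ 0 := by
    intro h
    rw [h] at hc_pos
    simp at hc_pos
  obtain ⟨a, p, hp, hPa⟩ := Nat.exists_eq_two_pow_mul_odd hP0
  have hPlt : P < 2 ^ (5 * M + 9) := by exact_mod_cast hc_lt
  have hplt : p < 2 ^ (5 * M + 9) := by
    refine lt_of_le_of_lt ?_ hPlt
    rw [hPa]
    exact Nat.le_mul_of_pos_left _ (by positivity)
  set k := n - 5 * M - 7 + a with hk
  have hk18 : 10 * M + 18 ≤ k := by omega
  have hdz : (d : ℤ) + z = ((2 ^ k * p : ℕ) : ℤ) := by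
    rw [hc, hPa, hk, pow_add]
    push_cast
    ring
  have heven : Even (2 ^ k * p) := by
    have h1 : Even (2 ^ k) := (even_two).pow_of_ne_zero (by omega)
    exact h1.mul_right p
  rcases lt_trichotomy z 0 with hneg | hz0 | hpos
  · obtain ⟨q, hq⟩ : ∃ q : ℕ, z = -(q : ℤ) :=
      ⟨(-z).toNat, by rw [Int.toNat_of_nonneg (by linarith)]; ring⟩
    have hdeq : d = 2 ^ k * p + q := by
      have : (d : ℤ) = ((2 ^ k * p + q : ℕ) : ℤ) := by
        rw [Nat.cast_add, ← hdz, hq]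
        ring
      exact_mod_cast this
    have hqodd : Odd q := by
      rw [Nat.even_iff] at heven
      rw [Nat.odd_iff] at hd ⊢
      omega
    have hqlt : q < 2 ^ (M + 3) := by
      have h1 : (q : ℤ) < 2 ^ (M + 3) := by
        have h2 := hzb.1
        rw [hq] at h2
        linarith
      exact_mod_cast h1
    by_cases hpq : p = 1 ∧ q = 1
    · apply hB k (by omega)
      rw [hdeq, hpq.1, hpq.2, mul_one]
    · obtain ⟨l, hl1, hl2, hl3⟩ := hPOS M S xm ym hL p q k hp hqodd hplt hqlt (by omega) hpq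
      rw [← hdeq] at hl3
      refine hA l hl1 (lt_of_lt_of_le hl2 ?_) hl3
      have h1 : p * 2 ^ k ≤ d - 1 := by
        have h2 := hqodd.pos
        rw [mul_comm]
        omega
      exact (Nat.mul_le_mul_left _ h1).trans (Nat.le_add_right _ _)
  · rw [hz0, add_zero] at hdz
    have h1 : d = 2 ^ k * p := by exact_mod_cast hdz
    rw [h1] at hd
    exact (Nat.not_even_iff_odd.2 hd) heven
  · obtain ⟨q, hq⟩ : ∃ q : ℕ, z = (q : ℤ) :=
      ⟨z.toNat, by rw [Int.toNat_of_nonneg hpos.le]⟩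
    have hsum : d + q = 2 ^ k * p := by
      rw [hq] at hdz
      exact_mod_cast hdz
    have hdeq : d = 2 ^ k * p - q := by omega
    have hqodd : Odd q := by
      rw [Nat.even_iff] at heven
      rw [Nat.odd_iff] at hd ⊢
      omega
    have hqlt : q < 2 ^ (M + 3) := by
      have h1 : (q : ℤ) < 2 ^ (M + 3) := by
        have h2 := hzb.2
        rw [hq] at h2
        exact h2
      exact_mod_cast h1
    obtain ⟨l, hl1, hl2, hl3⟩ :=
      ODDM.neg hNGA hNGB hNGC hNGD M S hS hM1 p q k hp hqodd hplt hqlt hk18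
    rw [← hdeq] at hl3
    refine hA l hl1 ?_ hl3
    have h1 : 2 ^ M * l ≤ 2 ^ (9 * M + 14) := by
      calc 2 ^ M * l ≤ 2 ^ M * 2 ^ (8 * M + 14) := Nat.mul_le_mul_left _ hl2
        _ = 2 ^ (9 * M + 14) := by rw [← pow_add]; congr 1; ring
    have h2 : 2 ^ (9 * M + 14) < 2 ^ (15 * M + 25) :=
      Nat.pow_lt_pow_right (by norm_num) (by omega)
    omega

end Pool.Agent.Lib.MP_6ec7bd_co.LT
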