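import Pool.Agent.Lib.MP_6ec7bd_co.LT.Spec

/-!
# LT, module OPT: `B_v` is the optimal additive constant
-/

namespace Pool.Agent.Lib.MP_6ec7bd_co.LT

open Filter

theorem opt (T : ℕ → ℕ) (hQ : Q1With T) (v : List Bool) (hv : v ∈ V) (hne : v ≠ [true, true])
    (x y : List Bool) (hxy : IsLeastPair v x y) :
    IsLeast {c : ℝ | ∀ᶠ d : ℕ in atTop, (A v d : ℝ) ≤ (C v x : ℝ) * d + c} (B v x y : ℝ) := by
  have h := (hQ v hv hne).2 x y hxy
  constructor
  · rw [Set.mem_ofPred_eq, eventually_atTop]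
    refine ⟨T v.length, fun d hd => ?_⟩
    have h1 := (h d hd).1
    exact_mod_cast h1
  · intro c hc
    rw [Set.mem_ofPred_eq, eventually_atTop] at hc
    obtain ⟨D, hD⟩ := hc
    set k := D + T v.length + 2 * v.length with hk
    set d := 2 ^ trail v * (2 ^ k + 1) with hd
    have hkd : k ≤ d := by
      have h1 : k < 2 ^ k := Nat.lt_two_pow_self
      have h2 : 2 ^ k + 1 ≤ d := Nat.le_mul_of_pos_left _ (by positivity)
      omega
    have h1 := (h d (by omega)).2.2 ⟨k, by omega, hd⟩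
    have h2 := hD d (by omega)
    have h3 : (A v d : ℝ) = (C v x : ℝ) * d + (B v x y : ℝ) := by exact_mod_cast h1
    linarith

end Pool.Agent.Lib.MP_6ec7bd_co.LT
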