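import Pool.Agent.Lib.MP_6ec7bd_co.LT.Spec

/-!
# Module PAR (LT, MP_6ec7bd_co): admissible pairs in terms of windows
-/

set_option autoImplicit false

namespace Pool.Agent.Lib.MP_6ec7bd_co.LT

open Finset

namespace PARM

theorem val_zeros (i : ℕ) : val (zeros i) = 0 := by
  unfold val zeros
  induction i with
  | zero => rfl
  | succ i ih =>
    rw [List.replicate_succ, List.foldl_cons]
    simpa using ih

theorem length_zeros (i : ℕ) : (zeros i).length = i := by
  simp [zeros]

theorem ne_nil {v : List Bool} (hv : v ∈ V) : v ≠ [] := by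
  rintro rfl
  have := hv.1
  simp at this

theorem shift (M s a : ℕ) (h : s ≤ M) : 2 ^ M * a / 2 ^ s = 2 ^ (M - s) * a := by
  have h1 : 2 ^ M = 2 ^ s * 2 ^ (M - s) := by
    rw [← pow_add]
    congr 1
    omega
  rw [h1, mul_assoc]
  exact Nat.mul_div_cancel_left _ (by positivity)

theorem occ_yx (hOCC : SpecOCC) {v : List Bool} (hv : v ∈ V) {x y : List Bool}
    (hx : x.length = v.length - 1) (hy : y.length = v.length - 1) :
    occ v (y ++ x) =
      cr (v.length - 1) v.length (val v) (2 ^ (v.length - 1) * val y + val x) := by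
  obtain ⟨h1, h2, h3, h4, h5, h6, h7⟩ := hOCC
  have hv2 : 2 ≤ v.length := hv.1
  rw [h1 v (y ++ x) (ne_nil hv), h5, List.length_append, hx, hy, cr]
  congr 1
  ext s
  simp only [mem_filter, mem_range]
  constructor
  · rintro ⟨_, h', h''⟩
    exact ⟨by omega, h''⟩
  · rintro ⟨h, h''⟩
    exact ⟨by omega, by omega, h''⟩

theorem occ_zx (hOCC : SpecOCC) {v : List Bool} (hv : v ∈ V) {x : List Bool}
    (hx : x.length = v.length - 1) :
    occ v (zeros (lead v) ++ x) = cr (v.length - 1) v.length (val v) (val x) := by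
  obtain ⟨h1, h2, h3, h4, h5, h6, h7⟩ := hOCC
  have hv2 : 2 ≤ v.length := hv.1
  obtain ⟨hl1, hl2, -⟩ := h6 v hv
  obtain ⟨hb1, hb2⟩ := h7 v hv
  rw [h1 _ _ (ne_nil hv), h5, val_zeros, mul_zero, zero_add, List.length_append, length_zeros, hx,
    cr]
  congr 1
  ext s
  simp only [mem_filter, mem_range]
  constructor
  · rintro ⟨_, h', h''⟩
    exact ⟨by omega, h''⟩
  · rintro ⟨h, h''⟩
    by_cases hs : s < lead v
    · exact ⟨by omega, by omega, h''⟩
    · exfalso
      have hxl := h2 x
      rw [hx] at hxl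
      have h8 : val x / 2 ^ s < 2 ^ (v.length - 1 - s) := by
        rw [Nat.div_lt_iff_lt_mul (by positivity), ← pow_add]
        have h9 : v.length - 1 - s + s = v.length - 1 := by omega
        rwa [h9]
      have h10 : 2 ^ (v.length - 1 - s) ≤ 2 ^ (v.length - lead v - 1) :=
        Nat.pow_le_pow_right (by norm_num) (by omega)
      have h11 := Nat.mod_le (val x / 2 ^ s) (2 ^ v.length)
      omega

theorem occ_yz (hOCC : SpecOCC) {v : List Bool} (hv : v ∈ V) {y : List Bool}
    (hy : y.length = v.length - 1) :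
    occ v (y ++ zeros (trail v)) =
      cr (v.length - 1) v.length (val v) (2 ^ (v.length - 1) * val y) := by
  obtain ⟨h1, h2, h3, h4, h5, h6, h7⟩ := hOCC
  have hv2 : 2 ≤ v.length := hv.1
  obtain ⟨ht1, -, o, ho, hvo⟩ := h6 v hv
  rw [h1 _ _ (ne_nil hv), h5, val_zeros, add_zero, List.length_append, length_zeros, hy, cr]
  -- a window at a position below `M - j` is divisible by `2 ^ (j + 1)`
  have key : ∀ s, s < v.length - 1 →
      2 ^ (v.length - 1) * val y / 2 ^ s % 2 ^ v.length = val v →
      v.length - 1 - trail v ≤ s := by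
    intro s hs h
    by_contra hlt
    rw [shift _ _ _ (by omega)] at h
    have d1 : 2 ^ (trail v + 1) ∣ 2 ^ (v.length - 1 - s) * val y :=
      (pow_dvd_pow 2 (by omega)).mul_right _
    have d2 : 2 ^ (trail v + 1) ∣ 2 ^ v.length := pow_dvd_pow 2 (by omega)
    have d3 : 2 ^ (trail v + 1) ∣ val v := by
      rw [← h]
      exact (Nat.dvd_mod_iff d2).2 d1
    rw [hvo, pow_succ] at d3
    have d4 : 2 ∣ o := Nat.dvd_of_mul_dvd_mul_left (by positivity) d3
    obtain ⟨k, hk⟩ := ho
    omega
  refine Finset.card_bij' (fun s _ => s + (v.length - 1 - trail v))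
    (fun s _ => s - (v.length - 1 - trail v)) ?_ ?_ ?_ ?_
  · intro s hs
    rw [mem_filter, mem_range] at hs ⊢
    obtain ⟨h8, h9, h10⟩ := hs
    refine ⟨by omega, ?_⟩
    rw [← h10, shift _ _ _ (by omega), shift _ _ _ (by omega)]
    have h11 : v.length - 1 - (s + (v.length - 1 - trail v)) = trail v - s := by omega
    rw [h11]
  · intro s hs
    rw [mem_filter, mem_range] at hs ⊢
    obtain ⟨h8, h9⟩ := hs
    have h10 := key s h8 h9
    refine ⟨by omega, by omega, ?_⟩
    rw [← h9, shift _ _ _ (by omega), shift _ _ _ (by omega)]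
    have h11 : trail v - (s - (v.length - 1 - trail v)) = v.length - 1 - s := by omega
    rw [h11]
  · intro s hs
    show s + (v.length - 1 - trail v) - (v.length - 1 - trail v) = s
    omega
  · intro s hs
    rw [mem_filter, mem_range] at hs
    have h10 := key s hs.1 hs.2
    show s - (v.length - 1 - trail v) + (v.length - 1 - trail v) = s
    omega

end PARM

open PARM in
theorem specPAR (hOCC : SpecOCC) : SpecPAR := by
  intro v hv x y
  unfold Admissible
  refine and_congr_right fun hx => and_congr_right fun hy => ?_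
  rw [occ_zx hOCC hv hx, occ_yx hOCC hv hx hy, occ_yz hOCC hv hy, ← ZMod.natCast_eq_one_iff_odd]
  push_cast
  constructor
  · intro h
    rw [← h]
    ring
  · intro h
    rw [← h]
    ring

end Pool.Agent.Lib.MP_6ec7bd_co.LT
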