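import Pool.Agent.Lib.MP_6ec7bd_co.LT.Spec

/-!
# LT, module POS: `d = 2^k p + q` (helper72)
-/

set_option autoImplicit false

namespace Pool.Agent.Lib.MP_6ec7bd_co.LT

open Finset

namespace POSM

/-- The split at `K + M`. -/
theorem splitK {M : ℕ} (S : Sys M) (K p q : ℕ) (hq : q < 2 ^ (K + M)) :
    S.E (2 ^ (K + M) * p + q) = S.E p + S.E q + S.J (p % 2 ^ M) (q / 2 ^ K) := by
  rw [S.split (K + M) p q hq]
  have h : 2 ^ M * q / 2 ^ (K + M) = q / 2 ^ K := by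
    rw [pow_add, mul_comm (2 ^ K) (2 ^ M)]
    exact Nat.mul_div_mul_left q (2 ^ K) (by positivity)
  rw [h]

/-- The split without interaction. -/
theorem split0 {M : ℕ} (S : Sys M) (hJ : ∀ y < 2 ^ M, S.J y 0 = 0) (K p q : ℕ) (hq : q < 2 ^ K) :
    S.E (2 ^ (K + M) * p + q) = S.E p + S.E q := by
  have hq' : q < 2 ^ (K + M) :=
    lt_of_lt_of_le hq (Nat.pow_le_pow_right (by norm_num) (by omega))
  rw [splitK S K p q hq', Nat.div_eq_of_lt hq, hJ _ (Nat.mod_lt _ (by positivity)), add_zero]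

/-- Rounding up. -/
theorem round_up (a c : ℕ) (hc : 0 < c) : ∃ l, a ≤ c * l ∧ c * l < a + c := by
  have h := Nat.div_add_mod a c
  have h2 := Nat.mod_lt a hc
  rcases Nat.eq_zero_or_pos (a % c) with h0 | h0
  · exact ⟨a / c, by omega, by omega⟩
  · refine ⟨a / c + 1, ?_, ?_⟩
    · rw [mul_add]; omega
    · rw [mul_add]; omega

/-- Division by an odd number modulo a power of two. -/
theorem odd_div (M p y : ℕ) (hp : Odd p) (hy : y < 2 ^ M) (hy0 : 1 ≤ y) :
    ∃ l, 1 ≤ l ∧ l < 2 ^ M ∧ l * p % 2 ^ M = y := by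
  have hc : Nat.Coprime p (2 ^ M) := (Nat.coprime_two_right.2 hp).pow_right M
  obtain ⟨z, hz⟩ : ∃ z, p * z ≡ 1 [MOD 2 ^ M] := by
    rcases Nat.eq_zero_or_pos M with h0 | h0
    · subst h0
      exact ⟨0, by simp [Nat.modEq_one]⟩
    · have h1 : 1 < 2 ^ M := Nat.one_lt_two_pow (by omega)
      obtain ⟨z, hz⟩ := Nat.exists_mul_mod_eq_one_of_coprime hc h1
      exact ⟨z, by rw [Nat.ModEq, hz.2, Nat.mod_eq_of_lt h1]⟩
  have hpos : 0 < 2 ^ M := by positivity
  refine ⟨z * y % 2 ^ M, ?_, Nat.mod_lt _ hpos, ?_⟩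
  · by_contra hcon
    have h0 : z * y % 2 ^ M = 0 := by omega
    have h1 : p * (z * y) ≡ 0 [MOD 2 ^ M] := by
      have : z * y ≡ 0 [MOD 2 ^ M] := by rw [Nat.ModEq, h0, Nat.zero_mod]
      simpa using this.mul_left p
    have h2 : p * (z * y) ≡ y [MOD 2 ^ M] := by
      have := hz.mul_right y
      rw [one_mul, mul_assoc] at this
      exact this
    have h3 : y ≡ 0 [MOD 2 ^ M] := h2.symm.trans h1
    rw [Nat.ModEq, Nat.mod_eq_of_lt hy, Nat.zero_mod] at h3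
    omega
  · have h2 : z * y % 2 ^ M * p ≡ y [MOD 2 ^ M] := by
      have e1 : z * y % 2 ^ M ≡ z * y [MOD 2 ^ M] := Nat.mod_modEq _ _
      have e2 := e1.mul_right p
      have e3 := hz.mul_right y
      rw [one_mul] at e3
      refine e2.trans ?_
      rw [show z * y * p = p * z * y by ring]
      exact e3
    rw [Nat.ModEq, Nat.mod_eq_of_lt hy] at h2
    exact h2

theorem two_cases (a : ZMod 2) : a = 0 ∨ a = 1 := by
  revert a; decide

end POSM

open POSM in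
theorem specPOS (hBAS : SpecBAS) : SpecPOS := by
  intro M S xm ym hL p q k hp hq hpb hqb hk hpq
  obtain ⟨hJ0, hJ0', -, -, -, -, -⟩ := hBAS M S
  obtain ⟨hxm, hym, hJ1, hLx, -⟩ := hL
  have hM := S.hM
  -- `xm` and `ym` are positive
  have hxm1 : 1 ≤ xm := by
    by_contra hcon
    have h0 : xm = 0 := by omega
    rw [h0, hJ0 ym hym] at hJ1
    exact zero_ne_one hJ1
  have hym1 : 1 ≤ ym := by
    by_contra hcon
    have h0 : ym = 0 := by omega
    rw [h0, hJ0' xm hxm] at hJ1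
    exact zero_ne_one hJ1
  obtain ⟨K, rfl⟩ : ∃ K, k = K + M := ⟨k - M, by omega⟩
  have hK : 8 * M + 13 ≤ K := by omega
  have hp1 : 1 ≤ p := hp.pos
  have hq1 : 1 ≤ q := hq.pos
  obtain ⟨l2, hl21, hl2, hl2p⟩ := odd_div M p ym hp hym hym1
  -- the exponents: `s = T + M`
  obtain ⟨T, hT⟩ : ∃ T, T = 6 * M + 9 := ⟨_, rfl⟩
  obtain ⟨l1, hl1a, hl1b⟩ := round_up (xm * 2 ^ K) (2 ^ (T + M) * q) (by positivity)
  have hl11 : 1 ≤ l1 := by
    by_contra hcon
    have h0 : l1 = 0 := by omega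
    rw [h0, mul_zero] at hl1a
    have : 0 < xm * 2 ^ K := by positivity
    omega
  -- sizes of the powers
  have hl2q : l2 * q < 2 ^ (2 * M + 3) := by
    calc l2 * q < 2 ^ M * 2 ^ (M + 3) := Nat.mul_lt_mul'' hl2 hqb
      _ = 2 ^ (2 * M + 3) := by rw [← pow_add]; congr 1; ring
  have hl2pb : l2 * p < 2 ^ T := by
    calc l2 * p < 2 ^ M * 2 ^ (5 * M + 9) := Nat.mul_lt_mul'' hl2 hpb
      _ = 2 ^ T := by rw [← pow_add, hT]; congr 1; ring
  have hp1K : 2 ^ (T + M) * q + l2 * q ≤ 2 ^ K := by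
    have e1 : 2 ^ (T + M) * q ≤ 2 ^ (8 * M + 12) := by
      calc 2 ^ (T + M) * q ≤ 2 ^ (T + M) * 2 ^ (M + 3) := Nat.mul_le_mul_left _ hqb.le
        _ = 2 ^ (8 * M + 12) := by rw [← pow_add, hT]; congr 1; ring
    have e2 : 2 ^ (2 * M + 3) ≤ 2 ^ (8 * M + 12) := Nat.pow_le_pow_right (by norm_num) (by omega)
    have e3 : 2 ^ (8 * M + 12) + 2 ^ (8 * M + 12) ≤ 2 ^ K := by
      calc 2 ^ (8 * M + 12) + 2 ^ (8 * M + 12) = 2 ^ (8 * M + 12 + 1) := by rw [pow_succ]; ring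
        _ ≤ 2 ^ K := Nat.pow_le_pow_right (by norm_num) (by omega)
    omega
  obtain ⟨l, hl⟩ : ∃ l, l = 2 ^ (T + M) * l1 + l2 := ⟨_, rfl⟩
  have hlq : l * q = 2 ^ (T + M) * q * l1 + l2 * q := by rw [hl]; ring
  have hlq1 : xm * 2 ^ K ≤ l * q := by rw [hlq]; omega
  have hlq2 : l * q < xm * 2 ^ K + 2 ^ K := by rw [hlq]; omega
  have hdiv : l * q / 2 ^ K = xm := by
    rw [Nat.div_eq_iff (by positivity)]
    constructor
    · exact hlq1
    · have : 0 < 2 ^ K := by positivity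
      omega
  have hxK : xm * 2 ^ K + 2 ^ K ≤ 2 ^ (K + M) := by
    calc xm * 2 ^ K + 2 ^ K = (xm + 1) * 2 ^ K := by ring
      _ ≤ 2 ^ M * 2 ^ K := Nat.mul_le_mul_right _ hxm
      _ = 2 ^ (K + M) := by rw [← pow_add]; congr 1; ring
  have hmod : l * p % 2 ^ M = ym := by
    rw [← hl2p, hl, add_mul, pow_add, show 2 ^ T * 2 ^ M * l1 * p + l2 * p =
      l2 * p + 2 ^ M * (2 ^ T * l1 * p) by ring, Nat.add_mul_mod_self_left]
  -- the bound for the size, for `l`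
  have hsize : 2 ^ M * l < xm * (p * 2 ^ (K + M)) := by
    have e1 : q * (2 ^ M * l) < xm * 2 ^ (K + M) + q * 2 ^ (K + M - 1) := by
      have f1 : l * q < xm * 2 ^ K + q * (2 ^ (T + M) + 2 ^ M) := by
        rw [hlq]
        have : l2 * q ≤ 2 ^ M * q := Nat.mul_le_mul_right _ hl2.le
        have f0 : q * (2 ^ (T + M) + 2 ^ M) = 2 ^ (T + M) * q + 2 ^ M * q := by ring
        omega
      have f2 : 2 ^ M * (2 ^ (T + M) + 2 ^ M) ≤ 2 ^ (K + M - 1) := by
        calc 2 ^ M * (2 ^ (T + M) + 2 ^ M) ≤ 2 ^ M * (2 ^ (T + M) + 2 ^ (T + M)) := by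
              apply Nat.mul_le_mul_left
              apply Nat.add_le_add_left
              exact Nat.pow_le_pow_right (by norm_num) (by omega)
          _ = 2 ^ (T + M + 1 + M) := by
              rw [pow_add 2 (T + M + 1) M, pow_succ]; ring
          _ ≤ 2 ^ (K + M - 1) := Nat.pow_le_pow_right (by norm_num) (by omega)
      calc q * (2 ^ M * l) = 2 ^ M * (l * q) := by ring
        _ < 2 ^ M * (xm * 2 ^ K + q * (2 ^ (T + M) + 2 ^ M)) :=
            Nat.mul_lt_mul_of_pos_left f1 (by positivity)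
        _ = xm * 2 ^ (K + M) + q * (2 ^ M * (2 ^ (T + M) + 2 ^ M)) := by
            rw [pow_add 2 K M]; ring
        _ ≤ xm * 2 ^ (K + M) + q * 2 ^ (K + M - 1) :=
            Nat.add_le_add_left (Nat.mul_le_mul_left _ f2) _
    have e2 : 2 ^ (K + M) = 2 * 2 ^ (K + M - 1) := by
      rw [← pow_succ']; congr 1; omega
    have e3 : 2 ≤ q * p := by
      by_contra hcon
      have h1 : q * p ≤ 1 := by omega
      have h2 : p ≤ 1 := le_trans (Nat.le_mul_of_pos_left p hq1) h1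
      have h3 : q ≤ 1 := le_trans (Nat.le_mul_of_pos_right q hp1) h1
      exact hpq ⟨by omega, by omega⟩
    have e4 : q ≤ q * p := Nat.le_mul_of_pos_right q hp1
    have e5 : q * (2 ^ M * l) < q * (xm * (p * 2 ^ (K + M))) := by
      refine lt_of_lt_of_le e1 ?_
      have g1 : q * 2 ^ (K + M - 1) ≤ xm * (q * 2 ^ (K + M - 1)) :=
        Nat.le_mul_of_pos_left _ hxm1
      refine le_trans (Nat.add_le_add_left g1 _) ?_
      rw [e2, show xm * (2 * 2 ^ (K + M - 1)) + xm * (q * 2 ^ (K + M - 1)) =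
        xm * 2 ^ (K + M - 1) * (2 + q) by ring,
        show q * (xm * (p * (2 * 2 ^ (K + M - 1)))) = xm * 2 ^ (K + M - 1) * (q * p + q * p) by ring]
      apply Nat.mul_le_mul_left
      omega
    exact Nat.lt_of_mul_lt_mul_left e5
  have hE : S.E (l * (2 ^ (K + M) * p + q)) = S.E (l * p) + S.E (l * q) + 1 := by
    rw [show l * (2 ^ (K + M) * p + q) = 2 ^ (K + M) * (l * p) + l * q by ring,
      splitK S K (l * p) (l * q) (lt_of_lt_of_le hlq2 hxK), hdiv, hmod, hJ1]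
  have hEp : S.E (l * p) = S.E (l1 * p) + S.E (l2 * p) := by
    rw [hl, show (2 ^ (T + M) * l1 + l2) * p = 2 ^ (T + M) * (l1 * p) + l2 * p by ring]
    exact split0 S hJ0 T _ _ hl2pb
  have hEq : S.E (l * q) = S.E (l1 * q) + S.E (l2 * q) := by
    rw [hl, show (2 ^ (T + M) * l1 + l2) * q = 2 ^ (T + M) * (l1 * q) + l2 * q by ring]
    exact split0 S hJ0 T _ _ (lt_of_lt_of_le hl2q (Nat.pow_le_pow_right (by norm_num) (by omega)))
  have hE2 : S.E (l2 * (2 ^ (K + M) * p + q)) = S.E (l2 * p) + S.E (l2 * q) := by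
    rw [show l2 * (2 ^ (K + M) * p + q) = 2 ^ (K + M) * (l2 * p) + l2 * q by ring]
    exact split0 S hJ0 K _ _ (lt_of_lt_of_le hl2q (Nat.pow_le_pow_right (by norm_num) (by omega)))
  have hE1 : S.E (l1 * (2 ^ (K + M) * p + q)) = S.E (l1 * p) + S.E (l1 * q) := by
    have f1 : l1 * q < xm * 2 ^ K := by
      have g1 : 2 ^ (T + M) * (l1 * q) < 2 ^ (T + M) * (xm * 2 ^ K) := by
        have g2 : 2 ^ (T + M) * (l1 * q) = 2 ^ (T + M) * q * l1 := by ring
        have g3 : 2 * (xm * 2 ^ K) ≤ 2 ^ (T + M) * (xm * 2 ^ K) := by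
          apply Nat.mul_le_mul_right
          calc 2 = 2 ^ 1 := by norm_num
            _ ≤ 2 ^ (T + M) := Nat.pow_le_pow_right (by norm_num) (by omega)
        have g4 : 2 ^ K ≤ xm * 2 ^ K := Nat.le_mul_of_pos_left _ hxm1
        rw [g2]
        omega
      exact Nat.lt_of_mul_lt_mul_left g1
    have f2 : l1 * q < 2 ^ (K + M) := by omega
    have f3 : l1 * q / 2 ^ K < xm := by
      rw [Nat.div_lt_iff_lt_mul (by positivity)]
      exact f1
    rw [show l1 * (2 ^ (K + M) * p + q) = 2 ^ (K + M) * (l1 * p) + l1 * q by ring,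
      splitK S K (l1 * p) (l1 * q) f2, hLx _ f3 _ (Nat.mod_lt _ (by positivity)), add_zero]
  have hl1l : l1 ≤ l := by
    rw [hl]
    have : l1 ≤ 2 ^ (T + M) * l1 := Nat.le_mul_of_pos_left _ (by positivity)
    omega
  have hl2l : l2 ≤ l := by rw [hl]; omega
  rcases two_cases (S.E (l1 * (2 ^ (K + M) * p + q))) with h1 | h1
  · rcases two_cases (S.E (l2 * (2 ^ (K + M) * p + q))) with h2 | h2
    · refine ⟨l, le_trans hl11 hl1l, hsize, ?_⟩
      rw [hE, hEp, hEq]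
      rw [hE1] at h1
      rw [hE2] at h2
      calc S.E (l1 * p) + S.E (l2 * p) + (S.E (l1 * q) + S.E (l2 * q)) + 1
          = (S.E (l1 * p) + S.E (l1 * q)) + (S.E (l2 * p) + S.E (l2 * q)) + 1 := by ring
        _ = 1 := by rw [h1, h2]; ring
    · exact ⟨l2, hl21, lt_of_le_of_lt (Nat.mul_le_mul_left _ hl2l) hsize, h2⟩
  · exact ⟨l1, hl11, lt_of_le_of_lt (Nat.mul_le_mul_left _ hl1l) hsize, h1⟩

end Pool.Agent.Lib.MP_6ec7bd_co.LT
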