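import Pool.Agent.Lib.MP_6ec7bd_co.LT.Spec

/-!
LT, module SUM: for the system of a pattern `beta` sums to one.
-/

set_option autoImplicit false

namespace Pool.Agent.Lib.MP_6ec7bd_co.LT

open Finset

namespace SUMM

/-- Number of `y < m b` in a residue class mod `m`. -/
theorem count_mod (m b c : ℕ) (hc : c < m) :
    ((range (m * b)).filter (fun y => y % m = c)).card = b := by
  have h : (range (m * b)).filter (fun y => y % m = c) = (range b).image (fun q => m * q + c) := by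
    ext y
    simp only [mem_filter, mem_range, mem_image]
    constructor
    · rintro ⟨h1, h2⟩
      refine ⟨y / m, Nat.div_lt_of_lt_mul h1, ?_⟩
      rw [← h2]
      exact Nat.div_add_mod y m
    · rintro ⟨q, hq, rfl⟩
      refine ⟨?_, ?_⟩
      · calc m * q + c < m * q + m := by omega
          _ = m * (q + 1) := by ring
          _ ≤ m * b := Nat.mul_le_mul_left _ hq
      · rw [Nat.mul_add_mod]
        exact Nat.mod_eq_of_lt hc
  rw [h, card_image_of_injective, card_range]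
  intro a a' h
  have h' : m * a + c = m * a' + c := h
  have hm : 0 < m := by omega
  exact Nat.eq_of_mul_eq_mul_left hm (by omega)

theorem win_iff (M s V x y : ℕ) (hs : s < M) (hx : x < 2 ^ M) :
    (2 ^ M * y + x) / 2 ^ s % 2 ^ (M + 1) = V ↔
      (x / 2 ^ s = V % 2 ^ (M - s) ∧ y % 2 ^ (s + 1) = V / 2 ^ (M - s)) := by
  obtain ⟨r, hr⟩ : ∃ r, M = s + r := ⟨M - s, by omega⟩
  subst hr
  have hr : s + r - s = r := by omega
  rw [hr]
  have h1 : (2 ^ (s + r) * y + x) / 2 ^ s = 2 ^ r * y + x / 2 ^ s := by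
    rw [pow_add, mul_assoc, Nat.mul_add_div (by positivity)]
  have h2 : x / 2 ^ s < 2 ^ r := Nat.div_lt_of_lt_mul (by rwa [← pow_add])
  have h3 : (2 ^ r * y + x / 2 ^ s) % 2 ^ (s + r + 1) = 2 ^ r * (y % 2 ^ (s + 1)) + x / 2 ^ s := by
    have e : 2 ^ (s + r + 1) = 2 ^ r * 2 ^ (s + 1) := by
      rw [← pow_add]
      congr 1
      ring
    have h4 : 2 ^ r * y + x / 2 ^ s =
        2 ^ r * 2 ^ (s + 1) * (y / 2 ^ (s + 1)) + (2 ^ r * (y % 2 ^ (s + 1)) + x / 2 ^ s) := by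
      conv_lhs => rw [← Nat.div_add_mod y (2 ^ (s + 1))]
      ring
    rw [h4, e, Nat.mul_add_mod]
    apply Nat.mod_eq_of_lt
    have h5 := Nat.mod_lt y (show 0 < 2 ^ (s + 1) by positivity)
    calc 2 ^ r * (y % 2 ^ (s + 1)) + x / 2 ^ s < 2 ^ r * (y % 2 ^ (s + 1)) + 2 ^ r := by omega
      _ = 2 ^ r * (y % 2 ^ (s + 1) + 1) := by ring
      _ ≤ 2 ^ r * 2 ^ (s + 1) := Nat.mul_le_mul_left _ h5
  rw [h1, h3]
  have hpos : 0 < 2 ^ r := by positivity
  constructor
  · intro h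
    rw [← h]
    constructor
    · rw [Nat.mul_add_mod, Nat.mod_eq_of_lt h2]
    · rw [Nat.mul_add_div hpos, Nat.div_eq_of_lt h2, add_zero]
  · rintro ⟨ha, hb⟩
    rw [ha, hb]
    exact Nat.div_add_mod V (2 ^ r)

theorem sum_one (M s V x : ℕ) (hs : s < M) (hV : V < 2 ^ (M + 1)) (hx : x < 2 ^ M) :
    ∑ y ∈ range (2 ^ M), (if (2 ^ M * y + x) / 2 ^ s % 2 ^ (M + 1) = V then 1 else 0 : ℕ) =
      if x / 2 ^ s = V % 2 ^ (M - s) then 2 ^ (M - s - 1) else 0 := by
  simp only [win_iff M s V x _ hs hx]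
  split_ifs with h
  · simp only [h, true_and]
    rw [← card_filter]
    have e : 2 ^ M = 2 ^ (s + 1) * 2 ^ (M - s - 1) := by
      rw [← pow_add]
      congr 1
      omega
    rw [e]
    apply count_mod
    apply Nat.div_lt_of_lt_mul
    rw [← pow_add]
    have e2 : M - s + (s + 1) = M + 1 := by omega
    rwa [e2]
  · simp only [h, false_and, if_false, sum_const_zero]

theorem sum_cr (M V x : ℕ) (hM : 1 ≤ M) (hV : V < 2 ^ (M + 1)) (hx : x < 2 ^ M) :
    ((∑ y ∈ range (2 ^ M), cr M (M + 1) V (2 ^ M * y + x) : ℕ) : ZMod 2) =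
      if x / 2 ^ (M - 1) = V % 2 then 1 else 0 := by
  unfold cr
  simp only [card_filter]
  rw [sum_comm]
  rw [sum_congr rfl (fun s hs => sum_one M s V x (mem_range.1 hs) hV hx)]
  push_cast
  rw [sum_eq_single (M - 1)]
  · have e : M - (M - 1) = 1 := by omega
    rw [e]
    simp
  · intro s hs hne
    have hs' := mem_range.1 hs
    split_ifs
    · have h0 : (2 : ZMod 2) = 0 := by decide
      rw [h0, zero_pow (by omega)]
    · rfl
  · intro h
    exact absurd (mem_range.2 (by omega)) h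

end SUMM

theorem specSUM : SpecSUM := by
  intro M S V hV hJ
  have hM := S.hM
  have hp : 2 ^ M = 2 * 2 ^ (M - 1) := by
    rw [← pow_succ']
    congr 1
    omega
  have hpos : 0 < 2 ^ (M - 1) := by positivity
  have hx1 : 2 ^ (M - 1) < 2 ^ M := by omega
  have hx2 : 2 ^ (M - 1) - 1 < 2 ^ M := by omega
  unfold Sys.SumOne
  have hb : ∀ y ∈ range (2 ^ M), S.beta y =
      (S.E 1 + (cr M (M + 1) V (2 ^ (M - 1)) : ℕ) + (cr M (M + 1) V (2 ^ (M - 1) - 1) : ℕ)) +
      ((cr M (M + 1) V (2 ^ M * y + 2 ^ (M - 1)) : ℕ) : ZMod 2) +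
      ((cr M (M + 1) V (2 ^ M * y + (2 ^ (M - 1) - 1)) : ℕ) : ZMod 2) := by
    intro y hy
    have hy' := mem_range.1 hy
    unfold Sys.beta
    rw [Nat.mod_eq_of_lt hy', hJ y _ hy' hx1, hJ y _ hy' hx2]
    push_cast
    have h2 : ((cr M (M + 1) V (2 ^ M * y) : ℕ) : ZMod 2) +
        ((cr M (M + 1) V (2 ^ M * y) : ℕ) : ZMod 2) = 0 := CharTwo.add_self_eq_zero _
    linear_combination h2
  rw [sum_congr rfl hb, sum_add_distrib, sum_add_distrib, sum_const, card_range, nsmul_eq_mul]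
  have h0 : ((2 ^ M : ℕ) : ZMod 2) = 0 := by
    push_cast
    have h0 : (2 : ZMod 2) = 0 := by decide
    rw [h0, zero_pow (by omega)]
  rw [h0, zero_mul, zero_add, ← Nat.cast_sum, ← Nat.cast_sum,
    SUMM.sum_cr M V _ hM hV hx1, SUMM.sum_cr M V _ hM hV hx2]
  have e1 : 2 ^ (M - 1) / 2 ^ (M - 1) = 1 := Nat.div_self hpos
  have e2 : (2 ^ (M - 1) - 1) / 2 ^ (M - 1) = 0 := Nat.div_eq_of_lt (by omega)
  rw [e1, e2]
  rcases Nat.mod_two_eq_zero_or_one V with h | h
  · rw [h]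
    simp
  · rw [h]
    simp

end Pool.Agent.Lib.MP_6ec7bd_co.LT
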