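import Pool.Agent.Lib.MP_6ec7bd_co.LT.Spec

/-!
# Module SYS: the digit system of a pattern (helper52)
-/

set_option autoImplicit false

namespace Pool.Agent.Lib.MP_6ec7bd_co.LT

open Finset

namespace SYSM

theorem cr_add (L W a b n : ℕ) :
    cr (a + b) L W n = cr a L W n + cr b L W (n / 2 ^ a) := by
  unfold cr
  simp only [card_filter]
  rw [sum_range_add]
  congr 1
  refine sum_congr rfl fun s _ => ?_
  rw [pow_add, ← Nat.div_div_eq_div_mul]

theorem cr_zero (L W b : ℕ) (hW : 1 ≤ W) : cr b L W 0 = 0 := by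
  unfold cr
  rw [card_eq_zero, filter_eq_empty_iff]
  intro s _ h
  rw [Nat.zero_div, Nat.zero_mod] at h
  omega

theorem cr_congr (L W B n n' : ℕ) (h : ∀ s < B, n / 2 ^ s % 2 ^ L = n' / 2 ^ s % 2 ^ L) :
    cr B L W n = cr B L W n' := by
  unfold cr
  congr 1
  refine filter_congr fun s hs => ?_
  rw [h s (mem_range.mp hs)]

theorem win_cr (L W n : ℕ) : win L W n = cr n L W n := rfl

theorem win_eq (L W B n : ℕ) (hW : 1 ≤ W) (h : n < 2 ^ B) : win L W n = cr B L W n := by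
  have h1 := cr_add L W n B n
  have h2 := cr_add L W B n n
  rw [Nat.div_eq_of_lt Nat.lt_two_pow_self, cr_zero L W B hW, add_zero] at h1
  rw [Nat.div_eq_of_lt h, cr_zero L W n hW, add_zero] at h2
  rw [win_cr, ← h1, ← h2, Nat.add_comm]

theorem mod_high (L a s P r : ℕ) (h : s + L ≤ a) :
    (2 ^ a * P + r) / 2 ^ s % 2 ^ L = r / 2 ^ s % 2 ^ L := by
  obtain ⟨c, rfl⟩ := Nat.exists_eq_add_of_le h
  have h1 : 2 ^ (s + L + c) * P + r = 2 ^ s * (2 ^ L * (2 ^ c * P)) + r := by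
    rw [pow_add, pow_add]
    ring
  rw [h1, Nat.mul_add_div (by positivity), Nat.mul_add_mod]

theorem main (M W k p q : ℕ) (hW : 1 ≤ W) (hq : q < 2 ^ k) :
    win (M + 1) W (2 ^ M * (2 ^ k * p + q)) =
      cr k (M + 1) W (2 ^ M * q) +
        cr M (M + 1) W (2 ^ M * (p % 2 ^ M) + 2 ^ M * q / 2 ^ k) + win (M + 1) W p := by
  have hlt : 2 ^ M * (2 ^ k * p + q) < 2 ^ (k + (M + p)) := by
    have h1 : 2 ^ k * p + q < 2 ^ k * (p + 1) := by
      rw [Nat.mul_add, Nat.mul_one]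
      omega
    have h2 : p + 1 ≤ 2 ^ p := Nat.lt_two_pow_self
    calc 2 ^ M * (2 ^ k * p + q) < 2 ^ M * (2 ^ k * (p + 1)) :=
          Nat.mul_lt_mul_of_pos_left h1 (by positivity)
      _ ≤ 2 ^ M * (2 ^ k * 2 ^ p) := Nat.mul_le_mul_left _ (Nat.mul_le_mul_left _ h2)
      _ = 2 ^ (k + (M + p)) := by
          rw [pow_add, pow_add]
          ring
  rw [win_eq (M + 1) W _ _ hW hlt, cr_add, cr_add]
  have hx : 2 ^ M * (2 ^ k * p + q) / 2 ^ k = 2 ^ M * p + 2 ^ M * q / 2 ^ k := by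
    have h1 : 2 ^ M * (2 ^ k * p + q) = 2 ^ k * (2 ^ M * p) + 2 ^ M * q := by ring
    rw [h1, Nat.mul_add_div (by positivity)]
  have hxlt : 2 ^ M * q / 2 ^ k < 2 ^ M := by
    rw [Nat.div_lt_iff_lt_mul (by positivity)]
    exact Nat.mul_lt_mul_of_pos_left hq (by positivity)
  rw [hx]
  have h1 : cr k (M + 1) W (2 ^ M * (2 ^ k * p + q)) = cr k (M + 1) W (2 ^ M * q) := by
    refine cr_congr _ _ _ _ _ fun s hs => ?_
    have h2 : 2 ^ M * (2 ^ k * p + q) = 2 ^ (k + M) * p + 2 ^ M * q := by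
      rw [pow_add]
      ring
    rw [h2]
    exact mod_high _ _ _ _ _ (by omega)
  have h3 : cr M (M + 1) W (2 ^ M * p + 2 ^ M * q / 2 ^ k) =
      cr M (M + 1) W (2 ^ M * (p % 2 ^ M) + 2 ^ M * q / 2 ^ k) := by
    refine cr_congr _ _ _ _ _ fun s hs => ?_
    have h4 : 2 ^ M * p + 2 ^ M * q / 2 ^ k =
        2 ^ (M + M) * (p / 2 ^ M) + (2 ^ M * (p % 2 ^ M) + 2 ^ M * q / 2 ^ k) := by
      have h5 : 2 ^ M * p = 2 ^ M * (2 ^ M * (p / 2 ^ M) + p % 2 ^ M) := by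
        rw [Nat.div_add_mod]
      rw [h5, pow_add]
      ring
    rw [h4]
    exact mod_high _ _ _ _ _ (by omega)
  have h6 : (2 ^ M * p + 2 ^ M * q / 2 ^ k) / 2 ^ M = p := by
    rw [Nat.mul_add_div (by positivity), Nat.div_eq_of_lt hxlt, add_zero]
  rw [h1, h3, h6, win_cr, add_assoc]

theorem win_zero (L W : ℕ) : win L W 0 = 0 := rfl

theorem low (M W k q : ℕ) (hW : 1 ≤ W) (hq : q < 2 ^ k) :
    win (M + 1) W (2 ^ M * q) =
      cr k (M + 1) W (2 ^ M * q) + cr M (M + 1) W (2 ^ M * q / 2 ^ k) := by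
  have h := main M W k 0 q hW hq
  rw [Nat.mul_zero, Nat.zero_add, Nat.zero_mod, Nat.mul_zero, Nat.zero_add, win_zero,
    add_zero] at h
  exact h

theorem high (M W p : ℕ) (hW : 1 ≤ W) :
    win (M + 1) W (2 ^ M * p) = cr M (M + 1) W (2 ^ M * (p % 2 ^ M)) + win (M + 1) W p := by
  have h := main M W 0 p 0 hW (by norm_num)
  rw [pow_zero, one_mul, add_zero, Nat.mul_zero, Nat.zero_div, add_zero] at h
  rw [h]
  have h2 : cr 0 (M + 1) W 0 = 0 := rfl
  rw [h2, zero_add]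

theorem dbl (L W j o m : ℕ) (ho : Odd o) (hWo : W = 2 ^ j * o) (hj : j < L)
    (hm : 2 ^ j ∣ m) : win L W (2 * m) = win L W m := by
  have hW : 1 ≤ W := by
    rw [hWo]
    exact Nat.mul_pos (by positivity) ho.pos
  have hlt : m < 2 ^ m := Nat.lt_two_pow_self
  have hlt2 : 2 * m < 2 ^ (1 + m) := by
    rw [pow_add, pow_one]
    omega
  rw [win_eq L W _ _ hW hlt2, cr_add, pow_one, Nat.mul_div_cancel_left _ (by norm_num), win_cr]
  have h0 : cr 1 L W (2 * m) = 0 := by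
    unfold cr
    rw [card_eq_zero, filter_eq_empty_iff]
    intro s hs h
    have hs0 : s = 0 := by
      rw [mem_range] at hs
      omega
    subst hs0
    rw [pow_zero, Nat.div_one] at h
    have h1 : 2 ^ (j + 1) ∣ 2 * m := by
      rw [pow_succ, mul_comm]
      exact Nat.mul_dvd_mul_left 2 hm
    have h2 : 2 ^ (j + 1) ∣ 2 ^ L := pow_dvd_pow 2 (by omega)
    have h3 : 2 ^ (j + 1) ∣ 2 * m % 2 ^ L := (Nat.dvd_mod_iff h2).mpr h1
    rw [h, hWo, pow_succ] at h3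
    have h4 : 2 ∣ o := Nat.dvd_of_mul_dvd_mul_left (by positivity) h3
    obtain ⟨r, hr⟩ := ho
    omega
  rw [h0, zero_add]

theorem shift (L W j o : ℕ) (ho : Odd o) (hWo : W = 2 ^ j * o) (hj : j < L) (n i : ℕ)
    (hi : j ≤ i) : win L W (2 ^ i * n) = win L W (2 ^ j * n) := by
  induction i, hi using Nat.le_induction with
  | base => rfl
  | succ i hi ih =>
    have h1 : 2 ^ (i + 1) * n = 2 * (2 ^ i * n) := by
      rw [pow_succ]
      ring
    rw [h1, dbl L W j o _ ho hWo hj ((pow_dvd_pow 2 hi).mul_right n), ih]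

end SYSM

theorem specSYS (hOCC : SpecOCC) : SpecSYS := by
  obtain ⟨-, -, -, -, -, h6, -⟩ := hOCC
  intro v hv
  obtain ⟨ht, -, o, ho, hWo⟩ := h6 v hv
  have hlen : 2 ≤ v.length := hv.1
  obtain ⟨M, hM⟩ : ∃ M, v.length = M + 1 := ⟨v.length - 1, by omega⟩
  rw [hM] at ht ⊢
  rw [Nat.add_sub_cancel]
  have hM1 : 1 ≤ M := by omega
  generalize hW : val v = W at *
  have hW1 : 1 ≤ W := by
    rw [hWo]
    exact Nat.mul_pos (by positivity) ho.pos
  have hE : ∀ i n, trail v ≤ i → win (M + 1) W (2 ^ M * n) = win (M + 1) W (2 ^ i * n) := by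
    intro i n hi
    rw [SYSM.shift (M + 1) W (trail v) o ho hWo ht n i hi,
      SYSM.shift (M + 1) W (trail v) o ho hWo ht n M (by omega)]
  refine ⟨⟨fun n => (win (M + 1) W (2 ^ M * n) : ℕ), fun y x =>
    ((cr M (M + 1) W (2 ^ M * y + x) + cr M (M + 1) W (2 ^ M * y) + cr M (M + 1) W x : ℕ) :
      ZMod 2), hM1, ?_, ?_⟩, ?_, ?_, ?_⟩
  · show ((win (M + 1) W (2 ^ M * 0) : ℕ) : ZMod 2) = 0
    rw [Nat.mul_zero, SYSM.win_zero, Nat.cast_zero]
  · intro k p q hq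
    rw [SYSM.main M W k p q hW1 hq, SYSM.low M W k q hW1 hq, SYSM.high M W p hW1]
    push_cast
    have h2 : ∀ a : ZMod 2, a + a = 0 := fun a => CharTwo.add_self_eq_zero a
    generalize ((cr k (M + 1) W (2 ^ M * q) : ℕ) : ZMod 2) = a
    generalize ((cr M (M + 1) W (2 ^ M * (p % 2 ^ M) + 2 ^ M * q / 2 ^ k) : ℕ) : ZMod 2) = b
    generalize ((win (M + 1) W p : ℕ) : ZMod 2) = c
    generalize ((cr M (M + 1) W (2 ^ M * (p % 2 ^ M)) : ℕ) : ZMod 2) = d
    generalize ((cr M (M + 1) W (2 ^ M * q / 2 ^ k) : ℕ) : ZMod 2) = f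
    have h3 : d + c + (a + f) + (b + d + f) = a + b + c + (d + d) + (f + f) := by ring
    rw [h3, h2, h2, add_zero, add_zero]
  · intro n
    exact congrArg Nat.cast (hE (trail v) n le_rfl)
  · intro i n hi
    exact congrArg Nat.cast (hE i n hi)
  · intro y x _ _
    rfl

end Pool.Agent.Lib.MP_6ec7bd_co.LT
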