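import Mathlib
import Pool.Agent.Lib.MP_6ec7bd_co.LT.Spec

set_option autoImplicit false

namespace Pool.Agent.Lib.MP_6ec7bd_co.LT

open Finset

namespace WINM

theorem val_snoc (w : List Bool) (b : Bool) : val (w ++ [b]) = 2 * val w + b.toNat := by
  simp [val, List.foldl_append]

theorem val_bin (n : ℕ) : val (bin n) = n := by
  induction n using Nat.strong_induction_on with
  | _ n ih =>
    rcases Nat.eq_zero_or_pos n with rfl | hn
    · simp [bin, val]
    · rcases Nat.even_or_odd' n with ⟨m, rfl | rfl⟩
      · have hm : m ≠ 0 := by omega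
        have h : bin (2 * m) = bin m ++ [false] := by simp [bin, Nat.bit0_bits m hm]
        rw [h, val_snoc, ih m (by omega)]; simp
      · have h : bin (2 * m + 1) = bin m ++ [true] := by simp [bin, Nat.bit1_bits]
        rw [h, val_snoc, ih m (by omega)]; simp

theorem val_zeros (i : ℕ) : val (zeros i) = 0 := by
  induction i with
  | zero => simp [zeros, val]
  | succ i ih =>
    have h : zeros (i + 1) = zeros i ++ [false] := by simp [zeros, List.replicate_succ']
    rw [h, val_snoc, ih]; simp

end WINM

/-- WIN: `e_v(n)` is the number of windows. -/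
theorem specWIN (hOCC : SpecOCC) : SpecWIN := by
  obtain ⟨h1, -, -, -, h5, h6, h7⟩ := hOCC
  intro v hv n
  have hv0 : v ≠ [] := by
    rintro rfl
    simp [V] at hv
  obtain ⟨-, hi, -⟩ := h6 v hv
  have hval := (h7 v hv).1
  have hlen : (zeros (lead v) ++ bin n).length = lead v + n.size := by
    simp [zeros, bin, Nat.size_eq_bits_len]
  have hvw : val (zeros (lead v) ++ bin n) = n := by
    rw [h5, WINM.val_zeros, WINM.val_bin]; simp
  have hpos : 0 < 2 ^ (v.length - lead v - 1) := by positivity
  unfold e win
  rw [h1 v _ hv0, hlen, hvw]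
  congr 1
  ext s
  simp only [mem_filter, mem_range]
  constructor
  · rintro ⟨-, -, hw⟩
    refine ⟨?_, hw⟩
    by_contra hsn
    have h0 : n / 2 ^ s = 0 := Nat.div_eq_of_lt
      (lt_of_lt_of_le n.lt_two_pow_self (Nat.pow_le_pow_right (by norm_num) (by omega)))
    rw [h0, Nat.zero_mod] at hw
    omega
  · rintro ⟨-, hw⟩
    have key : s + v.length ≤ lead v + n.size := by
      by_contra hcon
      have hn : n < 2 ^ n.size := Nat.lt_size_self n
      have hlt : n / 2 ^ s < 2 ^ (v.length - lead v - 1) := by
        refine Nat.div_lt_of_lt_mul ?_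
        rw [← pow_add]
        exact lt_of_lt_of_le hn (Nat.pow_le_pow_right (by norm_num) (by omega))
      have hle : n / 2 ^ s % 2 ^ v.length ≤ n / 2 ^ s := Nat.mod_le _ _
      omega
    exact ⟨by omega, key, hw⟩

end Pool.Agent.Lib.MP_6ec7bd_co.LT
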