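import Pool.Agent.Lib.MP_6ec7bd_co.LT.BAS
import Pool.Agent.Lib.MP_6ec7bd_co.LT.CMP
import Pool.Agent.Lib.MP_6ec7bd_co.LT.CST
import Pool.Agent.Lib.MP_6ec7bd_co.LT.DIR
import Pool.Agent.Lib.MP_6ec7bd_co.LT.BLK
import Pool.Agent.Lib.MP_6ec7bd_co.LT.MLM
import Pool.Agent.Lib.MP_6ec7bd_co.LT.POS
import Pool.Agent.Lib.MP_6ec7bd_co.LT.NGF
import Pool.Agent.Lib.MP_6ec7bd_co.LT.NGA
import Pool.Agent.Lib.MP_6ec7bd_co.LT.NGB
import Pool.Agent.Lib.MP_6ec7bd_co.LT.NGC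
import Pool.Agent.Lib.MP_6ec7bd_co.LT.NGD
import Pool.Agent.Lib.MP_6ec7bd_co.LT.EQU
import Pool.Agent.Lib.MP_6ec7bd_co.LT.BND
import Pool.Agent.Lib.MP_6ec7bd_co.LT.ODD
import Pool.Agent.Lib.MP_6ec7bd_co.LT.OCC
import Pool.Agent.Lib.MP_6ec7bd_co.LT.WIN
import Pool.Agent.Lib.MP_6ec7bd_co.LT.SYS
import Pool.Agent.Lib.MP_6ec7bd_co.LT.SUM
import Pool.Agent.Lib.MP_6ec7bd_co.LT.PAR
import Pool.Agent.Lib.MP_6ec7bd_co.LT.FIN
import Pool.Agent.Lib.MP_6ec7bd_co.LT.APOS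
import Pool.Agent.Lib.MP_6ec7bd_co.LT.OPT

/-!
# LT: assembly of the modules
-/

namespace Pool.Agent.Lib.MP_6ec7bd_co.LT

theorem mainQ : Q1With (fun m => 2 ^ (24 * m)) :=
  have hCST := specCST specBAS specCMP
  have hBLK := specBLK specBAS hCST
  have hMLM := specMLM hBLK specDIR
  have hNGF := specNGF specBAS
  have hODD := specODD specBAS hMLM (specPOS specBAS) (specNGA specBAS hNGF)
    (specNGB specBAS hNGF) (specNGC specBAS hNGF) (specNGD specBAS)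
  specFIN specOCC (specWIN specOCC) (specSYS specOCC) specSUM (specPAR specOCC) hODD
    (specEQU specBAS) (specBND specBAS)

theorem mainA (v : List Bool) (hv : v ∈ V) (d : ℕ) (hd : 1 ≤ d) : 1 ≤ A v d :=
  A_pos specOCC (specWIN specOCC) (specSYS specOCC) specSUM (specBND specBAS) v hv d hd

end Pool.Agent.Lib.MP_6ec7bd_co.LT
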