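import Pool.Agent.Lib.MP_6ec7bd_co.LT.NGX
import Pool.Agent.Lib.MP_6ec7bd_co.LT.FIN

set_option autoImplicit false

namespace Pool.Agent.Lib.MP_6ec7bd_co.LT

open Finset NGXM

namespace NGCM

variable {M : ℕ}

theorem compare (hB : SpecBAS) (hF : SpecNGF) (S : Sys M) (p k : ℕ) (hp : Odd p)
    (hp2 : p < 2 ^ (M + 3)) (hk : 10 * M + 18 ≤ k)
    (h0 : ∀ l, 1 ≤ l → l ≤ 2 ^ (8 * M + 14) → S.E (l * (2 ^ k * p - p)) = 0) (y : ℕ)
    (hy : y < 2 ^ M) :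
    S.beta y + S.beta (2 ^ M - 1 - y) = S.beta 0 + S.beta (2 ^ M - 1 - 0) := by
  have hp1 : 1 ≤ p := hp.pos
  set N : ℕ := 2 * M + 3 with hN
  have hMN : M ≤ N := by omega
  obtain ⟨i, hi1, hi2, hi3⟩ := FINM.solve p (M + 1) (2 * y + 1) hp
  obtain ⟨i', hi1', hi2', hi3'⟩ := FINM.solve p (M + 1) (2 * 0 + 1) hp
  have hlsize : ∀ i : ℕ, i ≤ 2 ^ (M + 1) → 2 ^ N * i + 1 ≤ 2 ^ (3 * M + 5) := by
    intro i hi
    have h1 : 2 ^ N * i ≤ 2 ^ (3 * M + 4) := by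
      calc 2 ^ N * i ≤ 2 ^ N * 2 ^ (M + 1) := Nat.mul_le_mul_left _ hi
        _ = 2 ^ (3 * M + 4) := by rw [← pow_add]; congr 1; omega
    have h2 : 1 ≤ 2 ^ (3 * M + 4) := Nat.one_le_two_pow
    have h3 : 2 ^ (3 * M + 5) = 2 ^ (3 * M + 4) * 2 := pow_succ 2 (3 * M + 4)
    omega
  have hsize : ∀ i : ℕ, i ≤ 2 ^ (M + 1) → (2 ^ N * i + 1) * p ≤ 2 ^ (k - M) := by
    intro i hi
    calc (2 ^ N * i + 1) * p ≤ 2 ^ (3 * M + 5) * 2 ^ (M + 3) := Nat.mul_le_mul (hlsize i hi) hp2.le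
      _ = 2 ^ (4 * M + 8) := by rw [← pow_add]; congr 1; ring
      _ ≤ 2 ^ (k - M) := Nat.pow_le_pow_right (by norm_num) (by omega)
  have hbig : 2 ^ (3 * M + 5) ≤ 2 ^ (8 * M + 14) := Nat.pow_le_pow_right (by norm_num) (by omega)
  have hkM : 2 ^ (k - M) ≤ 2 ^ k := Nat.pow_le_pow_right (by norm_num) (by omega)
  have hN1 : 1 ≤ 2 ^ N := Nat.one_le_two_pow
  have hform : ∀ i : ℕ, 1 ≤ i → i ≤ 2 ^ (M + 1) →
      (∑ j ∈ range p, S.psi (2 ^ N * i * p + j)) +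
        (∑ j ∈ range p, S.psi (2 ^ k - 2 ^ N * i * p - j)) +
        S.J ((2 ^ N * i * p + p - 1) % 2 ^ M) (2 ^ M - 1) +
        S.J ((2 ^ N * i * p - 1) % 2 ^ M) (2 ^ M - 1) = 0 := by
    intro i h1 h2
    have h3 : 1 ≤ 2 ^ N * i := Nat.mul_pos hN1 h1
    have h4 := hlsize i h2
    exact hF M S p p k (2 ^ N * i) hp1 hp1 h3 (by omega) (hsize i h2)
      (h0 _ h3 (by omega)) (h0 _ (by omega) (by omega))
  have e1 := hform i hi1 hi2
  have e2 := hform i' hi1' hi2'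
  have hbound : ∀ j : ℕ, j < p → |(j : ℤ)| < 2 ^ (N - M) := by
    intro j hj
    rw [abs_of_nonneg (by positivity)]
    have : j < 2 ^ (N - M) := by
      rw [show N - M = M + 3 by omega]
      omega
    exact_mod_cast this
  have hsplit : ∀ f : ℕ → ZMod 2, ∑ j ∈ range p, f j = f 0 + ∑ j ∈ (range p).erase 0, f j :=
    fun f => (add_sum_erase (range p) f (mem_range.2 hp1)).symm
  have hfirst : ∑ j ∈ (range p).erase 0, S.psi (2 ^ N * i * p + j) =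
      ∑ j ∈ (range p).erase 0, S.psi (2 ^ N * i' * p + j) := by
    refine sum_congr rfl fun j hj => ?_
    rw [mem_erase, mem_range] at hj
    refine psi_eq hB S N hMN _ _ 1 j (i * p) (i' * p) odd_one ?_ ?_ ?_ ?_
    · push_cast
      ring
    · push_cast
      ring
    · exact_mod_cast hj.1
    · exact hbound j hj.2
  have hk2 : (2 : ℤ) ^ k = 2 ^ N * 2 ^ (k - N) := by
    rw [← pow_add]
    congr 1
    omega
  have hsecond : ∑ j ∈ (range p).erase 0, S.psi (2 ^ k - 2 ^ N * i * p - j) =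
      ∑ j ∈ (range p).erase 0, S.psi (2 ^ k - 2 ^ N * i' * p - j) := by
    refine sum_congr rfl fun j hj => ?_
    rw [mem_erase, mem_range] at hj
    have hcast : ∀ i : ℕ, i ≤ 2 ^ (M + 1) →
        ((2 ^ k - 2 ^ N * i * p - j : ℕ) : ℤ) = 2 ^ k - 2 ^ N * i * p - j := by
      intro i hi
      have h1 := hsize i hi
      have h2 : 2 ^ N * i * p + p ≤ 2 ^ k := by
        calc 2 ^ N * i * p + p = (2 ^ N * i + 1) * p := by ring
          _ ≤ 2 ^ k := h1.trans hkM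
      have h3 : j ≤ 2 ^ k - 2 ^ N * i * p := by omega
      have h4 : 2 ^ N * i * p ≤ 2 ^ k := by omega
      rw [Nat.cast_sub h3, Nat.cast_sub h4]
      push_cast
      ring
    refine psi_eq hB S N hMN _ _ 1 (-j) (2 ^ (k - N) - i * p) (2 ^ (k - N) - i' * p) odd_one
      ?_ ?_ ?_ ?_
    · rw [hcast i hi2, hk2]
      ring
    · rw [hcast i' hi2', hk2]
      ring
    · rw [neg_ne_zero]
      exact_mod_cast hj.1
    · rw [abs_neg]
      exact hbound j hj.2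
  have hmain1 : ∀ (y i : ℕ), i * p ≡ 2 * y + 1 [MOD 2 ^ (M + 1)] →
      S.psi (2 ^ N * i * p + 0) = S.beta y + S.E (2 ^ N - 1) := by
    intro y i hi
    rw [add_zero, mul_assoc]
    exact psi_main hB S N hMN _ _ hi
  have hmain2 : ∀ (y i : ℕ), y < 2 ^ M → i ≤ 2 ^ (M + 1) →
      i * p ≡ 2 * y + 1 [MOD 2 ^ (M + 1)] →
      S.psi (2 ^ k - 2 ^ N * i * p - 0) = S.beta (2 ^ M - 1 - y) + S.E (2 ^ N - 1) := by
    intro y i hy hi hmod
    have h1 : i * p ≤ 2 ^ (k - N) := by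
      calc i * p ≤ 2 ^ (M + 1) * 2 ^ (M + 3) := Nat.mul_le_mul hi hp2.le
        _ = 2 ^ (2 * M + 4) := by rw [← pow_add]; congr 1; ring
        _ ≤ 2 ^ (k - N) := Nat.pow_le_pow_right (by norm_num) (by omega)
    have h2 : 2 ^ k - 2 ^ N * i * p - 0 = 2 ^ N * (2 ^ (k - N) - i * p) := by
      rw [Nat.sub_zero, Nat.mul_sub, ← pow_add, show N + (k - N) = k by omega, mul_assoc]
    rw [h2]
    refine psi_main hB S N hMN _ _ ?_
    apply Nat.ModEq.add_right_cancel' (i * p)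
    rw [Nat.sub_add_cancel h1]
    have h3 : (2 : ℕ) ^ (k - N) ≡ 0 [MOD 2 ^ (M + 1)] :=
      Nat.modEq_zero_iff_dvd.2 (pow_dvd_pow 2 (by omega))
    have h4 : 2 * (2 ^ M - 1 - y) + 1 + i * p ≡ 0 [MOD 2 ^ (M + 1)] := by
      refine (Nat.ModEq.add_left _ hmod).trans ?_
      have h5 : 2 * (2 ^ M - 1 - y) + 1 + (2 * y + 1) = 2 ^ (M + 1) := by
        rw [pow_succ]
        omega
      rw [h5]
      exact Nat.modEq_zero_iff_dvd.2 dvd_rfl
    exact h3.trans h4.symm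
  have hmod : 2 ^ N * i * p ≡ 2 ^ N * i' * p [MOD 2 ^ N] := by
    rw [mul_assoc, mul_assoc]
    exact (Nat.modEq_zero_iff_dvd.2 (dvd_mul_right _ _)).trans
      (Nat.modEq_zero_iff_dvd.2 (dvd_mul_right _ _)).symm
  obtain ⟨j1, j2⟩ := J_eq S N p (2 ^ N * i * p) (2 ^ N * i' * p) hMN
    (Nat.mul_pos (Nat.mul_pos hN1 hi1) hp1) (Nat.mul_pos (Nat.mul_pos hN1 hi1') hp1) hp1 hmod
    (2 ^ M - 1)
  rw [hsplit, hsplit (fun j => S.psi (2 ^ k - 2 ^ N * i * p - j)), hfirst, hsecond, j1, j2,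
    hmain1 y i hi3, hmain2 y i hy hi2 hi3] at e1
  rw [hsplit, hsplit (fun j => S.psi (2 ^ k - 2 ^ N * i' * p - j)),
    hmain1 0 i' hi3', hmain2 0 i' (Nat.two_pow_pos M) hi2' hi3'] at e2
  linear_combination e1 - e2

end NGCM

theorem specNGC (hB : SpecBAS) (hF : SpecNGF) : SpecNGC := by
  intro M S hS hM p k hp hp2 hk
  by_contra hcon
  push Not at hcon
  have h0 : ∀ l, 1 ≤ l → l ≤ 2 ^ (8 * M + 14) → S.E (l * (2 ^ k * p - p)) = 0 :=
    fun l h1 h2 => zero_of_ne (hcon l h1 h2)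
  have h1 : ∑ y ∈ range (2 ^ M), S.beta y = 1 := hS
  obtain ⟨K, rfl⟩ : ∃ K, M = K + 2 := ⟨M - 2, by omega⟩
  have h2 : 2 ^ (K + 2) = 2 ^ (K + 1) + 2 ^ (K + 1) := by ring
  rw [h2, Finset.sum_range_add, ← Finset.sum_range_reflect (fun x => S.beta (2 ^ (K + 1) + x)),
    ← Finset.sum_add_distrib] at h1
  have h3 : ∀ x ∈ range (2 ^ (K + 1)),
      S.beta x + S.beta (2 ^ (K + 1) + (2 ^ (K + 1) - 1 - x)) =
        S.beta 0 + S.beta (2 ^ (K + 2) - 1 - 0) := by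
    intro x hx
    rw [mem_range] at hx
    have h4 : 2 ^ (K + 1) + (2 ^ (K + 1) - 1 - x) = 2 ^ (K + 2) - 1 - x := by omega
    rw [h4]
    exact NGCM.compare hB hF S p k hp hp2 hk h0 x (by omega)
  rw [Finset.sum_congr rfl h3, Finset.sum_const, card_range, pow_succ, mul_comm, mul_smul,
    two_nsmul, CharTwo.add_self_eq_zero] at h1
  exact zero_ne_one h1

end Pool.Agent.Lib.MP_6ec7bd_co.LT
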