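import Pool.Agent.Lib.MP_6ec7bd_co.LT.Spec

set_option autoImplicit false

namespace Pool.Agent.Lib.MP_6ec7bd_co.LT

open Finset

namespace NGXM

variable {M : ℕ}

/-- Comparison of two values of `psi`. -/
theorem psi_eq (hB : SpecBAS) (S : Sys M) (N : ℕ) (hMN : M ≤ N) (m m' : ℕ) (r c u u' : ℤ)
    (hr : Odd r) (h1 : r * m = 2 ^ N * u + c) (h2 : r * m' = 2 ^ N * u' + c) (hc : c ≠ 0)
    (hc' : |c| < 2 ^ (N - M)) : S.psi m = S.psi m' := by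
  have hnd : ¬ 2 ^ (N - M) ∣ m := by
    intro hd
    have hd1 : (2 : ℤ) ^ (N - M) ∣ (m : ℤ) := by exact_mod_cast hd
    have hd2 : (2 : ℤ) ^ (N - M) ∣ 2 ^ N * u :=
      Dvd.dvd.mul_right (pow_dvd_pow 2 (Nat.sub_le N M)) u
    have hd3 : (2 : ℤ) ^ (N - M) ∣ c := by
      have h3 : c = r * m - 2 ^ N * u := by rw [h1]; ring
      rw [h3]
      exact dvd_sub (hd1.mul_left r) hd2
    exact absurd (Int.eq_zero_of_abs_lt_dvd hd3 hc') hc
  have hm0 : m ≠ 0 := by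
    rintro rfl
    exact hnd (dvd_zero _)
  have hcop : IsCoprime ((2 : ℤ) ^ N) r := by
    apply IsCoprime.pow_left
    obtain ⟨t, ht⟩ := hr
    exact ⟨-t, 1, by rw [ht]; ring⟩
  have hmod : m ≡ m' [MOD 2 ^ N] := by
    have h3 : (2 : ℤ) ^ N ∣ r * ((m : ℤ) - m') := by
      refine ⟨u - u', ?_⟩
      rw [mul_sub, h1, h2]
      ring
    have h4 : (2 : ℤ) ^ N ∣ (m : ℤ) - m' := hcop.dvd_of_dvd_mul_left h3
    rw [Nat.modEq_iff_dvd]
    push_cast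
    rw [← neg_sub, dvd_neg]
    exact h4
  obtain ⟨s, t, ht, hst⟩ := Nat.exists_eq_two_pow_mul_odd hm0
  obtain ⟨w, hw⟩ := ht
  have hs : s < N - M := by
    by_contra hcon
    push Not at hcon
    exact hnd (by rw [hst]; exact (pow_dvd_pow 2 hcon).mul_right t)
  obtain ⟨-, -, -, -, h5, -, -⟩ := hB M S
  refine h5 s m m' ?_ ?_
  · rw [hst, hw, pow_succ]
    have h6 : 2 ^ s * (2 * w + 1) = 2 ^ s + 2 ^ s * 2 * w := by ring
    rw [h6, Nat.add_mul_mod_self_left]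
    exact Nat.mod_eq_of_lt (by have := Nat.two_pow_pos s; omega)
  · exact Nat.ModEq.of_dvd (pow_dvd_pow 2 (by omega)) hmod

/-- The main value. -/
theorem psi_main (hB : SpecBAS) (S : Sys M) (N : ℕ) (hMN : M ≤ N) (i y : ℕ)
    (hi : i ≡ 2 * y + 1 [MOD 2 ^ (M + 1)]) :
    S.psi (2 ^ N * i) = S.beta y + S.E (2 ^ N - 1) := by
  obtain ⟨-, -, -, h4, -, -, h7⟩ := hB M S
  have hodd : i % 2 = 1 := by
    have h1 : i ≡ 2 * y + 1 [MOD 2] := hi.of_dvd (by rw [pow_succ]; exact dvd_mul_left _ _)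
    have h2 : i % 2 = (2 * y + 1) % 2 := h1
    omega
  obtain ⟨w, hw⟩ : ∃ w, i = 2 * w + 1 := ⟨i / 2, by omega⟩
  subst hw
  rw [h4 N w hMN, h7 w, h7 y]
  have h1 : 2 * w ≡ 2 * y [MOD 2 * 2 ^ M] := by
    have h2 := Nat.ModEq.add_right_cancel' 1 hi
    rw [pow_succ, mul_comm (2 ^ M) 2] at h2
    exact h2
  have h2 : w ≡ y [MOD 2 ^ M] := Nat.ModEq.mul_left_cancel' (by norm_num) h1
  rw [show w % 2 ^ M = y % 2 ^ M from h2]

/-- The numbers `l`. -/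
theorem crt (M N r : ℕ) (hr : Odd r) (hr1 : 1 < r) (hN : 1 ≤ N) (y : ℕ) :
    ∃ i l : ℕ, l * r + 1 = 2 ^ N * i ∧ i ≡ 2 * y + 1 [MOD 2 ^ (M + 1)] ∧ 1 ≤ l ∧
      l + 1 ≤ 2 ^ (N + M + 1) ∧ i < 2 ^ (M + 1) * r := by
  have hcop : Nat.Coprime (2 ^ N) r := Nat.Coprime.pow_left N (Nat.coprime_two_left.2 hr)
  have hcop' : Nat.Coprime (2 ^ (M + 1)) r :=
    Nat.Coprime.pow_left (M + 1) (Nat.coprime_two_left.2 hr)
  obtain ⟨a, ha⟩ := Nat.exists_mul_mod_eq_one_of_coprime hcop hr1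
  obtain ⟨i, hi1, hi2, hlt⟩ : ∃ i : ℕ, i ≡ 2 * y + 1 [MOD 2 ^ (M + 1)] ∧ i ≡ a [MOD r] ∧
      i < 2 ^ (M + 1) * r :=
    ⟨(Nat.chineseRemainder hcop' (2 * y + 1) a).1, (Nat.chineseRemainder hcop' (2 * y + 1) a).2.1,
      (Nat.chineseRemainder hcop' (2 * y + 1) a).2.2,
      Nat.chineseRemainder_lt_mul hcop' (2 * y + 1) a (by positivity) (by omega)⟩
  have hi3 : 2 ^ N * i ≡ 1 [MOD r] := by
    have h1 : 2 ^ N * i ≡ 2 ^ N * a [MOD r] := Nat.ModEq.mul_left _ hi2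
    refine h1.trans ?_
    rw [Nat.ModEq, Nat.mod_eq_of_lt hr1]
    exact ha.2
  have hodd : i % 2 = 1 := by
    have h1 : i ≡ 2 * y + 1 [MOD 2] := hi1.of_dvd (by rw [pow_succ]; exact dvd_mul_left _ _)
    have h2 : i % 2 = (2 * y + 1) % 2 := h1
    omega
  have hi0 : 1 ≤ i := by omega
  have hN2 : 2 ≤ 2 ^ N := by
    calc 2 = 2 ^ 1 := by norm_num
      _ ≤ 2 ^ N := Nat.pow_le_pow_right (by norm_num) hN
  have hbig : 2 ≤ 2 ^ N * i := by nlinarith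
  have hdvd : r ∣ 2 ^ N * i - 1 := (Nat.modEq_iff_dvd' (by omega)).1 hi3.symm
  obtain ⟨l, hl⟩ := hdvd
  have hl1 : l * r + 1 = 2 ^ N * i := by rw [mul_comm l r]; omega
  refine ⟨i, l, hl1, hi1, ?_, ?_, hlt⟩
  · rcases Nat.eq_zero_or_pos l with h | h
    · rw [h] at hl1
      omega
    · exact h
  · have h1 : l * r < 2 ^ (N + M + 1) * r := by
      calc l * r < 2 ^ N * i := by omega
        _ < 2 ^ N * (2 ^ (M + 1) * r) := Nat.mul_lt_mul_of_pos_left hlt (by positivity)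
        _ = 2 ^ (N + M + 1) * r := by ring
    have h2 := Nat.lt_of_mul_lt_mul_right h1
    omega

/-- `beta` is not constant. -/
theorem not_const (S : Sys M) (hS : S.SumOne) (c : ZMod 2) (h : ∀ y < 2 ^ M, S.beta y = c) :
    False := by
  have h1 : ∑ y ∈ range (2 ^ M), S.beta y = 0 := by
    rw [Finset.sum_congr rfl (fun y hy => h y (mem_range.1 hy)), sum_const, card_range,
      nsmul_eq_mul]
    push_cast
    have h2 : (2 : ZMod 2) = 0 := by decide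
    rw [h2, zero_pow (by have := S.hM; omega), zero_mul]
  have h3 : ∑ y ∈ range (2 ^ M), S.beta y = 1 := hS
  rw [h1] at h3
  exact absurd h3 (by decide)

theorem zero_of_ne {a : ZMod 2} (h : a ≠ 1) : a = 0 := by
  revert a
  decide

/-- The residues. -/
theorem J_eq (S : Sys M) (N p a b : ℕ) (hMN : M ≤ N) (ha : 1 ≤ a) (hb : 1 ≤ b) (hp : 1 ≤ p)
    (h : a ≡ b [MOD 2 ^ N]) (x : ℕ) :
    S.J ((a + p - 1) % 2 ^ M) x = S.J ((b + p - 1) % 2 ^ M) x ∧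
      S.J ((a - 1) % 2 ^ M) x = S.J ((b - 1) % 2 ^ M) x := by
  have h1 : a ≡ b [MOD 2 ^ M] := h.of_dvd (pow_dvd_pow 2 hMN)
  constructor
  · have h2 : a + p - 1 ≡ b + p - 1 [MOD 2 ^ M] := by
      rw [Nat.add_sub_assoc hp, Nat.add_sub_assoc hp]
      exact Nat.ModEq.add_right _ h1
    rw [show (a + p - 1) % 2 ^ M = (b + p - 1) % 2 ^ M from h2]
  · have h2 : a - 1 ≡ b - 1 [MOD 2 ^ M] := by
      apply Nat.ModEq.add_right_cancel' 1
      rw [Nat.sub_add_cancel ha, Nat.sub_add_cancel hb]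
      exact h1
    rw [show (a - 1) % 2 ^ M = (b - 1) % 2 ^ M from h2]

end NGXM

end Pool.Agent.Lib.MP_6ec7bd_co.LT
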